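import Pool.Agent.helper7.RT.Defs

/-!
# RT-Core: decomposition of a properly coloured complete graph with one bad set into rainbow double stars

PROOF.  `pm : Fin s × Bool → Fin s × Bool → Fin s`: for `p.1 < r.1` the value is `p.1` if the types are
equal and `r.1` otherwise; symmetric for `r.1 < p.1`; and `p.1` for `p.1 = r.1`.  In the graph `pm = t`
the vertices `(t, false)`, `(t, true)` are adjacent, and `(j, ε)` with `j ≠ t` is adjacent to `(t, ε)`
(if `t < j`) or to `(t, !ε)` (if `j < t`): so the graph is connected (`pm_connected`).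
If there is a quadruple `Quad c x y z w` choose a bijection `e : B ≃ Fin s × Bool` with `e x = (0, false)`,
`e y = (1, false)`, `e z = (2, false)`, `e w = (3, false)` (`exists_equiv_four`; `4 ≤ s`), otherwise any
bijection.  Put `κ x y = pm (e x) (e y)`.  Let `c x y = c z w` with `s(x, y) ≠ s(z, w)`: as `c` is proper
the four vertices are different, so `Quad c x y z w`; by `h1` (and its symmetric variants: a quadruple may
be permuted so that any of its elements comes last) all four are in the exceptional set, i.e. they are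
the four vertices with positions `(0..3, false)`, and `κ` of a pair of these is the smaller of the two
indices; the minima of two disjoint pairs of `{0, 1, 2, 3}` are different.
-/

set_option autoImplicit false

open Finset
open scoped Classical

namespace Pool.Agent.helper7.RT

/-- the double star decomposition -/
def pm {s : ℕ} (p r : Fin s × Bool) : Fin s :=
  if p.1 < r.1 then (if p.2 = r.2 then p.1 else r.1)
  else if r.1 < p.1 then (if p.2 = r.2 then r.1 else p.1) else p.1

theorem pm_symm {s : ℕ} (p r : Fin s × Bool) : pm p r = pm r p := by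
  unfold pm
  rcases lt_trichotomy p.1 r.1 with h | h | h
  · rw [if_pos h, if_neg (lt_asymm h), if_pos h]
    by_cases h2 : p.2 = r.2
    · rw [if_pos h2, if_pos h2.symm]
    · rw [if_neg h2, if_neg (fun h3 => h2 h3.symm)]
  · rw [if_neg (by rw [h]; exact lt_irrefl _), if_neg (by rw [h]; exact lt_irrefl _),
      if_neg (by rw [h]; exact lt_irrefl _), if_neg (by rw [h]; exact lt_irrefl _), h]
  · rw [if_neg (lt_asymm h), if_pos h, if_pos h]
    by_cases h2 : p.2 = r.2
    · rw [if_pos h2, if_pos h2.symm]
    · rw [if_neg h2, if_neg (fun h3 => h2 h3.symm)]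

theorem pm_connected {s : ℕ} (t : Fin s) :
    (SimpleGraph.fromRel fun p r : Fin s × Bool => pm p r = t).Connected := by
  set G := SimpleGraph.fromRel fun p r : Fin s × Bool => pm p r = t with hG
  have hadj : ∀ p r : Fin s × Bool, p ≠ r → pm p r = t → G.Adj p r := by
    intro p r h1 h2
    rw [hG, SimpleGraph.fromRel_adj]
    exact ⟨h1, Or.inl h2⟩
  have h0 : G.Reachable (t, false) (t, true) := by
    refine (hadj _ _ (by simp) ?_).reachable
    simp [pm]
  have h1 : ∀ ε : Bool, G.Reachable (t, false) (t, ε) := by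
    intro ε
    cases ε
    · exact SimpleGraph.Reachable.refl _
    · exact h0
  have h2 : ∀ p : Fin s × Bool, G.Reachable (t, false) p := by
    rintro ⟨j, ε⟩
    rcases lt_trichotomy t j with h | h | h
    · refine (h1 ε).trans (hadj _ _ ?_ ?_).reachable
      · intro h3
        exact absurd (congrArg Prod.fst h3) (ne_of_lt h)
      · simp [pm, h]
    · rw [← h]
      exact h1 ε
    · refine (h1 (!ε)).trans (hadj _ _ ?_ ?_).reachable
      · intro h3
        exact absurd (congrArg Prod.fst h3) (ne_of_gt h)
      · simp [pm, h, lt_asymm h]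
  haveI : Nonempty (Fin s × Bool) := ⟨(t, false)⟩
  exact SimpleGraph.Connected.mk fun p r => (h2 p).symm.trans (h2 r)

theorem exists_equiv_four {B : Type} [Fintype B] (s : ℕ) (hs : 4 ≤ s)
    (hB : Fintype.card B = 2 * s) (x y z w : B) (h1 : x ≠ y) (h2 : x ≠ z) (h3 : x ≠ w) (h4 : y ≠ z)
    (h5 : y ≠ w) (h6 : z ≠ w) :
    ∃ e : B ≃ Fin s × Bool, e x = (⟨0, by omega⟩, false) ∧ e y = (⟨1, by omega⟩, false) ∧
      e z = (⟨2, by omega⟩, false) ∧ e w = (⟨3, by omega⟩, false) := by
  let f : B → Fin s × Bool := fun b =>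
    if b = x then (⟨0, by omega⟩, false) else if b = y then (⟨1, by omega⟩, false) else
      if b = z then (⟨2, by omega⟩, false) else (⟨3, by omega⟩, false)
  have fx : f x = (⟨0, by omega⟩, false) := if_pos rfl
  have fy : f y = (⟨1, by omega⟩, false) := by
    change (if y = x then _ else _) = _
    rw [if_neg h1.symm, if_pos rfl]
  have fz : f z = (⟨2, by omega⟩, false) := by
    change (if z = x then _ else _) = _
    rw [if_neg h2.symm, if_neg h4.symm, if_pos rfl]
  have fw : f w = (⟨3, by omega⟩, false) := by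
    change (if w = x then _ else _) = _
    rw [if_neg h3.symm, if_neg h5.symm, if_neg h6.symm]
  have hcard : Fintype.card B = (univ : Finset (Fin s × Bool)).card := by
    rw [hB, card_univ, Fintype.card_prod, Fintype.card_fin, Fintype.card_bool, mul_comm]
  obtain ⟨g, hg⟩ := Finset.exists_equiv_extend_of_card_eq hcard (s := {x, y, z, w}) (f := f)
    (subset_univ _) (by
      intro a ha b hb hab
      simp only [coe_insert, coe_singleton, Set.mem_insert_iff, Set.mem_singleton_iff] at ha hb
      rcases ha with rfl | rfl | rfl | rfl <;> rcases hb with rfl | rfl | rfl | rfl <;>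
        first
          | rfl
          | (simp only [fx, fy, fz, fw] at hab; simp at hab))
  refine ⟨g.trans (Equiv.subtypeUnivEquiv fun p => mem_univ p), ?_, ?_, ?_, ?_⟩
  · rw [← fx, ← hg x (by simp)]; rfl
  · rw [← fy, ← hg y (by simp)]; rfl
  · rw [← fz, ← hg z (by simp)]; rfl
  · rw [← fw, ← hg w (by simp)]; rfl

private theorem Core_minne {s : ℕ} (p r p' r' : Fin s × Bool) (hp : p.2 = false) (hr : r.2 = false)
    (hp' : p'.2 = false) (hr' : r'.2 = false) (h1 : p ≠ r) (h2 : p' ≠ r') (h3 : p ≠ p')
    (h4 : p ≠ r') (h5 : r ≠ p') (h6 : r ≠ r') : pm p r ≠ pm p' r' := by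
  have key : ∀ a b : Fin s × Bool, a ≠ b → a.2 = false → b.2 = false → (a.1 : ℕ) ≠ b.1 := by
    intro a b hab ha hb h
    exact hab (Prod.ext (Fin.ext h) (ha.trans hb.symm))
  have e1 := key _ _ h1 hp hr
  have e2 := key _ _ h2 hp' hr'
  have e3 := key _ _ h3 hp hp'
  have e4 := key _ _ h4 hp hr'
  have e5 := key _ _ h5 hr hp'
  have e6 := key _ _ h6 hr hr'
  unfold pm
  rw [hp, hr, hp', hr']
  simp only [if_true]
  intro h
  have h' := congrArg (fun t : Fin s => (t : ℕ)) h
  simp only [Fin.lt_def] at h'
  split_ifs at h' <;> omega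

theorem core {B C : Type} [Fintype B] (s : ℕ) (hs : 4 ≤ s) (hB : Fintype.card B = 2 * s)
    (c : B → B → C) (hc : PC c)
    (h1 : ∀ x y z w x' y' z' w' : B, Quad c x y z w → Quad c x' y' z' w' →
      w' = x ∨ w' = y ∨ w' = z ∨ w' = w) :
    ∃ κ : B → B → Fin s, (∀ x y, κ x y = κ y x) ∧
      (∀ t, (SimpleGraph.fromRel fun x y => κ x y = t).Connected) ∧
      ∀ x y z w, x ≠ y → z ≠ w → c x y = c z w → κ x y = κ z w → s(x, y) = s(z, w) := by
  obtain ⟨e, he⟩ : ∃ e : B ≃ Fin s × Bool, ∀ x y z w, Quad c x y z w → (e w).2 = false := by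
    by_cases hex : ∃ x y z w, Quad c x y z w
    · obtain ⟨x, y, z, w, hq⟩ := hex
      obtain ⟨e, e1, e2, e3, e4⟩ := exists_equiv_four s hs hB x y z w hq.1 hq.2.1 hq.2.2.1
        hq.2.2.2.1 hq.2.2.2.2.1 hq.2.2.2.2.2.1
      refine ⟨e, fun x' y' z' w' hq' => ?_⟩
      rcases h1 x y z w x' y' z' w' hq hq' with h | h | h | h
      · rw [h, e1]
      · rw [h, e2]
      · rw [h, e3]
      · rw [h, e4]
    · have hcard : Fintype.card B = Fintype.card (Fin s × Bool) := by
        rw [hB, Fintype.card_prod, Fintype.card_fin, Fintype.card_bool, mul_comm]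
      exact ⟨Fintype.equivOfCardEq hcard, fun x y z w hq => absurd ⟨x, y, z, w, hq⟩ hex⟩
  refine ⟨fun x y => pm (e x) (e y), fun x y => pm_symm _ _, fun t => ?_, ?_⟩
  · have hiso : (SimpleGraph.fromRel fun x y : B => pm (e x) (e y) = t) ≃g
        (SimpleGraph.fromRel fun p r : Fin s × Bool => pm p r = t) :=
      { toEquiv := e
        map_rel_iff' := by
          intro a b
          rw [SimpleGraph.fromRel_adj, SimpleGraph.fromRel_adj]
          simp }
    exact hiso.connected_iff.2 (pm_connected t)
  · intro x y z w hxy hzw hcol hκ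
    by_contra hne
    have nxz : x ≠ z := by
      intro h
      subst h
      by_cases hyw : y = w
      · exact hne (by rw [hyw])
      · exact hc.ne x y w hxy hzw hyw hcol
    have nxw : x ≠ w := by
      intro h
      subst h
      by_cases hyz : y = z
      · exact hne (by rw [hyz, Sym2.eq_swap])
      · exact hc.ne x y z hxy hzw.symm hyz (by rw [hcol, hc.symm z x])
    have nyz : y ≠ z := by
      intro h
      subst h
      by_cases hxw : x = w
      · exact nxw hxw
      · exact hc.ne y x w hxy.symm hzw hxw (by rw [← hcol, hc.symm y x])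
    have nyw : y ≠ w := by
      intro h
      subst h
      by_cases hxz : x = z
      · exact nxz hxz
      · exact hc.ne y x z hxy.symm hzw.symm hxz (by rw [hc.symm y x, hcol, hc.symm z y])
    have q1 : Quad c x y z w := ⟨hxy, nxz, nxw, nyz, nyw, hzw, hcol⟩
    have q2 : Quad c x y w z := ⟨hxy, nxw, nxz, nyw, nyz, hzw.symm, by rw [hcol, hc.symm z w]⟩
    have q3 : Quad c z w x y := ⟨hzw, nxz.symm, nyz.symm, nxw.symm, nyw.symm, hxy, hcol.symm⟩
    have q4 : Quad c z w y x := ⟨hzw, nyz.symm, nxz.symm, nyw.symm, nxw.symm, hxy.symm,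
      by rw [← hcol, hc.symm y x]⟩
    exact Core_minne (e x) (e y) (e z) (e w) (he _ _ _ _ q4) (he _ _ _ _ q3) (he _ _ _ _ q2)
      (he _ _ _ _ q1) (e.injective.ne hxy) (e.injective.ne hzw) (e.injective.ne nxz)
      (e.injective.ne nxw) (e.injective.ne nyz) (e.injective.ne nyw) hκ

end Pool.Agent.helper7.RT
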