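import Mathlib

/-!
# RT-Pairs: ordered and unordered pairs, the size of a colour class of a proper colouring

* `pairs_le`: `(x, y) ↦ s(x, y)` maps the set on the left into the set on the right, every fibre has at
  most two elements (`Sym2.eq_iff`; `Finset.card_le_mul_card_image` after passing to finsets).
* `class_le`: the edges of one colour are pairwise disjoint (if `s(x, y)`, `s(x, z)` have the same colour
  and `x ≠ y`, `x ≠ z` then `y = z`), so the map from the ordered pairs `(x, y)`, `x ≠ y`, `c s(x, y) = k` to
  `Fin (2 * n)`, `(x, y) ↦ x`, is injective, and there are exactly (at least) `2 * m` ordered pairs for `m`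
  edges (`Quot.out` and its swap; or `Sym2.card_toFinset_of_not_isDiag`: the `toFinset` of the edges are
  pairwise disjoint sets with two elements, `Finset.card_biUnion`).
* `card_range`: the colours which occur are at most `(2 n) ^ 2` many: the range is the image of all
  ordered pairs.
-/

set_option autoImplicit false

open Finset
open scoped Classical

namespace Pool.Agent.helper7.RT

theorem pairs_le {V C : Type} [Fintype V] (c : Sym2 V → C) (k : C) :
    {e : V × V | e.1 ≠ e.2 ∧ c s(e.1, e.2) = k}.ncard ≤
      2 * {e : Sym2 V | ¬ e.IsDiag ∧ c e = k}.ncard := by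
  have h1 : {e : V × V | e.1 ≠ e.2 ∧ c s(e.1, e.2) = k}.ncard =
      (univ.filter fun e : V × V => e.1 ≠ e.2 ∧ c s(e.1, e.2) = k).card := by
    rw [← Set.ncard_coe_finset]
    congr 1
    ext e
    simp
  have h2 : {e : Sym2 V | ¬ e.IsDiag ∧ c e = k}.ncard =
      (univ.filter fun e : Sym2 V => ¬ e.IsDiag ∧ c e = k).card := by
    rw [← Set.ncard_coe_finset]
    congr 1
    ext e
    simp
  rw [h1, h2]
  refine le_trans (Finset.card_le_mul_card_image_of_maps_to (f := fun e : V × V => s(e.1, e.2))
    (t := univ.filter fun e : Sym2 V => ¬ e.IsDiag ∧ c e = k) ?_ 2 ?_) le_rfl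
  · intro e he
    simp only [mem_filter, mem_univ, true_and] at he ⊢
    exact ⟨by simpa using he.1, he.2⟩
  · intro b hb
    induction b using Sym2.ind with
    | _ x y =>
      refine le_trans (Finset.card_le_card (t := {(x, y), (y, x)}) ?_) Finset.card_le_two
      intro e he
      simp only [mem_filter, mem_univ, true_and] at he
      have := Sym2.eq_iff.1 he.2
      simp only [mem_insert, mem_singleton, Prod.ext_iff]
      exact this

theorem class_le (n : ℕ) (C : Type) (c : Sym2 (Fin (2 * n)) → C)
    (hc : ∀ x y z, x ≠ y → x ≠ z → y ≠ z → c s(x, y) ≠ c s(x, z)) (k : C) :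
    {e | ¬ e.IsDiag ∧ c e = k}.ncard ≤ n := by
  have h2 : {e : Sym2 (Fin (2 * n)) | ¬ e.IsDiag ∧ c e = k}.ncard =
      (univ.filter fun e : Sym2 (Fin (2 * n)) => ¬ e.IsDiag ∧ c e = k).card := by
    rw [← Set.ncard_coe_finset]
    congr 1
    ext e
    simp
  rw [h2]
  set S := univ.filter fun e : Sym2 (Fin (2 * n)) => ¬ e.IsDiag ∧ c e = k with hS
  have hdis : (S : Set (Sym2 (Fin (2 * n)))).PairwiseDisjoint Sym2.toFinset := by
    intro e he e' he' hne
    rw [Function.onFun, Finset.disjoint_left]
    intro x hx hx'
    rw [Sym2.mem_toFinset] at hx hx'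
    obtain ⟨y, rfl⟩ := hx
    obtain ⟨z, rfl⟩ := hx'
    simp only [hS, coe_filter, mem_univ, true_and, Set.mem_ofPred_eq, Sym2.mk_isDiag_iff] at he he'
    have hyz : y ≠ z := fun h => hne (by rw [h])
    exact hc x y z he.1 he'.1 hyz (he.2.trans he'.2.symm)
  have h3 := Finset.card_biUnion (s := S) (t := Sym2.toFinset) (fun x hx y hy h => hdis hx hy h)
  have h4 : ∑ u ∈ S, (Sym2.toFinset u).card = 2 * S.card := by
    rw [Finset.sum_const_nat (m := 2)]
    · ring
    · intro e he
      simp only [hS, mem_filter, mem_univ, true_and] at he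
      exact Sym2.card_toFinset_of_not_isDiag e he.1
  have h5 : (S.biUnion Sym2.toFinset).card ≤ 2 * n := by
    refine le_trans (Finset.card_le_univ _) ?_
    simp
  omega

theorem card_range {V C : Type} [Fintype V] (c : Sym2 V → C) :
    Nat.card (Set.range c) ≤ Fintype.card V ^ 2 := by
  have h := Nat.card_le_card_of_surjective
    (fun e : V × V => (⟨c s(e.1, e.2), ⟨_, rfl⟩⟩ : Set.range c)) (by
      rintro ⟨_, e, rfl⟩
      induction e using Sym2.ind with
      | _ x y => exact ⟨(x, y), rfl⟩)
  rw [Nat.card_prod, Nat.card_eq_fintype_card (α := V)] at h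
  rw [sq]
  exact h

end Pool.Agent.helper7.RT
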