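import Mathlib

/-!
# RT-Tree: `n` connected classes of `K_{2n}` are trees

PROOF.  Let `G i = SimpleGraph.fromEdgeSet {e | t e = i}`.  The edge sets of the `G i` are disjoint and
their union is the edge set of the complete graph, with `(2n).choose 2 = n * (2n - 1)` elements
(`SimpleGraph.card_edgeFinset_top_eq_card_choose_two`).  Every `G i` is connected, hence has at least
`2n - 1` edges (`SimpleGraph.Connected.card_vert_le_card_edgeSet_add_one`).  As there are `n` classes,
every `G i` has exactly `2n - 1` edges; `SimpleGraph.isTree_iff_connected_and_card`.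
-/

set_option autoImplicit false

open Finset
open scoped Classical

namespace Pool.Agent.helper7.RT

private theorem tree_sum (n : ℕ) (t : Sym2 (Fin (2 * n)) → Fin n) :
    ∑ i : Fin n, (SimpleGraph.fromEdgeSet {e | t e = i}).edgeFinset.card = (2 * n).choose 2 := by
  have h1 : (⊤ : SimpleGraph (Fin (2 * n))).edgeFinset.card = (2 * n).choose 2 := by
    rw [SimpleGraph.card_edgeFinset_top_eq_card_choose_two, Fintype.card_fin]
  rw [← h1, Finset.card_eq_sum_card_fiberwise (f := t) (t := Finset.univ)
    (fun _ _ => Finset.mem_coe.2 (Finset.mem_univ _))]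
  apply Finset.sum_congr rfl
  intro i _
  congr 1
  ext e
  simp only [SimpleGraph.mem_edgeFinset, SimpleGraph.edgeSet_fromEdgeSet, Finset.mem_filter,
    SimpleGraph.edgeSet_top]
  simp only [Set.mem_sdiff, Set.mem_ofPred_eq, Set.mem_compl_iff]
  tauto

theorem tree_count (n : ℕ) (t : Sym2 (Fin (2 * n)) → Fin n)
    (h : ∀ i, (SimpleGraph.fromEdgeSet {e | t e = i}).Connected) (i : Fin n) :
    (SimpleGraph.fromEdgeSet {e | t e = i}).IsTree := by
  have hn : 0 < n := i.pos
  have hlow : ∀ j : Fin n, 2 * n - 1 ≤ (SimpleGraph.fromEdgeSet {e | t e = j}).edgeFinset.card := by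
    intro j
    have h1 := (h j).card_vert_le_card_edgeSet_add_one
    rw [Nat.card_eq_fintype_card, Fintype.card_fin, Nat.card_eq_fintype_card,
      ← SimpleGraph.edgeFinset_card] at h1
    omega
  have hsum := tree_sum n t
  have hch : (2 * n).choose 2 = n * (2 * n - 1) := by
    rw [Nat.choose_two_right, mul_assoc, Nat.mul_div_cancel_left _ (by norm_num)]
  have hle : (SimpleGraph.fromEdgeSet {e | t e = i}).edgeFinset.card ≤ 2 * n - 1 := by
    by_contra hc
    rw [not_le] at hc
    have : ∑ j : Fin n, (2 * n - 1) <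
        ∑ j : Fin n, (SimpleGraph.fromEdgeSet {e | t e = j}).edgeFinset.card :=
      Finset.sum_lt_sum (fun j _ => hlow j) ⟨i, Finset.mem_univ _, hc⟩
    rw [hsum, hch, Finset.sum_const, Finset.card_univ, Fintype.card_fin, smul_eq_mul] at this
    exact lt_irrefl _ this
  have heq := le_antisymm hle (hlow i)
  rw [SimpleGraph.isTree_iff_connected_and_card]
  refine ⟨h i, ?_⟩
  rw [Nat.card_eq_fintype_card, ← SimpleGraph.edgeFinset_card, heq, Nat.card_eq_fintype_card,
    Fintype.card_fin]
  omega

end Pool.Agent.helper7.RT
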