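import Pool.Agent.helper7.RT.Block

/-!
# RT-Asm: all trees

PROOF.  Choose `κ a`, `φ a` for all blocks (`block`).  `T x y` is: `⟨a, κ a x y⟩` if `x`, `y` are in the
same block `a = (π x).1 = (π y).1`; `⟨a, φ a x y⟩` with `a = (π y).1` if `Ch (π x) (π y)`; and
`⟨a, φ a y x⟩` with `a = (π x).1` if `Ch (π y) (π x)` (`ch_asymm`, `ch_total`: exactly one of the cases).
To avoid casts define `T` through `κ' : (a : Fin q) → V → V → Fin (σ a)` and dependent pairs, and use
`Sigma.mk.inj_iff` / `Sigma.ext_iff` only after `subst`.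
Connected: fix `j = ⟨a, t⟩`.  Two vertices of block `a` are connected by `conn`; a vertex outside is
adjacent to a vertex of the block by `surj`; the block is not empty because `8 ≤ σ a`.
(`Relation.ReflTransGen` induction to `Reachable`; `SimpleGraph.fromRel_adj`.)
Rainbow: let `c x y = c z w`, `T x y = T z w = ⟨a, t⟩`, `x ≠ y`, `z ≠ w`.  Each of the two edges is either
inside block `a` or is an edge of block `a` with a child outside; by symmetry (`PC.symm`, symmetry of `T`,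
`Sym2.eq_swap`) the child is the first vertex.  The four cases are `cc`, `ck` (twice), `kk`.
-/

set_option autoImplicit false

open Finset
open scoped Classical

namespace Pool.Agent.helper7.RT

variable {V C : Type} {q : ℕ} {σ : Fin q → ℕ}

/-- the edge `x y` belongs to the tree `t` of the block `a` -/
private def Asm_R (π : V ≃ Pos σ) (κ φ : (a : Fin q) → V → V → Fin (σ a)) (a : Fin q)
    (x y : V) (t : Fin (σ a)) : Prop :=
  (InB π a x ∧ InB π a y ∧ κ a x y = t) ∨ (InB π a y ∧ Ch (π x) (π y) ∧ φ a x y = t) ∨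
    (InB π a x ∧ Ch (π y) (π x) ∧ φ a y x = t)

/-- the tree of an edge -/
private noncomputable def Asm_T (π : V ≃ Pos σ) (κ φ : (a : Fin q) → V → V → Fin (σ a))
    (x y : V) : (a : Fin q) × Fin (σ a) :=
  if (π x).1 = (π y).1 then ⟨(π y).1, κ (π y).1 x y⟩
  else if Ch (π x) (π y) then ⟨(π y).1, φ (π y).1 x y⟩
  else ⟨(π x).1, φ (π x).1 y x⟩

private theorem Asm_iff (π : V ≃ Pos σ) (κ φ : (a : Fin q) → V → V → Fin (σ a)) (a : Fin q)
    (x y : V) (t : Fin (σ a)) : Asm_T π κ φ x y = ⟨a, t⟩ ↔ Asm_R π κ φ a x y t := by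
  constructor
  · intro h
    unfold Asm_T at h
    by_cases h1 : (π x).1 = (π y).1
    · rw [if_pos h1, Sigma.mk.inj_iff] at h
      obtain ⟨rfl, h2⟩ := h
      exact Or.inl ⟨h1, rfl, eq_of_heq h2⟩
    · rw [if_neg h1] at h
      by_cases h2 : Ch (π x) (π y)
      · rw [if_pos h2, Sigma.mk.inj_iff] at h
        obtain ⟨rfl, h3⟩ := h
        exact Or.inr (Or.inl ⟨rfl, h2, eq_of_heq h3⟩)
      · rw [if_neg h2, Sigma.mk.inj_iff] at h
        obtain ⟨rfl, h3⟩ := h
        exact Or.inr (Or.inr ⟨rfl, (ch_total h1).resolve_left h2, eq_of_heq h3⟩)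
  · unfold Asm_T
    rintro (⟨h1, h2, h3⟩ | ⟨h1, h2, h3⟩ | ⟨h1, h2, h3⟩)
    · unfold InB at h1 h2
      rw [if_pos (h1.trans h2.symm)]
      subst h2
      rw [h3]
    · unfold InB at h1
      rw [if_neg h2.1, if_pos h2]
      subst h1
      rw [h3]
    · unfold InB at h1
      rw [if_neg (Ne.symm h2.1), if_neg (ch_asymm h2)]
      subst h1
      rw [h3]

private theorem Asm_norm {c : V → V → C} (hc : PC c) {π : V ≃ Pos σ}
    {κ φ : (a : Fin q) → V → V → Fin (σ a)} {a : Fin q} {x y : V} {t : Fin (σ a)}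
    (h : Asm_R π κ φ a x y t) : (InB π a x ∧ InB π a y ∧ κ a x y = t) ∨
      ∃ u v, s(u, v) = s(x, y) ∧ c u v = c x y ∧ InB π a v ∧ Ch (π u) (π v) ∧ φ a u v = t := by
  rcases h with h | ⟨h1, h2, h3⟩ | ⟨h1, h2, h3⟩
  · exact Or.inl h
  · exact Or.inr ⟨x, y, rfl, rfl, h1, h2, h3⟩
  · exact Or.inr ⟨y, x, Sym2.eq_swap, hc.symm y x, h1, h2, h3⟩

theorem asm [Fintype V] [Fintype C] {c : V → V → C} (hc : PC c) (π : V ≃ Pos σ)
    (hg : Good c π) (h8 : ∀ a, 8 ≤ σ a) :
    ∃ T : V → V → ((a : Fin q) × Fin (σ a)), (∀ x y, T x y = T y x) ∧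
      (∀ j, (SimpleGraph.fromRel fun x y => T x y = j).Connected) ∧
      ∀ x y z w, x ≠ y → z ≠ w → c x y = c z w → T x y = T z w → s(x, y) = s(z, w) := by
  choose κ φ hB using fun a => block hc π hg a (h8 a)
  refine ⟨Asm_T π κ φ, ?_, ?_, ?_⟩
  · intro x y
    rcases hT : Asm_T π κ φ x y with ⟨a, t⟩
    symm
    rw [Asm_iff] at hT ⊢
    rcases hT with ⟨h1, h2, h3⟩ | h | h
    · exact Or.inl ⟨h2, h1, by rw [(hB a).symm]; exact h3⟩
    · exact Or.inr (Or.inr h)
    · exact Or.inr (Or.inl h)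
  · rintro ⟨a, t⟩
    set G : SimpleGraph V := SimpleGraph.fromRel fun x y => Asm_T π κ φ x y = ⟨a, t⟩ with hG
    have hadj : ∀ x y, x ≠ y → Asm_R π κ φ a x y t → G.Adj x y := by
      intro x y hxy h
      rw [hG, SimpleGraph.fromRel_adj]
      exact ⟨hxy, Or.inl ((Asm_iff π κ φ a x y t).2 h)⟩
    have h0 : 0 < σ a := lt_of_lt_of_le (by norm_num) (h8 a)
    obtain ⟨v₀, hv⟩ : ∃ v₀ : V, InB π a v₀ := by
      refine ⟨π.symm ⟨a, (⟨0, h0⟩, true)⟩, ?_⟩
      unfold InB
      rw [Equiv.apply_symm_apply]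
    have hrt : ∀ x y, Relation.ReflTransGen
        (fun u v : V => u ≠ v ∧ InB π a u ∧ InB π a v ∧ κ a u v = t) x y →
        G.Reachable x y := by
      intro x y h1
      induction h1 with
      | refl => exact SimpleGraph.Reachable.refl _
      | tail _ h2 ih =>
        exact ih.trans (SimpleGraph.Adj.reachable (hadj _ _ h2.1 (Or.inl h2.2)))
    have hin : ∀ x, InB π a x → G.Reachable x v₀ := fun x hx => hrt _ _ ((hB a).conn t x v₀ hx hv)
    have hall : ∀ x, G.Reachable x v₀ := by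
      intro x
      by_cases hx : InB π a x
      · exact hin x hx
      · obtain ⟨y, hy1, hy2, hy3⟩ := (hB a).surj t x hx
        have hxy : x ≠ y := by
          rintro rfl
          exact hx hy1
        exact (SimpleGraph.Adj.reachable (hadj x y hxy (Or.inr (Or.inl ⟨hy1, hy2, hy3⟩)))).trans
          (hin y hy1)
    have : Nonempty V := ⟨v₀⟩
    exact ⟨fun x y => (hall x).trans (hall y).symm⟩
  · intro x y z w hxy hzw hcol hT
    rcases hT2 : Asm_T π κ φ z w with ⟨a, t⟩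
    rw [hT2] at hT
    rw [Asm_iff] at hT hT2
    rcases Asm_norm hc hT with ⟨h1, h2, h3⟩ | ⟨u, v, e1, e2, e3, e4, e5⟩
    · rcases Asm_norm hc hT2 with ⟨k1, k2, k3⟩ | ⟨u', v', f1, f2, f3, f4, f5⟩
      · exact (hB a).cc x y z w h1 h2 k1 k2 hxy hzw hcol (h3.trans k3.symm)
      · exact absurd (f5.trans h3.symm) ((hB a).ck u' v' x y f3 f4 h1 h2 hxy
          (f2.trans hcol.symm))
    · rcases Asm_norm hc hT2 with ⟨k1, k2, k3⟩ | ⟨u', v', f1, f2, f3, f4, f5⟩
      · exact absurd (e5.trans k3.symm) ((hB a).ck u v z w e3 e4 k1 k2 hzw (e2.trans hcol))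
      · obtain ⟨g1, g2⟩ := (hB a).kk u v u' v' e3 e4 f3 f4 (e2.trans (hcol.trans f2.symm))
          (e5.trans f5.symm)
        rw [← e1, ← f1, g1, g2]

end Pool.Agent.helper7.RT
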