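import Pool.Agent.helper7.RT.Nested

/-!
# RT-ListL: the list colouring lemma

Bipartite multigraph `ξ : E → X`, `γ : E → Y`; every `x` which occurs has degree exactly `s`, every
`y` has degree at most `d`, `F y` is a set of at most two forbidden colours for all edges at `y`, at
most `K` edges at every `x` have `F (γ e)` nonempty, and `d + K + 2 ≤ s`.

PROOF.  Let `T = {e | (F (γ e)).Nonempty}`.
(1) `greedy`: there is `φ₁ : E → ℕ` with `φ₁ e < s`, `φ₁ e ∉ F`, proper on `T`: induction on a subset of
`T` (`Finset.induction_on`): for the new edge `e` the forbidden values are those of the other edges of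
the subset with the same `ξ` (at most `K - 1`), those with the same `γ` (at most `d - 1`), and `F (γ e)`
(at most two), together less than `s`, so a value in `Finset.range s` is left.
(2) Let `S = univ \ T`.  For `e ∈ S` the degree of `ξ e` in `S` is `s` minus the number `k` of edges
of `T` at `ξ e`, `k ≤ K`, so it is at least `s - K ≥ d`; the degrees of the `y` in `S` are at most `d`.
`nested` gives `f`.  Lists for `e ∈ S`: `L e = range s \ {φ₁ e' | e' ∈ T, ξ e' = ξ e}`, of size
`s - k = deg_S (ξ e)` (`φ₁` is injective on the edges of `T` at `ξ e`, values below `s`).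
`Galvin.galvin_aux` with `α = ξ`, `β = γ`: the set in its hypothesis `hL` is contained in the union of
`{e' ∈ S | ξ e' = ξ e, f e < f e'}`, of size at most `deg_S (ξ e) - 1 - f e` (`f` is injective there with
values between `f e + 1` and `deg_S (ξ e) - 1`), and `{e' ∈ S | γ e' = γ e, f e' < f e}`, of size at most
`f e`; so it has less than `deg_S (ξ e) = (L e).card` elements (see `Galvin.galvin_of_coloring`).
(3) `φ = φ₁` on `T`, `φ = ` the Galvin colouring on `S`.  Two edges with the same `γ` are both in `T` or
both in `S`.  Two edges with the same `ξ`, one in `T` and one in `S`, have different values because of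
the lists.  For `e ∈ S` the set `F (γ e)` is empty.
-/

set_option autoImplicit false

open Finset
open scoped Classical

namespace Pool.Agent.helper7.RT

variable {E X Y : Type} [Fintype E] [Fintype X] [Fintype Y]

theorem greedy (ξ : E → X) (γ : E → Y) (s d K : ℕ) (F : Y → Finset ℕ) (T : Finset E)
    (hd : ∀ y, (T.filter fun e => γ e = y).card ≤ d) (hF : ∀ y, (F y).card ≤ 2)
    (hK : ∀ x, (T.filter fun e => ξ e = x).card ≤ K) (hs : d + K + 2 ≤ s) :
    ∃ φ : E → ℕ, (∀ e ∈ T, φ e < s) ∧ (∀ e ∈ T, φ e ∉ F (γ e)) ∧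
      (∀ e ∈ T, ∀ e' ∈ T, ξ e = ξ e' → φ e = φ e' → e = e') ∧
      ∀ e ∈ T, ∀ e' ∈ T, γ e = γ e' → φ e = φ e' → e = e' := by
  induction T using Finset.induction_on with
  | empty => exact ⟨fun _ => 0, by simp, by simp, by simp, by simp⟩
  | insert e T he ih =>
    obtain ⟨φ, h1, h2, h3, h4⟩ := ih
      (fun y => (card_le_card (filter_subset_filter _ (subset_insert e T))).trans (hd y))
      (fun x => (card_le_card (filter_subset_filter _ (subset_insert e T))).trans (hK x))
    have hKe : (T.filter fun e' => ξ e' = ξ e).card + 1 ≤ K := by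
      have h5 := hK (ξ e)
      rw [filter_insert, if_pos rfl, card_insert_of_notMem (fun h => he (mem_filter.1 h).1)] at h5
      exact h5
    have hde : (T.filter fun e' => γ e' = γ e).card + 1 ≤ d := by
      have h5 := hd (γ e)
      rw [filter_insert, if_pos rfl, card_insert_of_notMem (fun h => he (mem_filter.1 h).1)] at h5
      exact h5
    have hB1 : ((T.filter fun e' => ξ e' = ξ e).image φ).card ≤
        (T.filter fun e' => ξ e' = ξ e).card := card_image_le
    have hB2 : ((T.filter fun e' => γ e' = γ e).image φ).card ≤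
        (T.filter fun e' => γ e' = γ e).card := card_image_le
    have hB3 := card_union_le (((T.filter fun e' => ξ e' = ξ e).image φ) ∪
      ((T.filter fun e' => γ e' = γ e).image φ)) (F (γ e))
    have hB4 := card_union_le ((T.filter fun e' => ξ e' = ξ e).image φ)
      ((T.filter fun e' => γ e' = γ e).image φ)
    have hB5 := hF (γ e)
    obtain ⟨v, hv1, hv2⟩ : ∃ v ∈ range s, v ∉ (((T.filter fun e' => ξ e' = ξ e).image φ) ∪
        ((T.filter fun e' => γ e' = γ e).image φ)) ∪ F (γ e) := by
      by_contra hcon
      push Not at hcon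
      have h6 := card_le_card (show range s ⊆ _ from hcon)
      rw [card_range] at h6
      omega
    rw [mem_union, mem_union, not_or, not_or] at hv2
    obtain ⟨⟨hv3, hv4⟩, hv5⟩ := hv2
    have hv3' : ∀ e' ∈ T, ξ e' = ξ e → φ e' ≠ v := fun e' he' hx hφ =>
      hv3 (mem_image.2 ⟨e', mem_filter.2 ⟨he', hx⟩, hφ⟩)
    have hv4' : ∀ e' ∈ T, γ e' = γ e → φ e' ≠ v := fun e' he' hx hφ =>
      hv4 (mem_image.2 ⟨e', mem_filter.2 ⟨he', hx⟩, hφ⟩)
    have hne : ∀ e' ∈ T, e' ≠ e := fun e' he' h => he (h ▸ he')
    have hp : (fun x => if x = e then v else φ x) e = v := if_pos rfl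
    have hn : ∀ e' ∈ T, (fun x => if x = e then v else φ x) e' = φ e' := fun e' he' =>
      if_neg (hne e' he')
    refine ⟨fun x => if x = e then v else φ x, ?_, ?_, ?_, ?_⟩
    · intro e' he'
      rcases mem_insert.1 he' with rfl | he'
      · rw [hp]
        exact mem_range.1 hv1
      · rw [hn e' he']
        exact h1 e' he'
    · intro e' he'
      rcases mem_insert.1 he' with rfl | he'
      · rw [hp]
        exact hv5
      · rw [hn e' he']
        exact h2 e' he'
    · intro a ha b hb hab hφ
      rcases mem_insert.1 ha with rfl | ha2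
      · rcases mem_insert.1 hb with rfl | hb2
        · rfl
        · rw [hp, hn b hb2] at hφ
          exact absurd hφ.symm (hv3' b hb2 hab.symm)
      · rcases mem_insert.1 hb with rfl | hb2
        · rw [hp, hn a ha2] at hφ
          exact absurd hφ (hv3' a ha2 hab)
        · rw [hn a ha2, hn b hb2] at hφ
          exact h3 a ha2 b hb2 hab hφ
    · intro a ha b hb hab hφ
      rcases mem_insert.1 ha with rfl | ha2
      · rcases mem_insert.1 hb with rfl | hb2
        · rfl
        · rw [hp, hn b hb2] at hφ
          exact absurd hφ.symm (hv4' b hb2 hab.symm)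
      · rcases mem_insert.1 hb with rfl | hb2
        · rw [hp, hn a ha2] at hφ
          exact absurd hφ (hv4' a ha2 hab)
        · rw [hn a ha2, hn b hb2] at hφ
          exact h4 a ha2 b hb2 hab hφ

theorem list_lemma (ξ : E → X) (γ : E → Y) (s d K : ℕ) (F : Y → Finset ℕ)
    (hdeg : ∀ e, (univ.filter fun e' => ξ e' = ξ e).card = s)
    (hd : ∀ y, (univ.filter fun e => γ e = y).card ≤ d) (hF : ∀ y, (F y).card ≤ 2)
    (hK : ∀ x, (univ.filter fun e => ξ e = x ∧ (F (γ e)).Nonempty).card ≤ K)
    (hs : d + K + 2 ≤ s) :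
    ∃ φ : E → ℕ, (∀ e, φ e < s) ∧ (∀ e, φ e ∉ F (γ e)) ∧
      (∀ e e', ξ e = ξ e' → φ e = φ e' → e = e') ∧
      ∀ e e', γ e = γ e' → φ e = φ e' → e = e' := by
  set T : Finset E := univ.filter fun e => (F (γ e)).Nonempty with hT
  set S : Finset E := univ.filter fun e => ¬ (F (γ e)).Nonempty with hS
  have memT : ∀ e, e ∈ T ↔ (F (γ e)).Nonempty := fun e => by rw [hT]; simp
  have memS : ∀ e, e ∈ S ↔ ¬ (F (γ e)).Nonempty := fun e => by rw [hS]; simp
  have hdT : ∀ y, (T.filter fun e => γ e = y).card ≤ d := fun y =>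
    (card_le_card (filter_subset_filter _ (subset_univ T))).trans (hd y)
  have hdS : ∀ y, (S.filter fun e => γ e = y).card ≤ d := fun y =>
    (card_le_card (filter_subset_filter _ (subset_univ S))).trans (hd y)
  have hKT : ∀ x, (T.filter fun e => ξ e = x).card ≤ K := fun x => by
    refine (card_le_card ?_).trans (hK x)
    intro e he
    rw [mem_filter] at he
    rw [mem_filter]
    exact ⟨mem_univ _, he.2, (memT e).1 he.1⟩
  obtain ⟨φ₁, g1, g2, g3, g4⟩ := greedy ξ γ s d K F T hdT hF hKT hs
  -- the degrees
  have hsum : ∀ e, (S.filter fun e' => ξ e' = ξ e).card + (T.filter fun e' => ξ e' = ξ e).card = s := by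
    intro e
    rw [← hdeg e, ← card_union_of_disjoint]
    · congr 1
      ext e'
      rw [mem_union]
      constructor
      · rintro (h | h)
        · exact mem_filter.2 ⟨mem_univ _, (mem_filter.1 h).2⟩
        · exact mem_filter.2 ⟨mem_univ _, (mem_filter.1 h).2⟩
      · intro h
        by_cases h' : (F (γ e')).Nonempty
        · exact Or.inr (mem_filter.2 ⟨(memT e').2 h', (mem_filter.1 h).2⟩)
        · exact Or.inl (mem_filter.2 ⟨(memS e').2 h', (mem_filter.1 h).2⟩)
    · rw [disjoint_left]
      intro e' h h'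
      exact (memS e').1 (mem_filter.1 h).1 ((memT e').1 (mem_filter.1 h').1)
  obtain ⟨f, f1, f2, f3⟩ := nested ξ γ S d (fun e _ => by
    have h1 := hsum e
    have h2 := hKT (ξ e)
    omega) hdS
  set L : E → Finset ℕ := fun e => range s \ (T.filter fun e' => ξ e' = ξ e).image φ₁ with hL
  have hLcard : ∀ e, (L e).card = (S.filter fun e' => ξ e' = ξ e).card := by
    intro e
    have h1 := hsum e
    have h2 : ((T.filter fun e' => ξ e' = ξ e).image φ₁).card =
        (T.filter fun e' => ξ e' = ξ e).card := by
      apply card_image_of_injOn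
      intro a ha b hb hab
      have ha' := mem_filter.1 (mem_coe.1 ha)
      have hb' := mem_filter.1 (mem_coe.1 hb)
      exact g3 a ha'.1 b hb'.1 (ha'.2.trans hb'.2.symm) hab
    have h3 : (T.filter fun e' => ξ e' = ξ e).image φ₁ ⊆ range s := by
      intro v hv
      obtain ⟨a, ha, rfl⟩ := mem_image.1 hv
      exact mem_range.2 (g1 a (mem_filter.1 ha).1)
    rw [hL]
    change (range s \ (T.filter fun e' => ξ e' = ξ e).image φ₁).card = _
    rw [card_sdiff_of_subset h3, h2, card_range]
    omega
  obtain ⟨c, c1, c2⟩ := Pool.Agent.helper60.Galvin.galvin_aux ξ γ f S L f2 f3 (by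
    intro e he
    rw [hLcard e]
    have hA : (S.filter (fun e' => ξ e' = ξ e ∧ f e < f e')).card ≤
        (S.filter fun e' => ξ e' = ξ e).card - 1 - f e := by
      have h1 : ((S.filter (fun e' => ξ e' = ξ e ∧ f e < f e')).image f).card ≤
          (Finset.Ico (f e + 1) (S.filter fun e' => ξ e' = ξ e).card).card := by
        refine card_le_card ?_
        intro y hy
        obtain ⟨e', he', rfl⟩ := mem_image.1 hy
        rw [mem_filter] at he'
        rw [Finset.mem_Ico]
        have h2 := f1 e' he'.1
        rw [he'.2.1] at h2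
        exact ⟨he'.2.2, h2⟩
      rw [card_image_of_injOn] at h1
      · rw [Nat.card_Ico] at h1
        omega
      · intro a ha b hb hab
        have ha' := mem_filter.1 (mem_coe.1 ha)
        have hb' := mem_filter.1 (mem_coe.1 hb)
        exact f2 a ha'.1 b hb'.1 (ha'.2.1.trans hb'.2.1.symm) hab
    have hB : (S.filter (fun e' => γ e' = γ e ∧ f e' < f e)).card ≤ f e := by
      have h1 : ((S.filter (fun e' => γ e' = γ e ∧ f e' < f e)).image f).card ≤
          (range (f e)).card := by
        refine card_le_card ?_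
        intro y hy
        obtain ⟨e', he', rfl⟩ := mem_image.1 hy
        exact mem_range.2 (mem_filter.1 he').2.2
      rw [card_image_of_injOn] at h1
      · rwa [card_range] at h1
      · intro a ha b hb hab
        have ha' := mem_filter.1 (mem_coe.1 ha)
        have hb' := mem_filter.1 (mem_coe.1 hb)
        exact f3 a ha'.1 b hb'.1 (ha'.2.1.trans hb'.2.1.symm) hab
    rw [filter_or]
    refine lt_of_le_of_lt (card_union_le _ _) ?_
    have h1 := f1 e he
    omega)
  have hpos : ∀ e, (F (γ e)).Nonempty →
      (fun e => if (F (γ e)).Nonempty then φ₁ e else c e) e = φ₁ e := fun e he => if_pos he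
  have hneg : ∀ e, ¬ (F (γ e)).Nonempty →
      (fun e => if (F (γ e)).Nonempty then φ₁ e else c e) e = c e := fun e he => if_neg he
  have hcL : ∀ e, ¬ (F (γ e)).Nonempty → c e < s ∧
      ∀ e' ∈ T, ξ e' = ξ e → φ₁ e' ≠ c e := by
    intro e he
    have h1 := c1 e ((memS e).2 he)
    rw [hL] at h1
    have h2 := mem_sdiff.1 h1
    exact ⟨mem_range.1 h2.1, fun e' he' hx hφ =>
      h2.2 (mem_image.2 ⟨e', mem_filter.2 ⟨he', hx⟩, hφ⟩)⟩
  refine ⟨fun e => if (F (γ e)).Nonempty then φ₁ e else c e, ?_, ?_, ?_, ?_⟩
  · intro e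
    by_cases he : (F (γ e)).Nonempty
    · rw [hpos e he]
      exact g1 e ((memT e).2 he)
    · rw [hneg e he]
      exact (hcL e he).1
  · intro e
    by_cases he : (F (γ e)).Nonempty
    · rw [hpos e he]
      exact g2 e ((memT e).2 he)
    · rw [hneg e he, not_nonempty_iff_eq_empty.1 he]
      exact notMem_empty _
  · intro a b hab hφ
    by_cases ha : (F (γ a)).Nonempty
    · by_cases hb : (F (γ b)).Nonempty
      · rw [hpos a ha, hpos b hb] at hφ
        exact g3 a ((memT a).2 ha) b ((memT b).2 hb) hab hφ
      · rw [hpos a ha, hneg b hb] at hφ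
        exact absurd hφ ((hcL b hb).2 a ((memT a).2 ha) hab)
    · by_cases hb : (F (γ b)).Nonempty
      · rw [hneg a ha, hpos b hb] at hφ
        exact absurd hφ.symm ((hcL a ha).2 b ((memT b).2 hb) hab.symm)
      · rw [hneg a ha, hneg b hb] at hφ
        by_contra hne
        exact c2 a ((memS a).2 ha) b ((memS b).2 hb) hne (Or.inl hab) hφ
  · intro a b hab hφ
    by_cases ha : (F (γ a)).Nonempty
    · have hb : (F (γ b)).Nonempty := by rw [← hab]; exact ha
      rw [hpos a ha, hpos b hb] at hφ
      exact g4 a ((memT a).2 ha) b ((memT b).2 hb) hab hφ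
    · have hb : ¬ (F (γ b)).Nonempty := by rw [← hab]; exact ha
      rw [hneg a ha, hneg b hb] at hφ
      by_contra hne
      exact c2 a ((memS a).2 ha) b ((memS b).2 hb) hne (Or.inr hab) hφ

end Pool.Agent.helper7.RT
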