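import Pool.Agent.helper7.RT.Own
import Pool.Agent.helper7.RT.ListL
import Pool.Agent.helper7.RT.Core

/-!
# RT-Block: the trees of one block

PROOF.  Let `s = σ a` (`8 ≤ s` by `Good.load`), `B = {x // InB π a x}` (`card_block`: `2 s` elements).
`core` for `B` with the restriction of `c` (`Good.quad`) gives `κ₀`; `κ x y = κ₀ x y` on the block and
anything outside (for instance `⟨0, _⟩`), symmetric.
`F k` = the set of the values (as natural numbers) `κ z w` with `z ≠ w` in the block and `c z w = k`.
`card_F`: `(F k).card ≤ 2`: the edges inside the block of colour `k` are pairwise disjoint (`c` is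
proper), and three different ones `{x, y}`, `{z, w}`, `{x', y'}` would give `Quad c x y z w` and
`Quad c x y x' y'` with `y'` not in the first set, against `Good.quad`; so there are at most two edges and
at most two values (`κ` is symmetric).
List lemma: `E = {e : V × V // InB π a e.2 ∧ Ch (π e.1) (π e.2)}`, `ξ e = e.1`, `γ e = c e.1 e.2` with
values in the finite type `C`, `d = s - 8`, `K = 6`: the degree of `x = e.1` is `s` by `card_child` (for
an edge of `E` the child is not in the block: `Ch` and `InB π a e.2`), the degree of a colour is its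
`load`, at most `s - 8`; `hK` is `Good.hit` (`y ↦ (x, y)`; if `(F (c x y)).Nonempty` then there are
`z ≠ w` in the block with `c z w = c x y`).
`φ x y` is the value of the list colouring, as an element of `Fin s`, and arbitrary outside of `E`.
`surj`: for `x` outside of the block `y ↦ φ x y` is injective on the `s` elements `y` with
`InB π a y ∧ Ch (π x) (π y)` and has values in `Fin s`, hence it is surjective.
-/

set_option autoImplicit false

open Finset
open scoped Classical

namespace Pool.Agent.helper7.RT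

variable {V C : Type} {q : ℕ} {σ : Fin q → ℕ}

/-- The trees of the block `a`: `κ` on the pairs inside the block, `φ x y` for the edge from the child
`x` outside to `y` in the block. -/
structure BT [Fintype V] (c : V → V → C) (π : V ≃ Pos σ) (a : Fin q) (κ φ : V → V → Fin (σ a)) :
    Prop where
  symm : ∀ x y, κ x y = κ y x
  conn : ∀ (t : Fin (σ a)) (x y : V), InB π a x → InB π a y →
    Relation.ReflTransGen (fun u v : V => u ≠ v ∧ InB π a u ∧ InB π a v ∧ κ u v = t) x y
  surj : ∀ (t : Fin (σ a)) (x : V), ¬ InB π a x → ∃ y, InB π a y ∧ Ch (π x) (π y) ∧ φ x y = t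
  cc : ∀ x y z w : V, InB π a x → InB π a y → InB π a z → InB π a w → x ≠ y → z ≠ w →
    c x y = c z w → κ x y = κ z w → s(x, y) = s(z, w)
  ck : ∀ x y z w : V, InB π a y → Ch (π x) (π y) → InB π a z → InB π a w → z ≠ w →
    c x y = c z w → φ x y ≠ κ z w
  kk : ∀ x y z w : V, InB π a y → Ch (π x) (π y) → InB π a w → Ch (π z) (π w) →
    c x y = c z w → φ x y = φ z w → x = z ∧ y = w

private theorem Block_disj {c : V → V → C} (hc : PC c) {N : ℕ} {κ : V → V → Fin N}
    (hκ : ∀ x y, κ x y = κ y x) {x y z w : V} (hxy : x ≠ y) (hzw : z ≠ w) (h : c x y = c z w)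
    (hne : κ x y ≠ κ z w) : x ≠ z ∧ x ≠ w ∧ y ≠ z ∧ y ≠ w := by
  refine ⟨?_, ?_, ?_, ?_⟩
  · rintro rfl
    by_cases hyw : y = w
    · subst hyw; exact hne rfl
    · exact hc.ne x y w hxy hzw hyw h
  · rintro rfl
    by_cases hyz : y = z
    · subst hyz; exact hne (hκ _ _)
    · exact hc.ne x y z hxy hzw.symm hyz (h.trans (hc.symm _ _))
  · rintro rfl
    by_cases hxw : x = w
    · subst hxw; exact hne (hκ _ _)
    · exact hc.ne y x w hxy.symm hzw hxw ((hc.symm _ _).trans h)
  · rintro rfl
    by_cases hxz : x = z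
    · subst hxz; exact hne rfl
    · exact hc.ne y x z hxy.symm hzw.symm hxz ((hc.symm _ _).trans (h.trans (hc.symm _ _)))

theorem card_F [Fintype V] [Fintype C] {c : V → V → C} (hc : PC c) (π : V ≃ Pos σ) (a : Fin q)
    (hq : QuadOK c π a) (κ : V → V → Fin (σ a)) (hκ : ∀ x y, κ x y = κ y x) (k : C) :
    ((univ.filter fun e : V × V => e.1 ≠ e.2 ∧ InB π a e.1 ∧ InB π a e.2 ∧ c e.1 e.2 = k).image
      fun e => (κ e.1 e.2).val).card ≤ 2 := by
  by_contra hcon
  rw [not_le, Finset.two_lt_card] at hcon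
  obtain ⟨u, hu, v, hv, w, hw, huv, huw, hvw⟩ := hcon
  simp only [mem_image, mem_filter, mem_univ, true_and, Prod.exists] at hu hv hw
  obtain ⟨x, y, ⟨hxy, hx, hy, hcu⟩, rfl⟩ := hu
  obtain ⟨x', y', ⟨hxy', hx', hy', hcv⟩, rfl⟩ := hv
  obtain ⟨x'', y'', ⟨hxy'', hx'', hy'', hcw⟩, rfl⟩ := hw
  have h1 := Block_disj hc hκ hxy hxy' (hcu.trans hcv.symm) (fun h => huv (congrArg _ h))
  have h2 := Block_disj hc hκ hxy hxy'' (hcu.trans hcw.symm) (fun h => huw (congrArg _ h))
  have h3 := Block_disj hc hκ hxy' hxy'' (hcv.trans hcw.symm) (fun h => hvw (congrArg _ h))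
  obtain ⟨a1, a2, a3, a4⟩ := h1
  obtain ⟨b1, b2, b3, b4⟩ := h2
  obtain ⟨c1, c2, c3, c4⟩ := h3
  rcases hq x y x' y' x y x'' y'' ⟨hxy, a1, a2, a3, a4, hxy', hcu.trans hcv.symm⟩
    ⟨hxy, b1, b2, b3, b4, hxy'', hcu.trans hcw.symm⟩ hx hy hx' hy' hx hy hx'' hy'' with h | h | h | h
  · exact b2 h.symm
  · exact b4 h.symm
  · exact c2 h.symm
  · exact c4 h.symm

theorem block [Fintype V] [Fintype C] {c : V → V → C} (hc : PC c) (π : V ≃ Pos σ)
    (hg : Good c π) (a : Fin q) (h8 : 8 ≤ σ a) :
    ∃ κ φ : V → V → Fin (σ a), BT c π a κ φ := by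
  -- the core
  have hcard : Fintype.card {x : V // InB π a x} = 2 * σ a := by
    rw [← card_block π a, Fintype.card_subtype]
  have hcB : PC fun x y : {x : V // InB π a x} => c x.1 y.1 :=
    ⟨fun x y => hc.symm _ _, fun x y z hxy hxz hyz => hc.ne _ _ _ (fun h => hxy (Subtype.ext h))
      (fun h => hxz (Subtype.ext h)) (fun h => hyz (Subtype.ext h))⟩
  have hQ : ∀ {x y z w : {x : V // InB π a x}},
      Quad (fun x y : {x : V // InB π a x} => c x.1 y.1) x y z w → Quad c x.1 y.1 z.1 w.1 := by
    rintro x y z w ⟨g1, g2, g3, g4, g5, g6, g7⟩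
    exact ⟨fun h => g1 (Subtype.ext h), fun h => g2 (Subtype.ext h), fun h => g3 (Subtype.ext h),
      fun h => g4 (Subtype.ext h), fun h => g5 (Subtype.ext h), fun h => g6 (Subtype.ext h), g7⟩
  obtain ⟨κ₀, k1, k2, k3⟩ := core (σ a) (by omega) hcard
    (fun x y : {x : V // InB π a x} => c x.1 y.1) hcB (by
      intro x y z w x' y' z' w' h h'
      have := hg.quad a x.1 y.1 z.1 w.1 x'.1 y'.1 z'.1 w'.1 (hQ h) (hQ h') x.2 y.2 z.2 w.2
        x'.2 y'.2 z'.2 w'.2
      rcases this with h | h | h | h
      · exact Or.inl (Subtype.ext h)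
      · exact Or.inr (Or.inl (Subtype.ext h))
      · exact Or.inr (Or.inr (Or.inl (Subtype.ext h)))
      · exact Or.inr (Or.inr (Or.inr (Subtype.ext h))))
  let z0 : Fin (σ a) := ⟨0, by omega⟩
  let κ : V → V → Fin (σ a) := fun x y =>
    if h : InB π a x ∧ InB π a y then κ₀ ⟨x, h.1⟩ ⟨y, h.2⟩ else z0
  have hκin : ∀ (x y : V) (hx : InB π a x) (hy : InB π a y), κ x y = κ₀ ⟨x, hx⟩ ⟨y, hy⟩ := by
    intro x y hx hy
    simp only [κ, dif_pos (And.intro hx hy)]
  have hκs : ∀ x y, κ x y = κ y x := by
    intro x y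
    by_cases h : InB π a x ∧ InB π a y
    · rw [hκin x y h.1 h.2, hκin y x h.2 h.1, k1]
    · have h' : ¬ (InB π a y ∧ InB π a x) := fun g => h ⟨g.2, g.1⟩
      simp only [κ, dif_neg h, dif_neg h']
  -- the forbidden sets
  let F : C → Finset ℕ := fun k =>
    (univ.filter fun e : V × V => e.1 ≠ e.2 ∧ InB π a e.1 ∧ InB π a e.2 ∧ c e.1 e.2 = k).image
      fun e => (κ e.1 e.2).val
  have hF : ∀ k, (F k).card ≤ 2 := fun k => card_F hc π a (hg.quad a) κ hκs k
  -- the list colouring
  have hout : ∀ {x y : V}, InB π a y → Ch (π x) (π y) → ¬ InB π a x := by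
    intro x y hy h hx
    exact h.1 (hx.trans hy.symm)
  have hdeg : ∀ x : V, ¬ InB π a x → (univ.filter fun e' :
      {e : V × V // InB π a e.2 ∧ Ch (π e.1) (π e.2)} => e'.1.1 = x).card = σ a := by
    intro x hx
    rw [← card_child π a x hx]
    refine Finset.card_bij (fun e' _ => e'.1.2) ?_ ?_ ?_
    · intro e' he'
      simp only [mem_filter, mem_univ, true_and] at he' ⊢
      have := e'.2
      rw [he'] at this
      exact this
    · intro e1 h1 e2 h2 h
      simp only [mem_filter, mem_univ, true_and] at h1 h2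
      exact Subtype.ext (Prod.ext (h1.trans h2.symm) h)
    · intro y hy
      simp only [mem_filter, mem_univ, true_and] at hy
      exact ⟨⟨(x, y), hy⟩, by simp, rfl⟩
  obtain ⟨f, f1, f2, f3, f4⟩ := list_lemma
    (E := {e : V × V // InB π a e.2 ∧ Ch (π e.1) (π e.2)}) (fun e => e.1.1)
    (fun e => c e.1.1 e.1.2) (σ a) (σ a - 8) 6 F
    (by
      intro e
      exact hdeg _ (hout e.2.1 e.2.2))
    (by
      intro k
      have h1 := hg.load k a
      have h2 : (univ.filter fun e : {e : V × V // InB π a e.2 ∧ Ch (π e.1) (π e.2)} =>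
          c e.1.1 e.1.2 = k).card ≤ load c π k a := by
        refine Finset.card_le_card_of_injOn (fun e => e.1) ?_ ?_
        · intro e he
          have he' : c e.1.1 e.1.2 = k := by simpa using he
          simpa [load] using ⟨e.2.1, e.2.2, he'⟩
        · intro e1 _ e2 _ h
          exact Subtype.ext h
      omega)
    hF
    (by
      intro x
      by_cases hx : InB π a x
      · have : (univ.filter fun e : {e : V × V // InB π a e.2 ∧ Ch (π e.1) (π e.2)} =>
            e.1.1 = x ∧ (F (c e.1.1 e.1.2)).Nonempty) = ∅ := by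
          rw [Finset.filter_eq_empty_iff]
          rintro e - ⟨h1, -⟩
          exact hout e.2.1 e.2.2 (h1 ▸ hx)
        rw [this]
        simp
      · refine le_trans (Finset.card_le_card_of_injOn (fun e => e.1.2) ?_ ?_) (hg.hit a x hx)
        · intro e he
          have he' : e.1.1 = x ∧ (F (c e.1.1 e.1.2)).Nonempty := by simpa using he
          obtain ⟨h1, n, hn⟩ := he'
          simp only [F, mem_image, mem_filter, mem_univ, true_and, Prod.exists] at hn
          obtain ⟨z, w, ⟨g1, g2, g3, g4⟩, -⟩ := hn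
          rw [h1] at g4
          simp only [coe_filter, mem_univ, true_and, Set.mem_ofPred_eq]
          exact ⟨e.2.1, z, w, g1, g2, g3, g4.symm⟩
        · intro e1 h1 e2 h2 h
          have h1' : e1.1.1 = x := by
            have := h1
            simp only [coe_filter, mem_univ, true_and, Set.mem_ofPred_eq] at this
            exact this.1
          have h2' : e2.1.1 = x := by
            have := h2
            simp only [coe_filter, mem_univ, true_and, Set.mem_ofPred_eq] at this
            exact this.1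
          exact Subtype.ext (Prod.ext (h1'.trans h2'.symm) h))
    (by omega)
  let φ : V → V → Fin (σ a) := fun x y =>
    if h : InB π a y ∧ Ch (π x) (π y) then ⟨f ⟨(x, y), h⟩, f1 _⟩ else z0
  have hφ : ∀ (x y : V) (h : InB π a y ∧ Ch (π x) (π y)), (φ x y).val = f ⟨(x, y), h⟩ := by
    intro x y h
    simp only [φ, dif_pos h]
  refine ⟨κ, φ, hκs, ?_, ?_, ?_, ?_, ?_⟩
  · intro t x y hx hy
    have h := (k2 t).preconnected ⟨x, hx⟩ ⟨y, hy⟩
    rw [SimpleGraph.reachable_iff_reflTransGen] at h
    have key : ∀ u v : {x : V // InB π a x}, Relation.ReflTransGen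
        (SimpleGraph.fromRel fun x y : {x : V // InB π a x} => κ₀ x y = t).Adj u v →
        Relation.ReflTransGen (fun u v : V => u ≠ v ∧ InB π a u ∧ InB π a v ∧ κ u v = t)
          u.1 v.1 := by
      intro u v huv
      induction huv with
      | refl => exact Relation.ReflTransGen.refl
      | @tail u v _ huv ih =>
        refine ih.tail ?_
        rw [SimpleGraph.fromRel_adj] at huv
        refine ⟨fun g => huv.1 (Subtype.ext g), u.2, v.2, ?_⟩
        rw [hκin u.1 v.1 u.2 v.2]
        rcases huv.2 with g | g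
        · exact g
        · rw [k1]; exact g
    exact key _ _ h
  · intro t x hx
    have himg : ((univ.filter fun e' : {e : V × V // InB π a e.2 ∧ Ch (π e.1) (π e.2)} =>
        e'.1.1 = x).image f) = Finset.range (σ a) := by
      apply Finset.eq_of_subset_of_card_le
      · intro n hn
        rw [mem_image] at hn
        obtain ⟨e, -, rfl⟩ := hn
        exact Finset.mem_range.2 (f1 e)
      · rw [Finset.card_range, Finset.card_image_of_injOn, hdeg x hx]
        intro e1 h1 e2 h2 h
        simp only [coe_filter, mem_univ, true_and, Set.mem_ofPred_eq] at h1 h2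
        exact f3 e1 e2 (h1.trans h2.symm) h
    have ht : t.val ∈ ((univ.filter fun e' : {e : V × V // InB π a e.2 ∧ Ch (π e.1) (π e.2)} =>
        e'.1.1 = x).image f) := by
      rw [himg]
      exact Finset.mem_range.2 t.isLt
    rw [mem_image] at ht
    obtain ⟨e, he, hft⟩ := ht
    simp only [mem_filter, mem_univ, true_and] at he
    subst he
    refine ⟨e.1.2, e.2.1, e.2.2, ?_⟩
    apply Fin.ext
    rw [hφ e.1.1 e.1.2 e.2, ← hft]
  · intro x y z w hx hy hz hw hxy hzw h hk
    rw [hκin x y hx hy, hκin z w hz hw] at hk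
    have := k3 ⟨x, hx⟩ ⟨y, hy⟩ ⟨z, hz⟩ ⟨w, hw⟩ (fun g => hxy (congrArg Subtype.val g))
      (fun g => hzw (congrArg Subtype.val g)) h hk
    rw [Sym2.eq_iff] at this ⊢
    rcases this with ⟨g1, g2⟩ | ⟨g1, g2⟩
    · exact Or.inl ⟨congrArg Subtype.val g1, congrArg Subtype.val g2⟩
    · exact Or.inr ⟨congrArg Subtype.val g1, congrArg Subtype.val g2⟩
  · intro x y z w hy hch hz hw hzw h hk
    have h2 := f2 ⟨(x, y), hy, hch⟩
    apply h2
    simp only [F, mem_image, mem_filter, mem_univ, true_and, Prod.exists]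
    refine ⟨z, w, ⟨hzw, hz, hw, h.symm⟩, ?_⟩
    rw [← hk]
    exact hφ x y ⟨hy, hch⟩
  · intro x y z w hy hch hw hch' h hk
    have h4 := f4 ⟨(x, y), hy, hch⟩ ⟨(z, w), hw, hch'⟩ h (by
      rw [← hφ x y ⟨hy, hch⟩, ← hφ z w ⟨hw, hch'⟩, hk])
    have := congrArg Subtype.val h4
    exact ⟨congrArg Prod.fst this, congrArg Prod.snd this⟩

end Pool.Agent.helper7.RT
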