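import Mathlib

/-!
# RT-Cnt: counting bijections with prescribed values

All counts of bijections are `Set.ncard` of sets of equivalences (independent of `Fintype` and
`DecidableEq` instances; `Set.ncard_eq_toFinset_card'`, `Nat.card_congr`, `Nat.card_eq_fintype_card`,
`Fintype.card_equiv` lead to finite cardinalities).
* `card_ext`: `f : Fin k ↪ V`, `g : Fin k ↪ P`, `V` and `P` of the same size `N`: exactly `(N - k)!`
  bijections `π : V ≃ P` satisfy `π (f i) = g i` for all `i`.  Proof by induction on `k`, or: the set of these
  `π` is in bijection with the equivalences of the complements of the ranges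
  (`Equiv.Set.sumCompl`, `Equiv.sumCongr`; `Fintype.card_equiv`), or by symmetry: for fixed `f` the number
  does not depend on `g` (compose with a permutation of `P` that extends `g' ∘ g⁻¹`,
  `Equiv.extendSubtype`), every `π` belongs to exactly one `g = π ∘ f`, and there are
  `N.descFactorial k` embeddings `g`; `Nat.factorial_mul_descFactorial`.
* `card_all`: all bijections.
* `card_mem`: let `k = S.card`, enumerate `S` by `f : Fin k ↪ V` (`Finset.equivFin`).  The bijections with
  `π x ∈ A` for all `x ∈ S` are the disjoint union over the embeddings `g : Fin k ↪ A` (there are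
  `A.card.descFactorial k`) of the sets of `card_ext`; so their number is
  `A.card.descFactorial k * (N - k)!`, at most `N! * (A.card / N) ^ k`, because
  `N! = N.descFactorial k * (N - k)!` and `(m - i) / (N - i) ≤ m / N` for `m ≤ N`, i.e.
  `m.descFactorial k * N ^ k ≤ m ^ k * N.descFactorial k` (induction on `k`; for `k > m` the left side is 0).
-/

set_option autoImplicit false

open Finset
open scoped Classical

namespace Pool.Agent.helper7.RT

theorem card_all {V P : Type} [Fintype V] [Fintype P] (h : Fintype.card V = Fintype.card P) :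
    Nat.card (V ≃ P) = (Fintype.card V).factorial := by
  rw [Nat.card_eq_fintype_card]
  exact Fintype.card_equiv (Fintype.equivOfCardEq h)

theorem card_ext {V P : Type} [Fintype V] [Fintype P] (h : Fintype.card V = Fintype.card P) {k : ℕ}
    (f : Fin k ↪ V) (g : Fin k ↪ P) :
    {π : V ≃ P | ∀ i, π (f i) = g i}.ncard = (Fintype.card V - k).factorial := by
  have hk : k ≤ Fintype.card V := by
    have := Fintype.card_le_of_embedding f
    rwa [Fintype.card_fin] at this
  -- all the fibres have the same size
  let F : (Fin k ↪ P) → Finset (V ≃ P) := fun g' => univ.filter fun π => ∀ i, π (f i) = g' i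
  have hF : ∀ g', (F g').card = (F g).card := by
    intro g'
    obtain ⟨σ, hσ⟩ := Equiv.Perm.exists_extending_pair g' g g'.injective g.injective
    refine Finset.card_bij (fun π _ => π.trans σ) ?_ ?_ ?_
    · intro π hπ
      rw [Finset.mem_filter] at hπ ⊢
      refine ⟨Finset.mem_univ _, fun i => ?_⟩
      rw [Equiv.trans_apply, hπ.2 i]
      exact hσ i
    · intro π _ π' _ h
      ext x
      have h1 := congrArg (fun e : V ≃ P => σ.symm (e x)) h
      simpa using h1
    · intro π hπ
      rw [Finset.mem_filter] at hπ
      refine ⟨π.trans σ.symm, ?_, ?_⟩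
      · rw [Finset.mem_filter]
        refine ⟨Finset.mem_univ _, fun i => ?_⟩
        rw [Equiv.trans_apply, hπ.2 i, ← hσ i, Equiv.symm_apply_apply]
      · ext x
        simp
  have hsum : (univ : Finset (V ≃ P)).card = ∑ g' : Fin k ↪ P, (F g').card := by
    rw [Finset.card_eq_sum_card_fiberwise (f := fun π : V ≃ P => f.trans π.toEmbedding)
      (t := univ) (fun _ _ => Finset.mem_coe.2 (Finset.mem_univ _))]
    refine Finset.sum_congr rfl fun g' _ => ?_
    congr 1
    ext π
    rw [Finset.mem_filter, Finset.mem_filter]
    refine and_congr Iff.rfl ⟨fun h i => ?_, fun h => ?_⟩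
    · rw [← h]
      rfl
    · ext i
      exact h i
  have hcard : (univ : Finset (V ≃ P)).card = (Fintype.card V).factorial := by
    rw [Finset.card_univ]
    exact Fintype.card_equiv (Fintype.equivOfCardEq h)
  have hemb : Fintype.card (Fin k ↪ P) = (Fintype.card V).descFactorial k := by
    rw [Fintype.card_embedding_eq, Fintype.card_fin, h]
  simp_rw [hF] at hsum
  rw [hcard, Finset.sum_const, Finset.card_univ, smul_eq_mul, hemb,
    ← Nat.factorial_mul_descFactorial hk, mul_comm] at hsum
  have hpos : 0 < (Fintype.card V).descFactorial k := Nat.descFactorial_pos.2 hk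
  have h2 := Nat.eq_of_mul_eq_mul_left hpos hsum
  have h3 : {π : V ≃ P | ∀ i, π (f i) = g i} = ((F g : Finset (V ≃ P)) : Set (V ≃ P)) := by
    ext π
    simp [F]
  rw [h3, Set.ncard_coe_finset, ← h2]

theorem desc_le (m N k : ℕ) (h : m ≤ N) :
    m.descFactorial k * N ^ k ≤ m ^ k * N.descFactorial k := by
  induction k with
  | zero => simp
  | succ k ih =>
    rw [Nat.descFactorial_succ, Nat.descFactorial_succ, pow_succ, pow_succ]
    have h1 : (m - k) * N ≤ m * (N - k) := by
      rcases Nat.lt_or_ge m k with hk | hk
      · rw [Nat.sub_eq_zero_of_le hk.le, zero_mul]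
        exact Nat.zero_le _
      · obtain ⟨a, rfl⟩ := Nat.exists_eq_add_of_le hk
        obtain ⟨b, rfl⟩ := Nat.exists_eq_add_of_le h
        rw [Nat.add_sub_cancel_left, add_assoc, Nat.add_sub_cancel_left]
        nlinarith [Nat.zero_le (k * b)]
    calc (m - k) * m.descFactorial k * (N ^ k * N)
        = (m - k) * N * (m.descFactorial k * N ^ k) := by ring
      _ ≤ m * (N - k) * (m ^ k * N.descFactorial k) := Nat.mul_le_mul h1 ih
      _ = m ^ k * m * ((N - k) * N.descFactorial k) := by ring

theorem card_mem {V P : Type} [Fintype V] [Fintype P] (h : Fintype.card V = Fintype.card P)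
    (S : Finset V) (A : Finset P) :
    ({π : V ≃ P | ∀ x ∈ S, π x ∈ A}.ncard : ℝ) ≤
      (Fintype.card V).factorial * ((A.card : ℝ) / Fintype.card V) ^ S.card := by
  set k := S.card with hk
  set N := Fintype.card V with hN
  set m := A.card with hm
  let f : Fin k ↪ V := (S.equivFin.symm.toEmbedding).trans (Function.Embedding.subtype _)
  have hkN : k ≤ N := Finset.card_le_univ S
  have hmN : m ≤ N := by
    rw [h]
    exact Finset.card_le_univ A
  have hsub : {π : V ≃ P | ∀ x ∈ S, π x ∈ A} ⊆
      ((univ : Finset (Fin k ↪ A)).biUnion fun g => univ.filter fun π : V ≃ P =>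
        ∀ i, π (f i) = (g i : P) : Finset (V ≃ P)) := by
    intro π hπ
    rw [Finset.mem_coe, Finset.mem_biUnion]
    refine ⟨⟨fun i => ⟨π (f i), hπ _ (S.equivFin.symm i).2⟩, fun i j hij => ?_⟩,
      Finset.mem_univ _, ?_⟩
    · exact f.injective (π.injective (congrArg Subtype.val hij))
    · rw [Finset.mem_filter]
      exact ⟨Finset.mem_univ _, fun i => rfl⟩
  have h1 : {π : V ≃ P | ∀ x ∈ S, π x ∈ A}.ncard ≤ m.descFactorial k * (N - k).factorial := by
    refine (Set.ncard_le_ncard hsub (Finset.finite_toSet _)).trans ?_
    rw [Set.ncard_coe_finset]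
    refine Finset.card_biUnion_le.trans ?_
    have h2 : ∀ g : Fin k ↪ A, (univ.filter fun π : V ≃ P =>
        ∀ i, π (f i) = (g i : P)).card = (N - k).factorial := by
      intro g
      have h3 := card_ext h f (g.trans (Function.Embedding.subtype _))
      have h4 : {π : V ≃ P | ∀ i, π (f i) = (g.trans (Function.Embedding.subtype _)) i} =
          ((univ.filter fun π : V ≃ P => ∀ i, π (f i) = (g i : P) : Finset (V ≃ P)) :
            Set (V ≃ P)) := by
        ext π
        simp
      rw [h4, Set.ncard_coe_finset] at h3
      exact h3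
    rw [Finset.sum_congr rfl fun g _ => h2 g, Finset.sum_const, Finset.card_univ,
      Fintype.card_embedding_eq, Fintype.card_fin, Fintype.card_coe, smul_eq_mul]
  have h5 := desc_le m N k hmN
  have h6 : m.descFactorial k * (N - k).factorial * N ^ k ≤ N.factorial * m ^ k := by
    rw [← Nat.factorial_mul_descFactorial hkN]
    calc m.descFactorial k * (N - k).factorial * N ^ k
        = (N - k).factorial * (m.descFactorial k * N ^ k) := by ring
      _ ≤ (N - k).factorial * (m ^ k * N.descFactorial k) := Nat.mul_le_mul_left _ h5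
      _ = _ := by ring
  have h7 : ({π : V ≃ P | ∀ x ∈ S, π x ∈ A}.ncard : ℝ) ≤
      ((m.descFactorial k * (N - k).factorial : ℕ) : ℝ) := by exact_mod_cast h1
  refine h7.trans ?_
  rcases Nat.eq_zero_or_pos N with h0 | h0
  · have hk0 : k = 0 := by omega
    rw [hk0, h0]
    simp
  · have h8 : (0 : ℝ) < (N : ℝ) ^ k := by positivity
    rw [div_pow, ← mul_div_assoc, le_div_iff₀ h8]
    exact_mod_cast h6

end Pool.Agent.helper7.RT
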