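import Mathlib

/-!
# RT: decompositions of properly coloured complete graphs into rainbow spanning trees (MP_387ec7_co)

PLAN.  Let `c` be a proper edge colouring of the complete graph on a set `V` of `2n` vertices, all of
whose classes have at most `(1 - δ) n` edges.  Write `n = ∑ σ a` with `s ≤ σ a ≤ 2 s`.  A random
bijection `π` from `V` to the set `Pos σ` of positions splits `V` into blocks `B a` of `2 σ a` vertices,
each vertex has a type (`Bool`).  Block `a` carries `σ a` of the `n` trees: each of them is a spanning
tree of `B a` (the core, a double star) together with one edge from every vertex `x` outside `B a` to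
`B a` (`x` is the child).  `Ch p r` says that the edge between the positions `p` and `r` belongs to
the block of `r`, with `p` the child.  Every `x` outside of `B a` has exactly `σ a` such edges to `B a`,
they are distributed to the `σ a` trees by a list colouring theorem for bipartite multigraphs (Galvin).
-/

set_option autoImplicit false

open Finset
open scoped Classical

namespace Pool.Agent.helper7.RT

/-- A proper colouring of the edges of the complete graph on `V`, given as a symmetric function. -/
structure PC {V C : Type} (c : V → V → C) : Prop where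
  symm : ∀ x y, c x y = c y x
  ne : ∀ x y z, x ≠ y → x ≠ z → y ≠ z → c x y ≠ c x z

/-- The positions: block, pair inside the block, type. -/
abbrev Pos {q : ℕ} (σ : Fin q → ℕ) : Type := (a : Fin q) × (Fin (σ a) × Bool)

/-- The edge between the positions `p`, `r` of different blocks belongs to the block of `r`
(`p` is the child). -/
def Ch {q : ℕ} {σ : Fin q → ℕ} (p r : Pos σ) : Prop :=
  p.1 ≠ r.1 ∧ (r.1 < p.1 → p.2.2 = r.2.2) ∧ (p.1 < r.1 → p.2.2 ≠ r.2.2)

/-- Two disjoint edges of the same colour. -/
def Quad {V C : Type} (c : V → V → C) (x y z w : V) : Prop :=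
  x ≠ y ∧ x ≠ z ∧ x ≠ w ∧ y ≠ z ∧ y ≠ w ∧ z ≠ w ∧ c x y = c z w

variable {V C : Type} {q : ℕ} {σ : Fin q → ℕ}

/-- `x` is in the block `a`. -/
def InB (π : V ≃ Pos σ) (a : Fin q) (x : V) : Prop := (π x).1 = a

/-- The number of edges of colour `k` which belong to block `a`. -/
noncomputable def load [Fintype V] (c : V → V → C) (π : V ≃ Pos σ) (k : C) (a : Fin q) : ℕ :=
  (univ.filter fun e : V × V => InB π a e.2 ∧ Ch (π e.1) (π e.2) ∧ c e.1 e.2 = k).card

/-- Block `a` contains at most one set of four vertices on which two disjoint edges have the same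
colour. -/
def QuadOK (c : V → V → C) (π : V ≃ Pos σ) (a : Fin q) : Prop :=
  ∀ x y z w x' y' z' w' : V, Quad c x y z w → Quad c x' y' z' w' →
    InB π a x → InB π a y → InB π a z → InB π a w →
    InB π a x' → InB π a y' → InB π a z' → InB π a w' →
    w' = x ∨ w' = y ∨ w' = z ∨ w' = w

/-- If `x` is not in block `a` then at most six edges from `x` to the block have a colour which
occurs inside the block. -/
def HitOK [Fintype V] (c : V → V → C) (π : V ≃ Pos σ) (a : Fin q) (x : V) : Prop :=
  ¬ InB π a x → (univ.filter fun y : V => InB π a y ∧
    ∃ z w : V, z ≠ w ∧ InB π a z ∧ InB π a w ∧ c x y = c z w).card ≤ 6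

/-- The good bijections. -/
structure Good [Fintype V] (c : V → V → C) (π : V ≃ Pos σ) : Prop where
  load : ∀ (k : C) (a : Fin q), load c π k a + 8 ≤ σ a
  quad : ∀ a : Fin q, QuadOK c π a
  hit : ∀ (a : Fin q) (x : V), HitOK c π a x

end Pool.Agent.helper7.RT
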