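import Pool.Agent.helper7.RT.PQuad

/-!
# RT-PHit: few bijections violate `HitOK`

Let `N = |V|`, `b = 2 σ a`, `x` fixed.
* `hit_witness`: suppose `¬ InB π a x` and more than six `y` in the block have a witness `z ≠ w` in the
  block with `c x y = c z w`.  Choose `y₁` with witness `z₁ w₁`, then `y₂ ∉ {y₁, z₁, w₁}` with witness
  `z₂ w₂` (more than three candidates), then `y₃ ∉ {y₁, z₁, w₁, y₂, z₂, w₂}` (more than six candidates).
  `R x z w y` means `z ≠ w`, `y ≠ x`, `y ≠ z`, `y ≠ w`, `c x y = c z w`.  In all cases `y ≠ x` because `x` is not in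
  the block, and `y ≠ z` since otherwise `c y x = c x y = c z w = c y w` with `x ≠ w` (`w` is in the block) and
  `x, w ≠ y`, against `PC.ne`; similarly `y ≠ w`.
* `hit_prob`: the number of bad `π` is at most the sum over the 9-tuples of `hit_witness` (with
  `R x z₁ w₁ y₁`, `R x z₂ w₂ y₂`, `y₂ ∉ S₁`, `R x z₃ w₃ y₃`, `y₃ ∉ S₂`, where
  `S₁ = insert y₁ (insert w₁ (insert z₁ ∅))`, `S₂ = insert y₂ (insert w₂ (insert z₂ S₁))`) of the number of
  `π` with all nine vertices in the block, which is at most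
  `N! * Wt b (insert y₃ (insert w₃ (insert z₃ S₂)))` (`inB_prob`).  Sum over `z₃ w₃ y₃` by `Wt_two` (`|S₂| ≤ 6`:
  factor `(b / N) * (b + 7) ^ 2`), then over `z₂ w₂ y₂` (`|S₁| ≤ 3`: `(b / N) * (b + 4) ^ 2`), then over
  `z₁ w₁ y₁` (`(b / N) * (b + 1) ^ 2`).  `y` is unique for given `x z w` by `PC.ne`.
-/

set_option autoImplicit false

open Finset
open scoped Classical

namespace Pool.Agent.helper7.RT

variable {V C : Type} {q : ℕ} {σ : Fin q → ℕ}

/-- the edge from `x` to `y` has the colour of the edge `z w` -/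
def Rel (c : V → V → C) (x z w y : V) : Prop :=
  z ≠ w ∧ y ≠ x ∧ y ≠ z ∧ y ≠ w ∧ c x y = c z w

theorem Rel_unique {c : V → V → C} (hc : PC c) {x z w y y' : V} (h : Rel c x z w y)
    (h' : Rel c x z w y') : y = y' := by
  by_contra hne
  exact hc.ne x y y' (Ne.symm h.2.1) (Ne.symm h'.2.1) hne (h.2.2.2.2.trans h'.2.2.2.2.symm)

private theorem PHit_rel {c : V → V → C} (hc : PC c) (π : V ≃ Pos σ) (a : Fin q) {x z w y : V}
    (hx : ¬ InB π a x) (hy : InB π a y) (hzw : z ≠ w) (hz : InB π a z) (hw : InB π a w)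
    (h : c x y = c z w) : Rel c x z w y := by
  have hne : ∀ u, InB π a u → u ≠ x := by
    rintro u hu rfl
    exact hx hu
  refine ⟨hzw, hne y hy, ?_, ?_, h⟩
  · rintro rfl
    rw [hc.symm x y] at h
    exact hc.ne y x w (hne y hy) hzw (Ne.symm (hne w hw)) h
  · rintro rfl
    rw [hc.symm x y, hc.symm z y] at h
    exact hc.ne y x z (hne y hy) (Ne.symm hzw) (Ne.symm (hne z hz)) h

theorem hit_witness [Fintype V] {c : V → V → C} (hc : PC c) (π : V ≃ Pos σ) (a : Fin q) (x : V)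
    (h : ¬ HitOK c π a x) :
    ∃ z₁ w₁ y₁ z₂ w₂ y₂ z₃ w₃ y₃ : V, Rel c x z₁ w₁ y₁ ∧ Rel c x z₂ w₂ y₂ ∧ Rel c x z₃ w₃ y₃ ∧
      y₂ ∉ insert y₁ (insert w₁ (insert z₁ (∅ : Finset V))) ∧
      y₃ ∉ insert y₂ (insert w₂ (insert z₂ (insert y₁ (insert w₁ (insert z₁ (∅ : Finset V)))))) ∧
      ∀ u ∈ insert y₃ (insert w₃ (insert z₃ (insert y₂ (insert w₂ (insert z₂
        (insert y₁ (insert w₁ (insert z₁ (∅ : Finset V)))))))))
        , InB π a u := by
  unfold HitOK at h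
  push Not at h
  obtain ⟨hx, hcard⟩ := h
  set Y := univ.filter fun y : V => InB π a y ∧
    ∃ z w : V, z ≠ w ∧ InB π a z ∧ InB π a w ∧ c x y = c z w with hY
  have hmem : ∀ y ∈ Y, InB π a y ∧ ∃ z w : V, Rel c x z w y ∧ InB π a z ∧ InB π a w := by
    intro y hy
    rw [hY, mem_filter] at hy
    obtain ⟨-, hy1, z, w, hzw, hz, hw, he⟩ := hy
    exact ⟨hy1, z, w, PHit_rel hc π a hx hy1 hzw hz hw he, hz, hw⟩
  obtain ⟨y₁, hy₁⟩ : Y.Nonempty := Finset.card_pos.1 (by omega)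
  obtain ⟨b₁, z₁, w₁, r₁, c₁, d₁⟩ := hmem y₁ hy₁
  have hS₁ : (insert y₁ (insert w₁ (insert z₁ (∅ : Finset V)))).card ≤ 3 := by
    have h1 := card_insert_le y₁ (insert w₁ (insert z₁ (∅ : Finset V)))
    have h2 := card_insert_le w₁ (insert z₁ (∅ : Finset V))
    have h3 := card_insert_le z₁ (∅ : Finset V)
    rw [card_empty] at h3
    omega
  obtain ⟨y₂, hy₂, hn₂⟩ := exists_mem_notMem_of_card_lt_card
    (show (insert y₁ (insert w₁ (insert z₁ (∅ : Finset V)))).card < Y.card by omega)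
  obtain ⟨b₂, z₂, w₂, r₂, c₂, d₂⟩ := hmem y₂ hy₂
  have hS₂ : (insert y₂ (insert w₂ (insert z₂
      (insert y₁ (insert w₁ (insert z₁ (∅ : Finset V))))))).card ≤ 6 := by
    have h1 := card_insert_le y₂ (insert w₂ (insert z₂
      (insert y₁ (insert w₁ (insert z₁ (∅ : Finset V))))))
    have h2 := card_insert_le w₂ (insert z₂ (insert y₁ (insert w₁ (insert z₁ (∅ : Finset V)))))
    have h3 := card_insert_le z₂ (insert y₁ (insert w₁ (insert z₁ (∅ : Finset V))))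
    omega
  obtain ⟨y₃, hy₃, hn₃⟩ := exists_mem_notMem_of_card_lt_card
    (show (insert y₂ (insert w₂ (insert z₂
      (insert y₁ (insert w₁ (insert z₁ (∅ : Finset V))))))).card < Y.card by omega)
  obtain ⟨b₃, z₃, w₃, r₃, c₃, d₃⟩ := hmem y₃ hy₃
  refine ⟨z₁, w₁, y₁, z₂, w₂, y₂, z₃, w₃, y₃, r₁, r₂, r₃, hn₂, hn₃, ?_⟩
  intro u hu
  simp only [mem_insert, notMem_empty, or_false] at hu
  rcases hu with rfl | rfl | rfl | rfl | rfl | rfl | rfl | rfl | rfl <;> assumption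

/-- the bijections for which three more vertices can be found -/
private def PHit_ext (c : V → V → C) (x : V) (A : Finset V → Set (V ≃ Pos σ)) (S : Finset V) :
    Set (V ≃ Pos σ) :=
  {π | ∃ z w y, (Rel c x z w y ∧ y ∉ S) ∧ π ∈ A (insert y (insert w (insert z S)))}

private theorem PHit_step [Fintype V] {c : V → V → C} (hc : PC c) (hN : 0 < Fintype.card V)
    {b : ℝ} (hb : 0 ≤ b) (x : V) (A : Finset V → Set (V ≃ Pos σ)) {k : ℝ} (hk : 0 ≤ k) (m : ℕ)
    (hA : ∀ S : Finset V, S.card ≤ m + 3 → ((A S).ncard : ℝ) ≤ k * Wt b S) (S : Finset V)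
    (hS : S.card ≤ m) :
    ((PHit_ext c x A S).ncard : ℝ) ≤ k * (b / Fintype.card V * (m + 1 + b) ^ 2) * Wt b S := by
  have h1 : PHit_ext c x A S ⊆ ⋃ t : V × V × V,
      {π | (Rel c x t.1 t.2.1 t.2.2 ∧ t.2.2 ∉ S) ∧
        π ∈ A (insert t.2.2 (insert t.2.1 (insert t.1 S)))} := by
    rintro π ⟨z, w, y, h, hπ⟩
    exact Set.mem_iUnion.2 ⟨(z, w, y), h, hπ⟩
  have h2 : (PHit_ext c x A S).ncard ≤ ∑ t : V × V × V,
      ({π | (Rel c x t.1 t.2.1 t.2.2 ∧ t.2.2 ∉ S) ∧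
        π ∈ A (insert t.2.2 (insert t.2.1 (insert t.1 S)))} : Set (V ≃ Pos σ)).ncard :=
    (Set.ncard_le_ncard h1 (Set.toFinite _)).trans (Set.ncard_iUnion_le_of_fintype _)
  have h3 : ∀ t : V × V × V, (({π | (Rel c x t.1 t.2.1 t.2.2 ∧ t.2.2 ∉ S) ∧
        π ∈ A (insert t.2.2 (insert t.2.1 (insert t.1 S)))} : Set (V ≃ Pos σ)).ncard : ℝ) ≤
      k * (if Rel c x t.1 t.2.1 t.2.2 ∧ t.2.2 ∉ S then
        Wt b (insert t.2.2 (insert t.2.1 (insert t.1 S))) else 0) := by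
    rintro ⟨z, w, y⟩
    simp only
    split_ifs with h
    · have h4 : ({π | (Rel c x z w y ∧ y ∉ S) ∧ π ∈ A (insert y (insert w (insert z S)))} :
          Set (V ≃ Pos σ)) = A (insert y (insert w (insert z S))) := by
        ext π
        exact ⟨fun h => h.2, fun h' => ⟨h, h'⟩⟩
      rw [h4]
      refine hA _ ?_
      have h5 := card_insert_le y (insert w (insert z S))
      have h6 := card_insert_le w (insert z S)
      have h7 := card_insert_le z S
      omega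
    · have h4 : ({π | (Rel c x z w y ∧ y ∉ S) ∧ π ∈ A (insert y (insert w (insert z S)))} :
          Set (V ≃ Pos σ)) = ∅ := by
        ext π
        exact ⟨fun h' => h h'.1, fun h' => h'.elim⟩
      rw [h4, Set.ncard_empty, mul_zero]
      exact le_of_eq Nat.cast_zero
  have h4 := Wt_two hb hN S (fun z w y => Rel c x z w y ∧ y ∉ S)
    (fun z w y y' h h' => Rel_unique hc h.1 h'.1) (fun z w y h => by
      rw [mem_insert, mem_insert, not_or, not_or]
      exact ⟨h.1.2.2.2.1, h.1.2.2.1, h.2⟩)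
  calc ((PHit_ext c x A S).ncard : ℝ) ≤ ∑ t : V × V × V,
      (({π | (Rel c x t.1 t.2.1 t.2.2 ∧ t.2.2 ∉ S) ∧
        π ∈ A (insert t.2.2 (insert t.2.1 (insert t.1 S)))} : Set (V ≃ Pos σ)).ncard : ℝ) := by
        exact_mod_cast h2
    _ ≤ ∑ t : V × V × V, k * (if Rel c x t.1 t.2.1 t.2.2 ∧ t.2.2 ∉ S then
        Wt b (insert t.2.2 (insert t.2.1 (insert t.1 S))) else 0) := sum_le_sum fun t _ => h3 t
    _ = k * ∑ z : V, ∑ w : V, ∑ y : V, (if Rel c x z w y ∧ y ∉ S then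
        Wt b (insert y (insert w (insert z S))) else 0) := by
        rw [← mul_sum, Fintype.sum_prod_type]
        simp only [Fintype.sum_prod_type]
    _ ≤ k * (b / Fintype.card V * (S.card + 1 + b) ^ 2 * Wt b S) := by
        refine mul_le_mul_of_nonneg_left (le_trans (le_of_eq ?_) h4) hk
        refine sum_congr rfl fun z _ => sum_congr rfl fun w _ => sum_congr rfl fun y _ => ?_
        congr 1
    _ ≤ k * (b / Fintype.card V * (m + 1 + b) ^ 2 * Wt b S) := by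
        have h5 : (S.card : ℝ) ≤ m := by exact_mod_cast hS
        have h6 := Wt_nonneg hb S
        gcongr
    _ = k * (b / Fintype.card V * (m + 1 + b) ^ 2) * Wt b S := by ring

theorem hit_prob [Fintype V] {c : V → V → C} (hc : PC c)
    (hV : Fintype.card V = Fintype.card (Pos σ)) (hN : 0 < Fintype.card V) (a : Fin q) (x : V) :
    ({π : V ≃ Pos σ | ¬ HitOK c π a x}.ncard : ℝ) ≤
      (Fintype.card V).factorial *
        (((2 * σ a : ℝ) / Fintype.card V) ^ 3 * (2 * σ a + 7) ^ 6) := by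
  set b : ℝ := 2 * σ a with hb'
  have hb : 0 ≤ b := by positivity
  set N : ℝ := (Fintype.card V : ℝ) with hN'
  have hN0 : 0 < N := by
    rw [hN']
    exact_mod_cast hN
  set k : ℝ := ((Fintype.card V).factorial : ℝ) with hk'
  have hk : 0 ≤ k := by positivity
  have h0 : ∀ S : Finset V, S.card ≤ 6 + 3 →
      (({π : V ≃ Pos σ | ∀ u ∈ S, InB π a u} : Set (V ≃ Pos σ)).ncard : ℝ) ≤ k * Wt b S :=
    fun S _ => inB_prob hV a S
  have h1 := PHit_step hc hN hb x _ hk 6 h0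
  have h2 := PHit_step hc hN hb x _ (by positivity) 3 h1
  have h3 := PHit_step hc hN hb x _ (by positivity) 0 h2 ∅ (by simp)
  have hsub : ({π : V ≃ Pos σ | ¬ HitOK c π a x} : Set (V ≃ Pos σ)) ⊆
      PHit_ext c x (PHit_ext c x (PHit_ext c x fun S => {π | ∀ u ∈ S, InB π a u})) ∅ := by
    intro π hπ
    obtain ⟨z₁, w₁, y₁, z₂, w₂, y₂, z₃, w₃, y₃, r₁, r₂, r₃, n₂, n₃, hall⟩ :=
      hit_witness hc π a x hπ
    exact ⟨z₁, w₁, y₁, ⟨r₁, notMem_empty _⟩, z₂, w₂, y₂, ⟨r₂, n₂⟩, z₃, w₃, y₃, ⟨r₃, n₃⟩, hall⟩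
  have h4 : (({π : V ≃ Pos σ | ¬ HitOK c π a x} : Set (V ≃ Pos σ)).ncard : ℝ) ≤
      (PHit_ext c x (PHit_ext c x (PHit_ext c x fun S =>
        ({π | ∀ u ∈ S, InB π a u} : Set (V ≃ Pos σ)))) ∅).ncard := by
    exact_mod_cast Set.ncard_le_ncard hsub (Set.toFinite _)
  have h5 : Wt b (∅ : Finset V) = 1 := by simp [Wt]
  refine (h4.trans h3).trans ?_
  rw [h5, mul_one]
  have h6 : k * (b / N * ((6 : ℕ) + 1 + b) ^ 2) * (b / N * ((3 : ℕ) + 1 + b) ^ 2) *
      (b / N * ((0 : ℕ) + 1 + b) ^ 2) ≤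
      k * (b / N * (b + 7) ^ 2) * (b / N * (b + 7) ^ 2) * (b / N * (b + 7) ^ 2) := by
    push_cast
    gcongr ?_ * (_ * ?_ ^ 2) * (_ * ?_ ^ 2) * (_ * ?_ ^ 2)
    all_goals linarith
  refine h6.trans (le_of_eq ?_)
  ring

end Pool.Agent.helper7.RT
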