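import Pool.Agent.helper7.RT.Tail
import Pool.Agent.helper7.RT.PHit

/-!
# RT-Exist: there is a good bijection

PROOF.  Let `N = |V| = 2 * ∑ σ a` (`card_pos`).  There are `N!` bijections (`card_all`).  If none
is good then each one violates one of the conditions `load c π k a + 8 ≤ σ a` (at most `|C| * q` of them, each
with at most `N! * exp (- δ ^ 2 * s / 32)` bijections, `load_tail`, `s ≤ σ a`), `QuadOK c π a` (`q` of them,
`quad_prob`), `HitOK c π a x` (`q * N` of them, `hit_prob`).  With `b = 2 σ a ≤ 4 s`, `2 s q ≤ N`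
(`∑ σ a ≥ q s`), `4 s + 7 ≤ 11 s`:
`|C| q exp ≤ N ^ 3 exp ≤ 1 / 2`;
`q (b / N) ^ 2 (b + 6) ^ 6 ≤ (N / (2 s)) * (16 s ^ 2 / N ^ 2) * (11 s) ^ 6 = 8 * 11 ^ 6 * s ^ 7 / N`;
`q N (b / N) ^ 3 (b + 7) ^ 6 ≤ (N / (2 s)) * N * (64 s ^ 3 / N ^ 3) * (11 s) ^ 6 = 32 * 11 ^ 6 * s ^ 8 / N`;
`11 ^ 6 = 1771561`, so the last two together are at most `40 * 1771561 * s ^ 8 / N < 2 / 5`
(`200000000 * s ^ 8 ≤ N`).  The sum of all is less than `1`, a contradiction.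
-/

set_option autoImplicit false

open Finset
open scoped Classical

namespace Pool.Agent.helper7.RT

variable {V C : Type} {q : ℕ} {σ : Fin q → ℕ}

/-- the numerical part -/
theorem exist_num (N s q : ℕ) (σ : Fin q → ℕ) (hs : ∀ a, s ≤ σ a ∧ σ a ≤ 2 * s) (hs1 : 1 ≤ s)
    (hN : N = 2 * ∑ a, σ a) (hN0 : 0 < N) (h8 : 200000000 * s ^ 8 ≤ N) :
    (∑ a, ((2 * σ a : ℝ) / N) ^ 2 * (2 * σ a + 6) ^ 6) +
      (∑ a, (N : ℝ) * (((2 * σ a : ℝ) / N) ^ 3 * (2 * σ a + 7) ^ 6)) < 1 / 2 := by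
  have hNr : (0 : ℝ) < N := by exact_mod_cast hN0
  have hs1r : (1 : ℝ) ≤ s := by exact_mod_cast hs1
  have hsum : ∑ a, (2 * (σ a : ℝ)) / N = 1 := by
    rw [← Finset.sum_div, ← Finset.mul_sum, div_eq_one_iff_eq hNr.ne', hN]
    push_cast
    ring
  have h8r : 200000000 * (s : ℝ) ^ 8 ≤ N := by exact_mod_cast h8
  have e1 : ∀ a, ((2 * σ a : ℝ) / N) ^ 2 * (2 * σ a + 6) ^ 6 ≤
      (4 * s / N * (11 * s) ^ 6) * ((2 * (σ a : ℝ)) / N) := by
    intro a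
    have h1 : (σ a : ℝ) ≤ 2 * s := by exact_mod_cast (hs a).2
    have h2 : (2 * σ a : ℝ) / N ≤ 4 * s / N := by
      apply div_le_div_of_nonneg_right _ hNr.le
      linarith
    have h3 : (2 * σ a + 6 : ℝ) ^ 6 ≤ (11 * s) ^ 6 := by
      apply pow_le_pow_left₀ (by positivity)
      linarith
    have h4 : (0 : ℝ) ≤ (2 * σ a : ℝ) / N := by positivity
    calc ((2 * σ a : ℝ) / N) ^ 2 * (2 * σ a + 6) ^ 6
        = ((2 * σ a : ℝ) / N * (2 * σ a + 6) ^ 6) * ((2 * σ a : ℝ) / N) := by ring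
      _ ≤ (4 * s / N * (11 * s) ^ 6) * ((2 * σ a : ℝ) / N) := by
          apply mul_le_mul_of_nonneg_right _ h4
          exact mul_le_mul h2 h3 (by positivity) (by positivity)
  have e2 : ∀ a, (N : ℝ) * (((2 * σ a : ℝ) / N) ^ 3 * (2 * σ a + 7) ^ 6) ≤
      (N * (4 * s / N) ^ 2 * (11 * s) ^ 6) * ((2 * (σ a : ℝ)) / N) := by
    intro a
    have h1 : (σ a : ℝ) ≤ 2 * s := by exact_mod_cast (hs a).2
    have h4 : (0 : ℝ) ≤ (2 * σ a : ℝ) / N := by positivity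
    have h2 : ((2 * σ a : ℝ) / N) ^ 2 ≤ (4 * s / N) ^ 2 := by
      apply pow_le_pow_left₀ h4
      apply div_le_div_of_nonneg_right _ hNr.le
      linarith
    have h3 : (2 * σ a + 7 : ℝ) ^ 6 ≤ (11 * s) ^ 6 := by
      apply pow_le_pow_left₀ (by positivity)
      linarith
    calc (N : ℝ) * (((2 * σ a : ℝ) / N) ^ 3 * (2 * σ a + 7) ^ 6)
        = (N * (((2 * σ a : ℝ) / N) ^ 2 * (2 * σ a + 7) ^ 6)) * ((2 * σ a : ℝ) / N) := by ring
      _ ≤ (N * ((4 * s / N) ^ 2 * (11 * s) ^ 6)) * ((2 * σ a : ℝ) / N) := by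
          apply mul_le_mul_of_nonneg_right _ h4
          apply mul_le_mul_of_nonneg_left _ hNr.le
          exact mul_le_mul h2 h3 (by positivity) (by positivity)
      _ = (N * (4 * s / N) ^ 2 * (11 * s) ^ 6) * ((2 * (σ a : ℝ)) / N) := by ring
  have f1 : ∑ a, ((2 * σ a : ℝ) / N) ^ 2 * (2 * σ a + 6) ^ 6 ≤
      4 * (s : ℝ) / N * (11 * s) ^ 6 := by
    refine (Finset.sum_le_sum fun a (_ : a ∈ univ) => e1 a).trans ?_
    rw [← Finset.mul_sum, hsum, mul_one]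
  have f2 : ∑ a, (N : ℝ) * (((2 * σ a : ℝ) / N) ^ 3 * (2 * σ a + 7) ^ 6) ≤
      (N : ℝ) * (4 * s / N) ^ 2 * (11 * s) ^ 6 := by
    refine (Finset.sum_le_sum fun a (_ : a ∈ univ) => e2 a).trans ?_
    rw [← Finset.mul_sum, hsum, mul_one]
  refine lt_of_le_of_lt (add_le_add f1 f2) ?_
  have h5 : 4 * (s : ℝ) / N * (11 * s) ^ 6 + N * (4 * s / N) ^ 2 * (11 * s) ^ 6 =
      (4 * 1771561 * (s : ℝ) ^ 7 + 16 * 1771561 * (s : ℝ) ^ 8) / N := by
    field_simp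
    ring
  rw [h5, div_lt_iff₀ hNr]
  have h6 : (s : ℝ) ^ 7 ≤ (s : ℝ) ^ 8 := by
    rw [pow_succ (s : ℝ) 7]
    exact le_mul_of_one_le_right (by positivity) hs1r
  have h7 : (0 : ℝ) < (s : ℝ) ^ 8 := by positivity
  linarith

theorem exists_good [Fintype V] [Fintype C] {c : V → V → C} (hc : PC c)
    (hV : Fintype.card V = Fintype.card (Pos σ)) (hN0 : 0 < Fintype.card V)
    (hC : Fintype.card C ≤ Fintype.card V ^ 2) (M : ℕ)
    (hM : ∀ k, {e : V × V | e.1 ≠ e.2 ∧ c e.1 e.2 = k}.ncard ≤ M) (δ : ℝ)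
    (h0 : 0 < δ) (h1 : δ ≤ 1) (hMδ : (M : ℝ) ≤ (1 - δ) * Fintype.card V) (s : ℕ)
    (hs : ∀ a, s ≤ σ a ∧ σ a ≤ 2 * s) (hδ : 28 ≤ δ * s) (h4 : 8 * s ≤ Fintype.card V)
    (h8 : 200000000 * s ^ 8 ≤ Fintype.card V)
    (he : (Fintype.card V : ℝ) ^ 3 * Real.exp (-(δ ^ 2 * s / 32)) ≤ 1 / 2) :
    ∃ π : V ≃ Pos σ, Good c π := by
  by_contra hcon
  push Not at hcon
  set N := Fintype.card V with hNdef
  have hNr : (0 : ℝ) < N := by exact_mod_cast hN0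
  have hs0 : 0 < s := by
    rcases Nat.eq_zero_or_pos s with h | h
    · rw [h, Nat.cast_zero, mul_zero] at hδ
      norm_num at hδ
    · exact h
  have hsr : (0 : ℝ) < s := by exact_mod_cast hs0
  have hNσ : N = 2 * ∑ a, σ a := by rw [hV, card_pos]
  have hq : q ≤ N := by
    have h1 : ∑ a : Fin q, 1 ≤ ∑ a, σ a := Finset.sum_le_sum fun a _ => hs0.trans_le (hs a).1
    rw [Finset.sum_const, Finset.card_univ, Fintype.card_fin, smul_eq_mul, mul_one] at h1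
    omega
  -- the bad events cover everything
  have hcov : (Set.univ : Set (V ≃ Pos σ)) ⊆
      ((⋃ k : C, ⋃ a : Fin q, {π : V ≃ Pos σ | ¬ load c π k a + 8 ≤ σ a}) ∪
        (⋃ a : Fin q, {π : V ≃ Pos σ | ¬ QuadOK c π a})) ∪
        (⋃ a : Fin q, ⋃ x : V, {π : V ≃ Pos σ | ¬ HitOK c π a x}) := by
    intro π _
    by_contra h
    simp only [Set.mem_union, Set.mem_iUnion, Set.mem_ofPred_eq, not_or, not_exists, not_not] at h
    exact hcon π ⟨h.1.1, h.1.2, h.2⟩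
  have h5 := Set.ncard_le_ncard hcov (Set.toFinite _)
  have h6 : ((Set.univ : Set (V ≃ Pos σ)).ncard) = N.factorial := by
    rw [Set.ncard_univ, card_all hV]
  rw [h6] at h5
  have h7 := (h5.trans (Set.ncard_union_le _ _)).trans
    (Nat.add_le_add_right (Set.ncard_union_le _ _) _)
  have h8' : (⋃ k : C, ⋃ a : Fin q, {π : V ≃ Pos σ | ¬ load c π k a + 8 ≤ σ a}).ncard ≤
      ∑ k : C, ∑ a : Fin q, {π : V ≃ Pos σ | ¬ load c π k a + 8 ≤ σ a}.ncard :=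
    (Set.ncard_iUnion_le_of_fintype _).trans
      (Finset.sum_le_sum fun k _ => Set.ncard_iUnion_le_of_fintype _)
  have h9 : (⋃ a : Fin q, {π : V ≃ Pos σ | ¬ QuadOK c π a}).ncard ≤
      ∑ a : Fin q, {π : V ≃ Pos σ | ¬ QuadOK c π a}.ncard := Set.ncard_iUnion_le_of_fintype _
  have h10 : (⋃ a : Fin q, ⋃ x : V, {π : V ≃ Pos σ | ¬ HitOK c π a x}).ncard ≤
      ∑ a : Fin q, ∑ x : V, {π : V ≃ Pos σ | ¬ HitOK c π a x}.ncard :=
    (Set.ncard_iUnion_le_of_fintype _).trans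
      (Finset.sum_le_sum fun k _ => Set.ncard_iUnion_le_of_fintype _)
  have h11 : (N.factorial : ℝ) ≤
      (∑ k : C, ∑ a : Fin q, ({π : V ≃ Pos σ | ¬ load c π k a + 8 ≤ σ a}.ncard : ℝ)) +
      (∑ a : Fin q, ({π : V ≃ Pos σ | ¬ QuadOK c π a}.ncard : ℝ)) +
      ∑ a : Fin q, ∑ x : V, ({π : V ≃ Pos σ | ¬ HitOK c π a x}.ncard : ℝ) := by
    have : N.factorial ≤ (∑ k : C, ∑ a : Fin q, {π : V ≃ Pos σ | ¬ load c π k a + 8 ≤ σ a}.ncard) +
      (∑ a : Fin q, {π : V ≃ Pos σ | ¬ QuadOK c π a}.ncard) +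
      ∑ a : Fin q, ∑ x : V, {π : V ≃ Pos σ | ¬ HitOK c π a x}.ncard := by omega
    exact_mod_cast this
  have hF : (0 : ℝ) < N.factorial := by exact_mod_cast Nat.factorial_pos N
  have b1 : (∑ k : C, ∑ a : Fin q, ({π : V ≃ Pos σ | ¬ load c π k a + 8 ≤ σ a}.ncard : ℝ)) ≤
      N.factorial * (1 / 2) := by
    have hterm : ∀ (k : C) (a : Fin q), ({π : V ≃ Pos σ | ¬ load c π k a + 8 ≤ σ a}.ncard : ℝ) ≤
        N.factorial * Real.exp (-(δ ^ 2 * s / 32)) := by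
      intro k a
      have hσ1 : (s : ℝ) ≤ σ a := by exact_mod_cast (hs a).1
      refine (load_tail hc hV k a M (hM k) δ h0 h1 hMδ ?_ ?_).trans ?_
      · exact hδ.trans (mul_le_mul_of_nonneg_left hσ1 h0.le)
      · have := (hs a).2
        omega
      · apply mul_le_mul_of_nonneg_left _ hF.le
        apply Real.exp_le_exp.2
        have : δ ^ 2 * (s : ℝ) ≤ δ ^ 2 * σ a := mul_le_mul_of_nonneg_left hσ1 (by positivity)
        linarith
    refine (Finset.sum_le_sum fun k _ => Finset.sum_le_sum fun a _ => hterm k a).trans ?_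
    rw [Finset.sum_const, Finset.sum_const, Finset.card_univ, Finset.card_univ, Fintype.card_fin,
      nsmul_eq_mul, nsmul_eq_mul]
    have hC' : (Fintype.card C : ℝ) ≤ (N : ℝ) ^ 2 := by exact_mod_cast hC
    have hq' : (q : ℝ) ≤ N := by exact_mod_cast hq
    have hexp : (0 : ℝ) < Real.exp (-(δ ^ 2 * s / 32)) := Real.exp_pos _
    calc (Fintype.card C : ℝ) * (q * (N.factorial * Real.exp (-(δ ^ 2 * s / 32))))
        = N.factorial * ((Fintype.card C * q) * Real.exp (-(δ ^ 2 * s / 32))) := by ring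
      _ ≤ N.factorial * ((N ^ 2 * N) * Real.exp (-(δ ^ 2 * s / 32))) := by
          apply mul_le_mul_of_nonneg_left _ hF.le
          apply mul_le_mul_of_nonneg_right _ hexp.le
          exact mul_le_mul hC' hq' (by positivity) (by positivity)
      _ = N.factorial * (N ^ 3 * Real.exp (-(δ ^ 2 * s / 32))) := by ring
      _ ≤ N.factorial * (1 / 2) := mul_le_mul_of_nonneg_left he hF.le
  have b2 : (∑ a : Fin q, ({π : V ≃ Pos σ | ¬ QuadOK c π a}.ncard : ℝ)) ≤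
      N.factorial * ∑ a, ((2 * σ a : ℝ) / N) ^ 2 * (2 * σ a + 6) ^ 6 := by
    rw [Finset.mul_sum]
    exact Finset.sum_le_sum fun a _ => quad_prob hc hV hN0 a
  have b3 : (∑ a : Fin q, ∑ x : V, ({π : V ≃ Pos σ | ¬ HitOK c π a x}.ncard : ℝ)) ≤
      N.factorial * ∑ a, (N : ℝ) * (((2 * σ a : ℝ) / N) ^ 3 * (2 * σ a + 7) ^ 6) := by
    rw [Finset.mul_sum]
    refine Finset.sum_le_sum fun a _ => ?_
    refine (Finset.sum_le_sum fun x _ => hit_prob hc hV hN0 a x).trans ?_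
    rw [Finset.sum_const, Finset.card_univ, nsmul_eq_mul]
    exact le_of_eq (by ring)
  have b4 := exist_num N s q σ hs hs0 hNσ hN0 h8
  have b5 := mul_lt_mul_of_pos_left b4 hF
  rw [mul_add] at b5
  linarith

end Pool.Agent.helper7.RT
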