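import Mathlib

/-!
# RT-Num: the choice of the parameters

* `sizes`: for `1 ≤ s ≤ n` there are `q` and `σ : Fin q → ℕ` with `s ≤ σ a ≤ 2 s` and sum `n`: `q = n / s`, all
  `σ a = s` except the last one `σ a = s + n % s`.
* `numeric`: `s = ⌊n ^ (1 / 10)⌋₊`, so `n ^ (1 / 10) / 2 ≤ s ≤ n ^ (1 / 10)` for `n` large;
  `n ^ (-1 / 25) * s ≥ n ^ (3 / 50) / 2 → ∞`; `s ^ 8 ≤ n ^ (4 / 5) = o(n)`;
  `(n ^ (-1 / 25)) ^ 2 * s / 32 ≥ n ^ (1 / 50) / 64`, and `(2 n) ^ 3 * exp (- n ^ (1 / 50) / 64) → 0`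
  (`Real.tendsto_pow_mul_exp_neg_atTop_nhds_zero` composed with `n ^ (1 / 50)`, the power `150`);
  `⌈n ^ (24 / 25)⌉₊ ≤ n ^ (24 / 25) + 1 = o(n)`.
-/

set_option autoImplicit false

open Finset Filter Topology

namespace Pool.Agent.helper7.RT

theorem sizes (n s : ℕ) (hs : 1 ≤ s) (hn : s ≤ n) :
    ∃ (q : ℕ) (σ : Fin q → ℕ), (∀ a, s ≤ σ a ∧ σ a ≤ 2 * s) ∧ ∑ a, σ a = n := by
  obtain ⟨m, hm⟩ : ∃ m, n / s = m + 1 :=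
    ⟨n / s - 1, by have := Nat.div_pos hn hs; omega⟩
  have hmod : n % s < s := Nat.mod_lt _ hs
  have hdiv : s * (m + 1) + n % s = n := by
    rw [← hm]
    exact Nat.div_add_mod n s
  refine ⟨m + 1, fun a => s + if a = Fin.last m then n % s else 0, fun a => ?_, ?_⟩
  · simp only
    split_ifs <;> omega
  · rw [Finset.sum_add_distrib, Finset.sum_ite_eq' Finset.univ (Fin.last m) (fun _ => n % s),
      if_pos (Finset.mem_univ _), Finset.sum_const, Finset.card_univ, Fintype.card_fin, smul_eq_mul,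
      mul_comm]
    exact hdiv

/-- the conditions in terms of `y = n ^ (1 / 50)` -/
private theorem Num_real {n : ℕ} {y : ℝ} (hy : 10 ≤ y) (hn : (n : ℝ) = y ^ 50)
    (hexp : (y / 64) ^ 150 * Real.exp (-(y / 64)) ≤ 1 / (16 * 64 ^ 150)) :
    ∃ s : ℕ, 8 ≤ s ∧ s ≤ n ∧
    28 ≤ (y ^ 2)⁻¹ * s ∧ 8 * s ≤ 2 * n ∧ 200000000 * s ^ 8 ≤ 2 * n ∧
    ((2 * n : ℕ) : ℝ) ^ 3 * Real.exp (-(((y ^ 2)⁻¹) ^ 2 * s / 32)) ≤ 1 / 2 ∧
    2 * ⌈y ^ 48⌉₊ ≤ n := by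
  have hy0 : 0 < y := by linarith
  have h5 : (100000 : ℝ) ≤ y ^ 5 := by
    calc (100000 : ℝ) = 10 ^ 5 := by norm_num
      _ ≤ y ^ 5 := pow_le_pow_left₀ (by norm_num) hy 5
  have hs1 : ((⌊y ^ 5⌋₊ : ℕ) : ℝ) ≤ y ^ 5 := Nat.floor_le (by positivity)
  have hs2 : y ^ 5 < (⌊y ^ 5⌋₊ : ℕ) + 1 := Nat.lt_floor_add_one _
  have hs3 : y ^ 5 / 2 ≤ (⌊y ^ 5⌋₊ : ℕ) := by linarith
  set s : ℕ := ⌊y ^ 5⌋₊ with hs
  have hp : ∀ a b : ℕ, a ≤ b → y ^ a ≤ y ^ b := fun a b hab =>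
    pow_le_pow_right₀ (by linarith) hab
  have h2 : (100 : ℝ) ≤ y ^ 2 := by nlinarith
  have h10 : (10000000000 : ℝ) ≤ y ^ 10 := by
    calc (10000000000 : ℝ) = 10 ^ 10 := by norm_num
      _ ≤ y ^ 10 := pow_le_pow_left₀ (by norm_num) hy 10
  have h3 : (1000 : ℝ) ≤ y ^ 3 := by
    calc (1000 : ℝ) = 10 ^ 3 := by norm_num
      _ ≤ y ^ 3 := pow_le_pow_left₀ (by norm_num) hy 3
  refine ⟨s, ?_, ?_, ?_, ?_, ?_, ?_, ?_⟩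
  · have : (8 : ℝ) ≤ (s : ℝ) := by linarith
    exact_mod_cast this
  · have : (s : ℝ) ≤ (n : ℝ) := by
      rw [hn]
      exact hs1.trans (hp 5 50 (by norm_num))
    exact_mod_cast this
  · rw [inv_mul_eq_div, le_div_iff₀ (by positivity)]
    have e1 : y ^ 5 = y ^ 3 * y ^ 2 := by ring
    have e2 : 1000 * y ^ 2 ≤ y ^ 3 * y ^ 2 := mul_le_mul_of_nonneg_right h3 (by positivity)
    nlinarith
  · have : (8 : ℝ) * (s : ℝ) ≤ 2 * (n : ℝ) := by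
      rw [hn]
      have e1 : y ^ 5 * y ^ 10 ≤ y ^ 50 := by
        rw [← pow_add]
        exact hp _ _ (by norm_num)
      have e2 : y ^ 5 * 10000000000 ≤ y ^ 5 * y ^ 10 :=
        mul_le_mul_of_nonneg_left h10 (by positivity)
      linarith
    exact_mod_cast this
  · have : (200000000 : ℝ) * (s : ℝ) ^ 8 ≤ 2 * (n : ℝ) := by
      rw [hn]
      have e0 : (s : ℝ) ^ 8 ≤ (y ^ 5) ^ 8 := pow_le_pow_left₀ (Nat.cast_nonneg s) hs1 8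
      have e1 : (y ^ 5) ^ 8 * y ^ 10 = y ^ 50 := by ring
      have e2 : (y ^ 5) ^ 8 * 10000000000 ≤ (y ^ 5) ^ 8 * y ^ 10 :=
        mul_le_mul_of_nonneg_left h10 (by positivity)
      have e3 : 0 ≤ (s : ℝ) ^ 8 := by positivity
      linarith
    exact_mod_cast this
  · have e1 : y / 64 ≤ ((y ^ 2)⁻¹) ^ 2 * s / 32 := by
      have e2 : ((y ^ 2)⁻¹) ^ 2 * (y ^ 5 / 2) = y / 2 := by
        field_simp
      have e3 : ((y ^ 2)⁻¹) ^ 2 * (y ^ 5 / 2) ≤ ((y ^ 2)⁻¹) ^ 2 * s :=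
        mul_le_mul_of_nonneg_left hs3 (by positivity)
      rw [e2] at e3
      linarith
    have e4 : Real.exp (-(((y ^ 2)⁻¹) ^ 2 * s / 32)) ≤ Real.exp (-(y / 64)) :=
      Real.exp_le_exp.2 (neg_le_neg e1)
    have e5 : ((2 * n : ℕ) : ℝ) ^ 3 = 8 * 64 ^ 150 * (y / 64) ^ 150 := by
      push_cast
      rw [hn, div_pow]
      field_simp
      ring
    calc ((2 * n : ℕ) : ℝ) ^ 3 * Real.exp (-(((y ^ 2)⁻¹) ^ 2 * s / 32))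
        ≤ ((2 * n : ℕ) : ℝ) ^ 3 * Real.exp (-(y / 64)) :=
          mul_le_mul_of_nonneg_left e4 (by positivity)
      _ = 8 * 64 ^ 150 * ((y / 64) ^ 150 * Real.exp (-(y / 64))) := by rw [e5]; ring
      _ ≤ 8 * 64 ^ 150 * (1 / (16 * 64 ^ 150)) :=
          mul_le_mul_of_nonneg_left hexp (by positivity)
      _ = 1 / 2 := by norm_num
  · have e1 : ((⌈y ^ 48⌉₊ : ℕ) : ℝ) < y ^ 48 + 1 := Nat.ceil_lt_add_one (by positivity)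
    have : (2 : ℝ) * ((⌈y ^ 48⌉₊ : ℕ) : ℝ) ≤ (n : ℝ) := by
      rw [hn]
      have e2 : y ^ 50 = y ^ 48 * y ^ 2 := by ring
      have e3 : y ^ 48 * 100 ≤ y ^ 48 * y ^ 2 := mul_le_mul_of_nonneg_left h2 (by positivity)
      have e4 : (1 : ℝ) ≤ y ^ 48 := one_le_pow₀ (by linarith)
      linarith
    exact_mod_cast this

theorem numeric : ∀ᶠ n : ℕ in atTop, ∃ s : ℕ, 8 ≤ s ∧ s ≤ n ∧
    28 ≤ (n : ℝ) ^ (-(1 / 25) : ℝ) * s ∧ 8 * s ≤ 2 * n ∧ 200000000 * s ^ 8 ≤ 2 * n ∧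
    ((2 * n : ℕ) : ℝ) ^ 3 * Real.exp (-(((n : ℝ) ^ (-(1 / 25) : ℝ)) ^ 2 * s / 32)) ≤ 1 / 2 ∧
    2 * ⌈(n : ℝ) ^ (24 / 25 : ℝ)⌉₊ ≤ n := by
  have hy : Tendsto (fun n : ℕ => (n : ℝ) ^ (1 / 50 : ℝ)) atTop atTop :=
    (tendsto_rpow_atTop (by norm_num)).comp tendsto_natCast_atTop_atTop
  have h1 : ∀ᶠ n : ℕ in atTop, (10 : ℝ) ≤ (n : ℝ) ^ (1 / 50 : ℝ) :=
    hy.eventually (eventually_ge_atTop 10)
  have h2 : ∀ᶠ z : ℝ in atTop, z ^ 150 * Real.exp (-z) ≤ 1 / (16 * 64 ^ 150) := by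
    refine (Real.tendsto_pow_mul_exp_neg_atTop_nhds_zero 150).eventually_le_const ?_
    positivity
  have h3 : ∀ᶠ n : ℕ in atTop, ((n : ℝ) ^ (1 / 50 : ℝ) / 64) ^ 150 *
      Real.exp (-((n : ℝ) ^ (1 / 50 : ℝ) / 64)) ≤ 1 / (16 * 64 ^ 150) :=
    (hy.atTop_div_const (by norm_num : (0 : ℝ) < 64)).eventually h2
  filter_upwards [h1, h3] with n hn1 hn3
  have hn0 : (0 : ℝ) ≤ (n : ℝ) := Nat.cast_nonneg n
  have e : ∀ (k : ℕ) (r : ℝ), r = (k : ℝ) / 50 → (n : ℝ) ^ r = ((n : ℝ) ^ (1 / 50 : ℝ)) ^ k := by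
    intro k r hr
    rw [← Real.rpow_natCast, ← Real.rpow_mul hn0, hr]
    congr 1
    ring
  have en : (n : ℝ) = ((n : ℝ) ^ (1 / 50 : ℝ)) ^ 50 := by
    rw [← e 50 1 (by norm_num), Real.rpow_one]
  have e2 : (n : ℝ) ^ (-(1 / 25) : ℝ) = (((n : ℝ) ^ (1 / 50 : ℝ)) ^ 2)⁻¹ := by
    rw [Real.rpow_neg hn0, e 2 (1 / 25) (by norm_num)]
  have e3 : (n : ℝ) ^ (24 / 25 : ℝ) = ((n : ℝ) ^ (1 / 50 : ℝ)) ^ 48 := e 48 _ (by norm_num)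
  rw [e2, e3]
  exact Num_real hn1 en hn3

end Pool.Agent.helper7.RT
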