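import Pool.Agent.helper7.RT.Asm
import Pool.Agent.helper7.RT.Tree
import Pool.Agent.helper7.RT.Exist
import Pool.Agent.helper7.RT.Num
import Pool.Agent.helper7.RT.Pairs

/-!
# RT-Main: rainbow decompositions when all classes have at most `n - ⌈n ^ (24 / 25)⌉` edges

PROOF.  Let `n` be large (`numeric`), `s`, `q`, `σ` as in `numeric`, `sizes`, `V = Fin (2 * n)`,
`c' x y = ⟨c s(x, y), _⟩` with values in the finite type `Set.range c` (`card_range`),
`M = 2 * (n - ⌈n ^ (24 / 25)⌉₊)` (`pairs_le`);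
`δ = n ^ (-1 / 25)`, `(1 - δ) * (2 n) = 2 n - 2 n ^ (24 / 25) ≥ M`.  `exists_good`, `asm` give `T`;
`e : ((a : Fin q) × Fin (σ a)) ≃ Fin n` (`Fintype.equivFinOfCardEq`, `Fintype.card_sigma`),
`t z = e (T x y)` for `z = s(x, y)` (`Sym2.lift`).  The graph `fromRel (T x y = j)` is
`fromEdgeSet {z | t z = e j}` (`T` is symmetric), so `tree_count` applies.
-/

set_option autoImplicit false

open Finset Filter
open scoped Classical

namespace Pool.Agent.helper7.RT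

private theorem Main_delta (n : ℕ) (hn1 : 1 ≤ n) (hceil : 2 * ⌈(n : ℝ) ^ (24 / 25 : ℝ)⌉₊ ≤ n) :
    ((2 * (n - ⌈(n : ℝ) ^ (24 / 25 : ℝ)⌉₊) : ℕ) : ℝ) ≤
      (1 - (n : ℝ) ^ (-(1 / 25) : ℝ)) * ((2 * n : ℕ) : ℝ) := by
  have hn0 : (0 : ℝ) < n := by exact_mod_cast hn1
  have h1 : (n : ℝ) ^ (-(1 / 25) : ℝ) * n = (n : ℝ) ^ (24 / 25 : ℝ) := by
    have h2 : (n : ℝ) ^ (-(1 / 25) : ℝ) * (n : ℝ) ^ (1 : ℝ) = (n : ℝ) ^ (24 / 25 : ℝ) := by
      rw [← Real.rpow_add hn0]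
      norm_num
    rwa [Real.rpow_one] at h2
  have h3 : (n : ℝ) ^ (24 / 25 : ℝ) ≤ (⌈(n : ℝ) ^ (24 / 25 : ℝ)⌉₊ : ℝ) := Nat.le_ceil _
  have h4 : ⌈(n : ℝ) ^ (24 / 25 : ℝ)⌉₊ ≤ n := by omega
  rw [Nat.cast_mul, Nat.cast_sub h4, Nat.cast_mul]
  push_cast
  nlinarith

theorem main_le : ∀ᶠ n : ℕ in atTop, ∀ (C : Type) (c : Sym2 (Fin (2 * n)) → C),
    (∀ x y z, x ≠ y → x ≠ z → y ≠ z → c s(x, y) ≠ c s(x, z)) →
    (∀ k, {e | ¬ e.IsDiag ∧ c e = k}.ncard ≤ n - ⌈(n : ℝ) ^ (24 / 25 : ℝ)⌉₊) →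
    ∃ t : Sym2 (Fin (2 * n)) → Fin n,
      (∀ i, (SimpleGraph.fromEdgeSet {e | t e = i}).IsTree) ∧
      ∀ e e', ¬ e.IsDiag → ¬ e'.IsDiag → c e = c e' → t e = t e' → e = e' := by
  filter_upwards [numeric, eventually_ge_atTop 1] with n hn hn1 C c hc hcl
  obtain ⟨s, h8, hsn, h28, h8s, h8p, hexp, hceil⟩ := hn
  obtain ⟨q, σ, hσ, hsum⟩ := sizes n s (by omega) hsn
  have hfin : Finite (Set.range c) := Set.finite_range c
  letI : Fintype (Set.range c) := Fintype.ofFinite _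
  let c' : Fin (2 * n) → Fin (2 * n) → Set.range c := fun x y => ⟨c s(x, y), Set.mem_range_self _⟩
  have hPC : PC c' := by
    refine ⟨fun x y => ?_, fun x y z hxy hxz hyz h => ?_⟩
    · exact Subtype.ext (congrArg c Sym2.eq_swap)
    · exact hc x y z hxy hxz hyz (congrArg Subtype.val h)
  have hcardV : Fintype.card (Fin (2 * n)) = 2 * n := Fintype.card_fin _
  have hV : Fintype.card (Fin (2 * n)) = Fintype.card (Pos σ) := by
    rw [hcardV, card_pos, hsum]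
  have hCcard : Fintype.card (Set.range c) ≤ Fintype.card (Fin (2 * n)) ^ 2 := by
    rw [← Nat.card_eq_fintype_card]
    exact card_range c
  have hM : ∀ k, {e : Fin (2 * n) × Fin (2 * n) | e.1 ≠ e.2 ∧ c' e.1 e.2 = k}.ncard ≤
      2 * (n - ⌈(n : ℝ) ^ (24 / 25 : ℝ)⌉₊) := by
    intro k
    have hset : {e : Fin (2 * n) × Fin (2 * n) | e.1 ≠ e.2 ∧ c' e.1 e.2 = k} =
        {e : Fin (2 * n) × Fin (2 * n) | e.1 ≠ e.2 ∧ c s(e.1, e.2) = k.1} := by
      ext e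
      simp only [Set.mem_setOf_eq]
      rw [Subtype.ext_iff]
    rw [hset]
    exact (pairs_le c k.1).trans (Nat.mul_le_mul_left 2 (hcl k.1))
  have hn0 : (0 : ℝ) < n := by exact_mod_cast hn1
  have hδ0 : 0 < (n : ℝ) ^ (-(1 / 25) : ℝ) := Real.rpow_pos_of_pos hn0 _
  have hδ1 : (n : ℝ) ^ (-(1 / 25) : ℝ) ≤ 1 :=
    Real.rpow_le_one_of_one_le_of_nonpos (by exact_mod_cast hn1) (by norm_num)
  obtain ⟨π, hg⟩ := exists_good hPC hV (by rw [hcardV]; omega) hCcard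
    (2 * (n - ⌈(n : ℝ) ^ (24 / 25 : ℝ)⌉₊)) hM ((n : ℝ) ^ (-(1 / 25) : ℝ)) hδ0 hδ1
    (by rw [hcardV]; exact Main_delta n hn1 hceil) s hσ h28 (by rw [hcardV]; exact h8s)
    (by rw [hcardV]; exact h8p) (by rw [hcardV]; exact hexp)
  obtain ⟨T, hT1, hT2, hT3⟩ := asm hPC π hg fun a => h8.trans (hσ a).1
  have hcs : Fintype.card ((a : Fin q) × Fin (σ a)) = n := by
    rw [Fintype.card_sigma, ← hsum]
    exact Finset.sum_congr rfl fun a _ => Fintype.card_fin _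
  let e : ((a : Fin q) × Fin (σ a)) ≃ Fin n := Fintype.equivFinOfCardEq hcs
  let t : Sym2 (Fin (2 * n)) → Fin n := Sym2.lift ⟨fun x y => e (T x y), fun x y => congrArg e (hT1 x y)⟩
  have ht : ∀ x y, t s(x, y) = e (T x y) := fun x y => rfl
  have hconn : ∀ i, (SimpleGraph.fromEdgeSet {z | t z = i}).Connected := by
    intro i
    have hG : SimpleGraph.fromEdgeSet {z | t z = i} =
        SimpleGraph.fromRel fun x y => T x y = e.symm i := by
      ext x y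
      rw [SimpleGraph.fromEdgeSet_adj, SimpleGraph.fromRel_adj, Set.mem_setOf_eq, ht, hT1 y x,
        or_self, and_comm, Equiv.apply_eq_iff_eq_symm_apply]
    rw [hG]
    exact hT2 _
  refine ⟨t, fun i => tree_count n t hconn i, ?_⟩
  intro z z' hz hz' hcc htt
  induction z using Sym2.ind with
  | _ x y =>
    induction z' using Sym2.ind with
    | _ x' y' =>
      rw [Sym2.mk_isDiag_iff] at hz hz'
      refine hT3 x y x' y' hz hz' (Subtype.ext hcc) ?_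
      rw [ht, ht] at htt
      exact e.injective htt

end Pool.Agent.helper7.RT
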