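import Pool.Agent.helper60.Galvin

/-!
# RT-Nested: a proper edge colouring `f` of a bipartite multigraph with `f e < deg (ξ e)`

A bipartite multigraph is a finite type `E` of edges with the maps `ξ : E → X`, `γ : E → Y`.

* `matching_max`: Hall's theorem (`Finset.all_card_le_biUnion_card_iff_exists_injective'` or the version
  for a `Fintype` index, with index type `{x // x ∈ A}` and `t x = (S.filter (ξ e = x)).image γ`).  For
  `A' ⊆ A` the edges of `S` at `A'` are at least `D * A'.card` many and lie in the fibres of `γ` over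
  `A'.biUnion t`, so they are at most `D * (A'.biUnion t).card` many; divide by `D > 0`.  `M` is the
  image of a choice function (compare `konig_regular` in `Pool/Agent/helper60/Galvin.lean`).
* `nested`: prove for all `D ≥ d` by induction on `D` (`Nat.le_induction`, generalising `S`): the
  claim for all `S` with the additional hypothesis `∀ x, (S.filter (ξ e = x)).card ≤ D`.
  Case `D = d`: every `x` which occurs has degree exactly `d`; König (`Galvin.konig`, applied to the
  edge type `{e // e ∈ S}` with `k = d`) gives `f e < d`.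
  Step `D → D + 1` (`D ≥ d`): let `A` be the set of all `x` of degree `D + 1`; `matching_max` with
  `D + 1` (the degrees of the `y` are at most `d ≤ D + 1`) gives `M`; apply the induction hypothesis
  to `S \ M`: the degree of `x ∈ A` is now `D ≥ d`, the other degrees are unchanged, all degrees at most
  `D`, the degrees of the `y` do not increase.  Put `f e = D` for `e ∈ M` (`D < D + 1 = deg (ξ e)`), and
  the old value outside of `M`.  An edge `e ∉ M` has `f e < deg' (ξ e) ≤ D`, so the values on `M` and
  outside are different; two edges of `M` with the same `ξ` or the same `γ` are equal.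
-/

set_option autoImplicit false

open Finset
open scoped Classical

namespace Pool.Agent.helper7.RT

variable {E X Y : Type} [Fintype E] [Fintype X] [Fintype Y]

theorem Nested_sdiff {Z : Type} (ξ : E → Z) (S M : Finset E) (hM : M ⊆ S) (x : Z) :
    ((S \ M).filter fun e => ξ e = x).card + (M.filter fun e => ξ e = x).card =
      (S.filter fun e => ξ e = x).card := by
  have h1 : (S \ M).filter (fun e => ξ e = x) =
      S.filter (fun e => ξ e = x) \ M.filter (fun e => ξ e = x) := by
    ext e; simp only [mem_filter, mem_sdiff]; tauto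
  rw [h1]
  exact Finset.card_sdiff_add_card_eq_card (Finset.filter_subset_filter _ hM)

theorem Nested_fib {Z : Type} (ξ : E → Z) (S : Finset E) (A : Finset Z) :
    (S.filter fun e => ξ e ∈ A).card = ∑ x ∈ A, (S.filter fun e => ξ e = x).card := by
  rw [Finset.card_eq_sum_card_fiberwise (f := ξ) (t := A)
    (fun e he => by simpa using (Finset.mem_filter.1 he).2)]
  refine Finset.sum_congr rfl fun v hv => ?_
  congr 1
  ext e
  simp only [mem_filter]
  constructor
  · rintro ⟨⟨h1, h2⟩, h3⟩; exact ⟨h1, h3⟩
  · rintro ⟨h1, h3⟩; exact ⟨⟨h1, by rw [h3]; exact hv⟩, h3⟩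

theorem matching_max (ξ : E → X) (γ : E → Y) (S : Finset E) (D : ℕ) (hD : 0 < D) (A : Finset X)
    (hA : ∀ x ∈ A, D ≤ (S.filter fun e => ξ e = x).card)
    (hy : ∀ y, (S.filter fun e => γ e = y).card ≤ D) :
    ∃ M ⊆ S, (∀ e ∈ M, ξ e ∈ A) ∧ (∀ x ∈ A, ∃ e ∈ M, ξ e = x) ∧
      (∀ e ∈ M, ∀ e' ∈ M, ξ e = ξ e' → e = e') ∧
      ∀ e ∈ M, ∀ e' ∈ M, γ e = γ e' → e = e' := by
  let t : {x // x ∈ A} → Finset Y := fun v => (S.filter (fun e => ξ e = v.1)).image γ
  have hall : ∀ B : Finset {x // x ∈ A}, B.card ≤ (B.biUnion t).card := by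
    intro B
    have h1 : D * B.card ≤ (S.filter fun e => ξ e ∈ B.map (Function.Embedding.subtype _)).card := by
      rw [Nested_fib, Finset.sum_map]
      rw [mul_comm, ← smul_eq_mul]
      exact Finset.card_nsmul_le_sum _ _ _ fun v _ => hA v.1 v.2
    have h2 : (S.filter fun e => γ e ∈ B.biUnion t).card ≤ D * (B.biUnion t).card := by
      rw [Nested_fib, mul_comm, ← smul_eq_mul]
      exact Finset.sum_le_card_nsmul _ _ _ fun y _ => hy y
    have h3 : (S.filter fun e => ξ e ∈ B.map (Function.Embedding.subtype _)) ⊆
        S.filter (fun e => γ e ∈ B.biUnion t) := by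
      intro e he
      rw [Finset.mem_filter] at he ⊢
      refine ⟨he.1, ?_⟩
      obtain ⟨v, hv, hve⟩ := Finset.mem_map.1 he.2
      rw [Finset.mem_biUnion]
      refine ⟨v, hv, ?_⟩
      simp only [t, mem_image, mem_filter]
      exact ⟨e, ⟨he.1, hve.symm⟩, rfl⟩
    have h4 := Finset.card_le_card h3
    exact Nat.le_of_mul_le_mul_left (h1.trans (h4.trans h2)) hD
  obtain ⟨g, hginj, hg⟩ := (Finset.all_card_le_biUnion_card_iff_exists_injective t).1 hall
  have hm : ∀ v : {x // x ∈ A}, ∃ e, e ∈ S ∧ ξ e = v.1 ∧ γ e = g v := by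
    intro v
    have := hg v
    simp only [t, mem_image, mem_filter] at this
    obtain ⟨e, ⟨h1, h2⟩, h3⟩ := this
    exact ⟨e, h1, h2, h3⟩
  choose m hm1 hm2 hm3 using hm
  refine ⟨univ.image m, ?_, ?_, ?_, ?_, ?_⟩
  · intro e he
    obtain ⟨v, _, rfl⟩ := Finset.mem_image.1 he
    exact hm1 v
  · intro e he
    obtain ⟨v, _, rfl⟩ := Finset.mem_image.1 he
    rw [hm2]
    exact v.2
  · intro x hx
    exact ⟨m ⟨x, hx⟩, Finset.mem_image_of_mem _ (Finset.mem_univ _), hm2 _⟩
  · intro e he e' he' h
    obtain ⟨v, _, rfl⟩ := Finset.mem_image.1 he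
    obtain ⟨v', _, rfl⟩ := Finset.mem_image.1 he'
    rw [hm2, hm2] at h
    rw [Subtype.ext h]
  · intro e he e' he' h
    obtain ⟨v, _, rfl⟩ := Finset.mem_image.1 he
    obtain ⟨v', _, rfl⟩ := Finset.mem_image.1 he'
    rw [hm3, hm3] at h
    rw [hginj h]

theorem nested (ξ : E → X) (γ : E → Y) (S : Finset E) (d : ℕ)
    (hx : ∀ e ∈ S, d ≤ (S.filter fun e' => ξ e' = ξ e).card)
    (hy : ∀ y, (S.filter fun e => γ e = y).card ≤ d) :
    ∃ f : E → ℕ, (∀ e ∈ S, f e < (S.filter fun e' => ξ e' = ξ e).card) ∧
      (∀ e ∈ S, ∀ e' ∈ S, ξ e = ξ e' → f e = f e' → e = e') ∧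
      ∀ e ∈ S, ∀ e' ∈ S, γ e = γ e' → f e = f e' → e = e' := by
  have key : ∀ D, d ≤ D → ∀ S : Finset E,
      (∀ e ∈ S, d ≤ (S.filter fun e' => ξ e' = ξ e).card) →
      (∀ y, (S.filter fun e => γ e = y).card ≤ d) →
      (∀ x, (S.filter fun e => ξ e = x).card ≤ D) →
      ∃ f : E → ℕ, (∀ e ∈ S, f e < (S.filter fun e' => ξ e' = ξ e).card) ∧
      (∀ e ∈ S, ∀ e' ∈ S, ξ e = ξ e' → f e = f e' → e = e') ∧
      ∀ e ∈ S, ∀ e' ∈ S, γ e = γ e' → f e = f e' → e = e' := by
    intro D hD
    induction D, hD using Nat.le_induction with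
    | base =>
      intro S hx hy hDx
      have hcard : ∀ {Z : Type} (η : E → Z) (z : Z),
          (univ.filter fun e : {e // e ∈ S} => η e.1 = z).card =
            (S.filter fun e => η e = z).card := by
        intro Z η z
        rw [← Finset.card_map (Function.Embedding.subtype _)]
        congr 1
        ext e
        simp only [mem_map, mem_filter, mem_univ, true_and, Function.Embedding.coe_subtype,
          Subtype.exists, exists_and_left, exists_prop, exists_eq_right_right]
        tauto
      obtain ⟨f, hf1, hf2, hf3⟩ := Pool.Agent.helper60.Galvin.konig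
        (fun e : {e // e ∈ S} => ξ e.1) (fun e => γ e.1) d
        (fun x => (hcard ξ x).le.trans (hDx x)) (fun y => (hcard γ y).le.trans (hy y))
      refine ⟨fun e => if h : e ∈ S then f ⟨e, h⟩ else 0, ?_, ?_, ?_⟩
      · intro e he
        simp only [dif_pos he]
        exact lt_of_lt_of_le (hf1 _) (hx e he)
      · intro e he e' he' h1 h2
        simp only [dif_pos he, dif_pos he'] at h2
        exact congrArg Subtype.val (hf2 ⟨e, he⟩ ⟨e', he'⟩ h1 h2)
      · intro e he e' he' h1 h2
        simp only [dif_pos he, dif_pos he'] at h2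
        exact congrArg Subtype.val (hf3 ⟨e, he⟩ ⟨e', he'⟩ h1 h2)
    | succ D hD ih =>
      intro S hx hy hDx
      obtain ⟨M, hMS, hMA, hAM, hMξ, hMγ⟩ := matching_max ξ γ S (D + 1) (Nat.succ_pos _)
        (univ.filter fun x => (S.filter fun e => ξ e = x).card = D + 1)
        (fun x hx => (Finset.mem_filter.1 hx).2.ge)
        (fun y => (hy y).trans (by omega))
      have hM1 : ∀ x, (S.filter fun e => ξ e = x).card = D + 1 →
          (M.filter fun e => ξ e = x).card = 1 := by
        intro x hxc
        obtain ⟨e, he, hex⟩ := hAM x (Finset.mem_filter.2 ⟨Finset.mem_univ _, hxc⟩)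
        rw [Finset.card_eq_one]
        refine ⟨e, ?_⟩
        ext e'
        rw [Finset.mem_filter, Finset.mem_singleton]
        constructor
        · rintro ⟨h1, h2⟩
          exact hMξ e' h1 e he (h2.trans hex.symm)
        · rintro rfl
          exact ⟨he, hex⟩
      have hM0 : ∀ x, (S.filter fun e => ξ e = x).card ≠ D + 1 →
          (M.filter fun e => ξ e = x).card = 0 := by
        intro x hxc
        rw [Finset.card_eq_zero, Finset.filter_eq_empty_iff]
        intro e he hex
        exact hxc (hex ▸ (Finset.mem_filter.1 (hMA e he)).2)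
      have hdeg : ∀ x, ((S \ M).filter fun e => ξ e = x).card ≤ D := by
        intro x
        have h1 := Nested_sdiff ξ S M hMS x
        have h2 := hDx x
        by_cases h3 : (S.filter fun e => ξ e = x).card = D + 1
        · have := hM1 x h3
          omega
        · have := hM0 x h3
          omega
      obtain ⟨f, hf1, hf2, hf3⟩ := ih (S \ M)
        (by
          intro e he
          have h1 := Nested_sdiff ξ S M hMS (ξ e)
          have h4 := hx e (Finset.mem_sdiff.1 he).1
          by_cases h3 : (S.filter fun e' => ξ e' = ξ e).card = D + 1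
          · have := hM1 _ h3
            omega
          · have := hM0 _ h3
            omega)
        (fun y => (Finset.card_le_card
          (Finset.filter_subset_filter _ Finset.sdiff_subset)).trans (hy y))
        hdeg
      have hfD : ∀ e, e ∈ S → e ∉ M → f e < D := fun e he heM =>
        lt_of_lt_of_le (hf1 e (Finset.mem_sdiff.2 ⟨he, heM⟩)) (hdeg _)
      refine ⟨fun e => if e ∈ M then D else f e, ?_, ?_, ?_⟩
      · intro e he
        by_cases heM : e ∈ M
        · simp only [if_pos heM]
          have := (Finset.mem_filter.1 (hMA e heM)).2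
          omega
        · simp only [if_neg heM]
          refine lt_of_lt_of_le (hf1 e (Finset.mem_sdiff.2 ⟨he, heM⟩)) ?_
          exact Finset.card_le_card (Finset.filter_subset_filter _ Finset.sdiff_subset)
      · intro e he e' he' hh hc
        by_cases heM : e ∈ M <;> by_cases he'M : e' ∈ M
        · exact hMξ e heM e' he'M hh
        · exfalso
          simp only [if_pos heM, if_neg he'M] at hc
          have := hfD e' he' he'M
          omega
        · exfalso
          simp only [if_neg heM, if_pos he'M] at hc
          have := hfD e he heM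
          omega
        · simp only [if_neg heM, if_neg he'M] at hc
          exact hf2 e (mem_sdiff.2 ⟨he, heM⟩) e' (mem_sdiff.2 ⟨he', he'M⟩) hh hc
      · intro e he e' he' hh hc
        by_cases heM : e ∈ M <;> by_cases he'M : e' ∈ M
        · exact hMγ e heM e' he'M hh
        · exfalso
          simp only [if_pos heM, if_neg he'M] at hc
          have := hfD e' he' he'M
          omega
        · exfalso
          simp only [if_neg heM, if_pos he'M] at hc
          have := hfD e he heM
          omega
        · simp only [if_neg heM, if_neg he'M] at hc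
          exact hf3 e (mem_sdiff.2 ⟨he, heM⟩) e' (mem_sdiff.2 ⟨he', he'M⟩) hh hc
  exact key (max d S.card) (le_max_left _ _) S hx hy
    (fun x => (Finset.card_filter_le _ _).trans (le_max_right _ _))

end Pool.Agent.helper7.RT
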