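import Pool.Agent.helper7.RT.Defs

/-!
# RT-Own: facts about the relation `Ch` and the sizes of the blocks

* `ch_asymm`, `ch_total`: cases `r.1 < p.1`, `p.1 < r.1`, and the two values of the types.
* `card_pos`: `Fintype.card_sigma`, `Fintype.card_prod`.
* `card_block`: through `π` (`Finset.card_bij` or `Fintype.card_congr`) the set is the fibre
  `{p : Pos σ | p.1 = a}`, in bijection with `Fin (σ a) × Bool`.
* `card_child`: let `p = π x`, `p.1 ≠ a`.  Through `π` the set is `{r : Pos σ | r.1 = a ∧ Ch p r}`; for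
  `a < p.1` the condition is `r.2.2 = p.2.2`, for `p.1 < a` it is `r.2.2 = !p.2.2`: exactly one value of
  the type is allowed, the pair `r.2.1 : Fin (σ a)` is free, so there are `σ a` of them.
* `card_ownpos`: sum over `e.1` of the number of `e.2` (at most `σ a` by the same count; for `e.1.1 = a`
  there are none).
-/

set_option autoImplicit false

open Finset
open scoped Classical

namespace Pool.Agent.helper7.RT

variable {V : Type} {q : ℕ} {σ : Fin q → ℕ}

theorem ch_asymm {p r : Pos σ} (h : Ch p r) : ¬ Ch r p := by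
  intro h2
  rcases lt_or_gt_of_ne h.1 with h3 | h3
  · exact h.2.2 h3 (h2.2.1 h3).symm
  · exact h2.2.2 h3 (h.2.1 h3).symm

theorem ch_total {p r : Pos σ} (h : p.1 ≠ r.1) : Ch p r ∨ Ch r p := by
  by_cases h4 : p.2.2 = r.2.2
  · rcases lt_or_gt_of_ne h with h3 | h3
    · right
      exact ⟨h.symm, fun _ => h4.symm, fun h5 => absurd h5 (not_lt_of_gt h3)⟩
    · left
      exact ⟨h, fun _ => h4, fun h5 => absurd h5 (not_lt_of_gt h3)⟩
  · rcases lt_or_gt_of_ne h with h3 | h3
    · left
      exact ⟨h, fun h5 => absurd h5 (not_lt_of_gt h3), fun _ => h4⟩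
    · right
      exact ⟨h.symm, fun h5 => absurd h5 (not_lt_of_gt h3), fun _ h6 => h4 h6.symm⟩

theorem card_pos : Fintype.card (Pos σ) = 2 * ∑ a, σ a := by
  rw [Fintype.card_sigma, Finset.mul_sum]
  refine Finset.sum_congr rfl fun a _ => ?_
  rw [Fintype.card_prod, Fintype.card_fin, Fintype.card_bool, mul_comm]

/-- the positions of block `a` -/
private theorem Own_block (a : Fin q) :
    (univ.filter fun r : Pos σ => r.1 = a).card = 2 * σ a := by
  have h1 : (univ.filter fun r : Pos σ => r.1 = a) =
      (univ : Finset (Fin (σ a) × Bool)).map (Function.Embedding.sigmaMk a) := by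
    ext r
    simp only [mem_filter, mem_univ, true_and, mem_map]
    constructor
    · intro h
      obtain ⟨b, u⟩ := r
      dsimp only at h
      subst h
      exact ⟨u, rfl⟩
    · rintro ⟨u, hu⟩
      rw [← hu]
      rfl
  rw [h1, card_map, card_univ, Fintype.card_prod, Fintype.card_fin, Fintype.card_bool, mul_comm]

/-- the positions of block `a` with a given type -/
private theorem Own_typ (a : Fin q) (b : Bool) :
    (univ.filter fun r : Pos σ => r.1 = a ∧ r.2.2 = b).card = σ a := by
  have h1 : (univ.filter fun r : Pos σ => r.1 = a ∧ r.2.2 = b) =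
      ((univ : Finset (Fin (σ a))).map ⟨fun u => (u, b), fun u v h => (Prod.mk.inj h).1⟩).map
        (Function.Embedding.sigmaMk (β := fun a => Fin (σ a) × Bool) a) := by
    ext r
    simp only [mem_filter, mem_univ, true_and, mem_map]
    constructor
    · intro h
      obtain ⟨a', u, b'⟩ := r
      obtain ⟨h1, h2⟩ := h
      dsimp only at h1 h2
      subst h1
      subst h2
      exact ⟨(u, b'), ⟨u, rfl⟩, rfl⟩
    · rintro ⟨v, ⟨u, hu⟩, hv⟩
      rw [← hv, ← hu]
      exact ⟨rfl, rfl⟩
  rw [h1, card_map, card_map, card_univ, Fintype.card_fin]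

private theorem Own_child (a : Fin q) (p : Pos σ) (hp : p.1 ≠ a) :
    (univ.filter fun r : Pos σ => r.1 = a ∧ Ch p r).card = σ a := by
  rcases lt_or_gt_of_ne hp with h3 | h3
  · rw [← Own_typ (σ := σ) a (!p.2.2)]
    congr 1
    ext r
    simp only [mem_filter, mem_univ, true_and]
    constructor
    · rintro ⟨h4, h5⟩
      refine ⟨h4, ?_⟩
      have := h5.2.2 (h4 ▸ h3)
      cases h6 : p.2.2 <;> cases h7 : r.2.2 <;> simp_all
    · rintro ⟨h4, h5⟩
      refine ⟨h4, fun h6 => hp (h6.trans h4), fun h6 => absurd h6 (not_lt_of_gt (h4 ▸ h3)), ?_⟩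
      intro _ h6
      rw [h5] at h6
      revert h6
      cases p.2.2 <;> decide
  · rw [← Own_typ (σ := σ) a p.2.2]
    congr 1
    ext r
    simp only [mem_filter, mem_univ, true_and]
    constructor
    · rintro ⟨h4, h5⟩
      exact ⟨h4, (h5.2.1 (h4 ▸ h3)).symm⟩
    · rintro ⟨h4, h5⟩
      exact ⟨h4, fun h6 => hp (h6.trans h4), fun _ => h5.symm,
        fun h6 => absurd h6 (not_lt_of_gt (h4 ▸ h3))⟩

private theorem Own_tr [Fintype V] (π : V ≃ Pos σ) (P : Pos σ → Prop) :
    (univ.filter fun x : V => P (π x)).card = (univ.filter fun r : Pos σ => P r).card := by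
  refine Finset.card_bij (fun x _ => π x) ?_ ?_ ?_
  · intro x hx
    simpa using hx
  · intro x _ y _ h
    exact π.injective h
  · intro r hr
    exact ⟨π.symm r, by simpa using hr, by simp⟩

theorem card_block [Fintype V] (π : V ≃ Pos σ) (a : Fin q) :
    (univ.filter fun x : V => InB π a x).card = 2 * σ a := by
  rw [← Own_block (σ := σ) a]
  convert Own_tr π fun r => r.1 = a
  rfl

theorem card_child [Fintype V] (π : V ≃ Pos σ) (a : Fin q) (x : V) (hx : ¬ InB π a x) :
    (univ.filter fun y : V => InB π a y ∧ Ch (π x) (π y)).card = σ a := by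
  rw [← Own_child a (π x) hx]
  convert Own_tr π fun r => r.1 = a ∧ Ch (π x) r
  rfl

theorem card_ownpos (a : Fin q) :
    (univ.filter fun e : Pos σ × Pos σ => e.2.1 = a ∧ Ch e.1 e.2).card ≤
      σ a * Fintype.card (Pos σ) := by
  have h1 : (univ.filter fun e : Pos σ × Pos σ => e.2.1 = a ∧ Ch e.1 e.2).card =
      ∑ p : Pos σ, ((univ.filter fun e : Pos σ × Pos σ => e.2.1 = a ∧ Ch e.1 e.2).filter
        fun e => e.1 = p).card :=
    card_eq_sum_card_fiberwise fun e _ => mem_univ _
  rw [h1, mul_comm, ← smul_eq_mul, ← card_univ]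
  refine sum_le_card_nsmul _ _ _ fun p _ => ?_
  have h2 : ((univ.filter fun e : Pos σ × Pos σ => e.2.1 = a ∧ Ch e.1 e.2).filter
        fun e => e.1 = p).card ≤ (univ.filter fun r : Pos σ => r.1 = a ∧ Ch p r).card := by
    refine card_le_card_of_injOn (fun e => e.2) ?_ ?_
    · intro e he
      simp only [coe_filter, mem_filter, mem_univ, true_and, Set.mem_ofPred_eq] at he ⊢
      rw [← he.2]
      exact he.1
    · intro e he e' he' h
      simp only [coe_filter, mem_filter, mem_univ, true_and, Set.mem_ofPred_eq] at he he'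
      exact Prod.ext (he.2.trans he'.2.symm) h
  refine h2.trans ?_
  by_cases hp : p.1 = a
  · have : (univ.filter fun r : Pos σ => r.1 = a ∧ Ch p r) = ∅ := by
      rw [filter_eq_empty_iff]
      rintro r _ ⟨h3, h4⟩
      exact h4.1 (hp.trans h3.symm)
    rw [this, card_empty]
    exact Nat.zero_le _
  · exact (Own_child a p hp).le

end Pool.Agent.helper7.RT
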