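import Pool.Agent.helper7.RT.Own
import Pool.Agent.helper7.RT.Cnt

/-!
# RT-PLoad: the bijections with a large load of a colour (factorial moments)

Let `N = |V|`, `cls = {e : V × V | e.1 ≠ e.2 ∧ c e.1 e.2 = k}` (ordered pairs), `|cls| ≤ M`.
* `own_pair`: if `e ≠ e'` are in `cls` and both belong to block `a` under `π`
  (`InB π a e.2 ∧ Ch (π e.1) (π e.2)`), then the four vertices are different: if the edges have a common
  vertex then they are the same edge (`PC.ne`, `PC.symm`), so `e' = (e.2, e.1)`, but `Ch (π e.1) (π e.2)` and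
  `Ch (π e.2) (π e.1)` exclude each other (`ch_asymm`).
* `load_markov`: if `L ≤ load c π k a` then the number of embeddings
  `Fin j ↪ {e // InB π a e.2 ∧ Ch (π e.1) (π e.2) ∧ c e.1 e.2 = k}` is
  `(load c π k a).descFactorial j ≥ L.descFactorial j` (`Fintype.card_embedding_eq`,
  `Nat.descFactorial_le`); these are the injective functions `f : Fin j → V × V` all of whose values
  are in `cls` and owned under `π`.  Count the pairs `(π, f)` in two ways (exchange the sums): for each of
  the at most `M ^ j` functions `f : Fin j → V × V` with values in `cls` count the `π` for which `f` is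
  injective and all `f i` are owned.  If there is such a `π` then the `2 j` vertices of the `f i` are
  different (`own_pair`), and for each function `g : Fin j → Pos σ × Pos σ` with values in
  `{e | e.2.1 = a ∧ Ch e.1 e.2}` (at most `(σ a * N) ^ j` functions by `card_ownpos`) there are at most
  `(N - 2 j)!` bijections with `π (f i).1 = (g i).1`, `π (f i).2 = (g i).2` for all `i` (`card_ext` for
  `Fin (2 * j)` or an index type equivalent to `Fin j ⊕ Fin j`, `finSumFinEquiv`; if the `2 j` values of
  `g` are not different there is none).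
-/

set_option autoImplicit false

open Finset
open scoped Classical

namespace Pool.Agent.helper7.RT

variable {V C : Type} {q : ℕ} {σ : Fin q → ℕ}

theorem own_pair {c : V → V → C} (hc : PC c) (π : V ≃ Pos σ) (a : Fin q) (k : C) {e e' : V × V}
    (h : InB π a e.2 ∧ Ch (π e.1) (π e.2) ∧ c e.1 e.2 = k)
    (h' : InB π a e'.2 ∧ Ch (π e'.1) (π e'.2) ∧ c e'.1 e'.2 = k) (hne : e ≠ e') :
    e.1 ≠ e.2 ∧ e'.1 ≠ e'.2 ∧ e.1 ≠ e'.1 ∧ e.1 ≠ e'.2 ∧ e.2 ≠ e'.1 ∧ e.2 ≠ e'.2 := by
  obtain ⟨x, y⟩ := e
  obtain ⟨z, w⟩ := e'
  obtain ⟨h1, h2, h3⟩ := h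
  obtain ⟨h1', h2', h3'⟩ := h'
  simp only at h1 h2 h3 h1' h2' h3' ⊢
  have a1 : x ≠ y := fun h => h2.1 (by rw [h])
  have a2 : z ≠ w := fun h => h2'.1 (by rw [h])
  have hcc : c x y = c z w := h3.trans h3'.symm
  refine ⟨a1, a2, ?_, ?_, ?_, ?_⟩
  · rintro rfl
    by_cases hyw : y = w
    · exact hne (by rw [hyw])
    · exact hc.ne x y w a1 a2 hyw hcc
  · rintro rfl
    rw [hc.symm z x] at hcc
    by_cases hyz : y = z
    · subst hyz
      exact ch_asymm h2 h2'
    · exact hc.ne x y z a1 a2.symm hyz hcc
  · rintro rfl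
    rw [hc.symm x y] at hcc
    by_cases hxw : x = w
    · subst hxw
      exact ch_asymm h2 h2'
    · exact hc.ne y x w a1.symm a2 hxw hcc
  · rintro rfl
    rw [hc.symm x y, hc.symm z y] at hcc
    by_cases hxz : x = z
    · exact hne (by rw [hxz])
    · exact hc.ne y x z a1.symm a2.symm hxz hcc

private theorem PLoad_ext [Fintype V] (hV : Fintype.card V = Fintype.card (Pos σ)) (j : ℕ)
    (f : Fin j → V × V) (hf : Function.Injective (Sum.elim (fun i => (f i).1) fun i => (f i).2))
    (g : Fin j → Pos σ × Pos σ) :
    (univ.filter fun π : V ≃ Pos σ => ∀ i, π (f i).1 = (g i).1 ∧ π (f i).2 = (g i).2).card ≤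
      (Fintype.card V - 2 * j).factorial := by
  rcases (univ.filter fun π : V ≃ Pos σ =>
    ∀ i, π (f i).1 = (g i).1 ∧ π (f i).2 = (g i).2).eq_empty_or_nonempty with h0 | ⟨π₀, hπ₀⟩
  · rw [h0]
    simp
  · have hπ₀' := (Finset.mem_filter.mp hπ₀).2
    have hg : Function.Injective (Sum.elim (fun i => (g i).1) fun i => (g i).2) := by
      have : (Sum.elim (fun i => (g i).1) fun i => (g i).2) =
          π₀ ∘ (Sum.elim (fun i => (f i).1) fun i => (f i).2) := by
        funext s
        cases s with
        | inl i => exact (hπ₀' i).1.symm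
        | inr i => exact (hπ₀' i).2.symm
      rw [this]
      exact π₀.injective.comp hf
    set e2 : Fin (2 * j) ≃ Fin j ⊕ Fin j :=
      (finCongr (two_mul j)).trans finSumFinEquiv.symm with he2
    have h1 := card_ext hV (k := 2 * j)
      (⟨fun i => Sum.elim (fun i => (f i).1) (fun i => (f i).2) (e2 i),
        hf.comp e2.injective⟩ : Fin (2 * j) ↪ V)
      (⟨fun i => Sum.elim (fun i => (g i).1) (fun i => (g i).2) (e2 i),
        hg.comp e2.injective⟩ : Fin (2 * j) ↪ Pos σ)
    rw [← h1, ← Set.ncard_coe_finset]
    refine Set.ncard_le_ncard ?_ (Set.toFinite _)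
    intro π hπ
    have hπ' := (Finset.mem_filter.mp (Finset.mem_coe.mp hπ)).2
    intro i
    simp only [Function.Embedding.coeFn_mk]
    rcases e2 i with i' | i'
    · exact (hπ' i').1
    · exact (hπ' i').2

theorem load_markov [Fintype V] {c : V → V → C} (hc : PC c)
    (hV : Fintype.card V = Fintype.card (Pos σ)) (k : C) (a : Fin q) (j M L : ℕ)
    (hM : {e : V × V | e.1 ≠ e.2 ∧ c e.1 e.2 = k}.ncard ≤ M)
    (hj : 2 * j ≤ Fintype.card V) :
    {π : V ≃ Pos σ | L ≤ load c π k a}.ncard * L.descFactorial j ≤
      (M * (σ a * Fintype.card V)) ^ j * (Fintype.card V - 2 * j).factorial := by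
  set cls : Finset (V × V) := univ.filter fun e => e.1 ≠ e.2 ∧ c e.1 e.2 = k with hcls
  have hclsM : cls.card ≤ M := by
    rw [← Set.ncard_coe_finset]
    refine le_trans (le_of_eq ?_) hM
    congr 1
    ext e
    simp [hcls]
  set R : (V ≃ Pos σ) → (Fin j → V × V) → Prop := fun π f => Function.Injective f ∧
    ∀ i, InB π a (f i).2 ∧ Ch (π (f i).1) (π (f i).2) ∧ c (f i).1 (f i).2 = k with hR
  set s : Finset (V ≃ Pos σ) := univ.filter fun π => L ≤ load c π k a with hs
  set t : Finset (Fin j → V × V) := Fintype.piFinset fun _ => cls with ht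
  have hsn : {π : V ≃ Pos σ | L ≤ load c π k a}.ncard = s.card := by
    rw [← Set.ncard_coe_finset]
    congr 1
    ext π
    simp [hs]
  have hm : ∀ π ∈ s, L.descFactorial j ≤ (t.bipartiteAbove R π).card := by
    intro π hπ
    have hL : L ≤ load c π k a := (Finset.mem_filter.mp hπ).2
    set O : Finset (V × V) := univ.filter fun e : V × V =>
      InB π a e.2 ∧ Ch (π e.1) (π e.2) ∧ c e.1 e.2 = k with hO
    have hOl : O.card = load c π k a := rfl
    have h1 : Fintype.card (Fin j ↪ O) = (load c π k a).descFactorial j := by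
      rw [Fintype.card_embedding_eq, Fintype.card_fin, Fintype.card_coe, hOl]
    calc L.descFactorial j ≤ (load c π k a).descFactorial j := Nat.descFactorial_le j hL
      _ = (univ : Finset (Fin j ↪ O)).card := by rw [← h1, Finset.card_univ]
      _ ≤ (t.bipartiteAbove R π).card := by
          refine Finset.card_le_card_of_injOn (fun g i => (g i : V × V)) ?_ ?_
          · intro g _
            rw [Finset.mem_coe, Finset.mem_bipartiteAbove]
            have h2 : ∀ i, InB π a (g i : V × V).2 ∧ Ch (π (g i : V × V).1) (π (g i : V × V).2) ∧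
                c (g i : V × V).1 (g i : V × V).2 = k := fun i =>
              (Finset.mem_filter.mp (g i).2).2
            refine ⟨Fintype.mem_piFinset.mpr fun i => ?_,
              fun i i' hii => g.injective (Subtype.ext hii), h2⟩
            refine Finset.mem_filter.mpr ⟨Finset.mem_univ _, ?_, (h2 i).2.2⟩
            exact fun h => (h2 i).2.1.1 (by rw [h])
          · intro g _ g' _ hgg
            refine DFunLike.ext _ _ fun i => Subtype.ext ?_
            exact congrFun hgg i
  have hn : ∀ f ∈ t, (s.bipartiteBelow R f).card ≤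
      (σ a * Fintype.card V) ^ j * (Fintype.card V - 2 * j).factorial := by
    intro f _
    rcases (s.bipartiteBelow R f).eq_empty_or_nonempty with h0 | ⟨π₀, hπ₀⟩
    · rw [h0]
      simp
    obtain ⟨-, hinj, hown⟩ := (Finset.mem_bipartiteBelow R).mp hπ₀
    have hf : Function.Injective (Sum.elim (fun i => (f i).1) fun i => (f i).2) := by
      rintro (i | i) (i' | i') hii
      · by_contra hne
        exact (own_pair hc π₀ a k (hown i) (hown i')
          (fun h => hne (by rw [hinj h]))).2.2.1 hii
      · exfalso
        by_cases hne : i = i'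
        · subst hne
          exact (hown i).2.1.1 (by simp only [Sum.elim_inl, Sum.elim_inr] at hii; rw [hii])
        · exact (own_pair hc π₀ a k (hown i) (hown i')
            (fun h => hne (hinj h))).2.2.2.1 hii
      · exfalso
        by_cases hne : i = i'
        · subst hne
          exact (hown i).2.1.1 (by simp only [Sum.elim_inl, Sum.elim_inr] at hii; rw [hii])
        · exact (own_pair hc π₀ a k (hown i) (hown i')
            (fun h => hne (hinj h))).2.2.2.2.1 hii
      · by_contra hne
        exact (own_pair hc π₀ a k (hown i) (hown i')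
          (fun h => hne (by rw [hinj h]))).2.2.2.2.2 hii
    set OP : Finset (Pos σ × Pos σ) :=
      univ.filter fun e : Pos σ × Pos σ => e.2.1 = a ∧ Ch e.1 e.2 with hOP
    have hOPc : OP.card ≤ σ a * Fintype.card V := by
      rw [hV]
      exact card_ownpos a
    have hsub : s.bipartiteBelow R f ⊆ (Fintype.piFinset fun _ : Fin j => OP).biUnion
        fun g => univ.filter fun π : V ≃ Pos σ =>
          ∀ i, π (f i).1 = (g i).1 ∧ π (f i).2 = (g i).2 := by
      intro π hπ
      obtain ⟨-, -, how⟩ := (Finset.mem_bipartiteBelow R).mp hπ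
      refine Finset.mem_biUnion.mpr ⟨fun i => (π (f i).1, π (f i).2), ?_, ?_⟩
      · refine Fintype.mem_piFinset.mpr fun i => ?_
        exact Finset.mem_filter.mpr ⟨Finset.mem_univ _, (how i).1, (how i).2.1⟩
      · exact Finset.mem_filter.mpr ⟨Finset.mem_univ _, fun i => ⟨rfl, rfl⟩⟩
    calc (s.bipartiteBelow R f).card ≤ _ := Finset.card_le_card hsub
      _ ≤ (Fintype.piFinset fun _ : Fin j => OP).card *
          (Fintype.card V - 2 * j).factorial :=
          Finset.card_biUnion_le_card_mul _ _ _ fun g _ => PLoad_ext hV j f hf g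
      _ ≤ (σ a * Fintype.card V) ^ j * (Fintype.card V - 2 * j).factorial := by
          refine Nat.mul_le_mul_right _ ?_
          rw [Fintype.card_piFinset, Finset.prod_const, Finset.card_univ, Fintype.card_fin]
          exact Nat.pow_le_pow_left hOPc j
  rw [hsn]
  calc s.card * L.descFactorial j
      ≤ t.card * ((σ a * Fintype.card V) ^ j * (Fintype.card V - 2 * j).factorial) :=
        Finset.card_mul_le_card_mul R hm hn
    _ ≤ M ^ j * ((σ a * Fintype.card V) ^ j * (Fintype.card V - 2 * j).factorial) := by
        refine Nat.mul_le_mul_right _ ?_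
        rw [ht, Fintype.card_piFinset, Finset.prod_const, Finset.card_univ, Fintype.card_fin]
        exact Nat.pow_le_pow_left hclsM j
    _ = _ := by ring

end Pool.Agent.helper7.RT
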