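import Mathlib

/-!
# RT-Wt: sums of weights

`Wt b S = (b / N) ^ |S|`, where `N` is the number of elements of `V`.

* `Wt_insert`: for `u ∈ S` the term is `Wt b S`; for `u ∉ S` it is `(b / N) * Wt b S`, and there are at
  most `N` such `u`.
* `Wt_three`: for given `x y z` there is at most one `w` with `R x y z w`, it is not in
  `S' = insert z (insert y (insert x S))`, so the innermost sum is at most `(b / N) * Wt b S'`; then use
  `Wt_insert` three times (the sets have at most `|S| + 2`, `|S| + 1`, `|S|` elements before the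
  insertion) and `b + |S| + i ≤ b + |S| + 2`.
* `Wt_two`: the same with two free vertices.
-/

set_option autoImplicit false

open Finset
open scoped Classical

namespace Pool.Agent.helper7.RT

variable {V : Type} [Fintype V]

/-- the weight of a set of vertices -/
noncomputable def Wt (b : ℝ) (S : Finset V) : ℝ := (b / Fintype.card V) ^ S.card

theorem Wt_nonneg {b : ℝ} (hb : 0 ≤ b) (S : Finset V) : 0 ≤ Wt b S := by
  unfold Wt
  positivity

theorem Wt_insert {b : ℝ} (hb : 0 ≤ b) (hV : 0 < Fintype.card V) (S : Finset V) :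
    ∑ u : V, Wt b (insert u S) ≤ (S.card + b) * Wt b S := by
  have hN : (0 : ℝ) < Fintype.card V := by exact_mod_cast hV
  have hq : 0 ≤ b / Fintype.card V := div_nonneg hb hN.le
  have hW := Wt_nonneg hb S
  have h1 : ∀ u : V, Wt b (insert u S) ≤
      (if u ∈ S then Wt b S else 0) + b / Fintype.card V * Wt b S := by
    intro u
    by_cases hu : u ∈ S
    · rw [if_pos hu, Finset.insert_eq_of_mem hu]
      have := mul_nonneg hq hW
      linarith
    · rw [if_neg hu, zero_add]
      unfold Wt
      rw [Finset.card_insert_of_notMem hu, pow_succ, mul_comm]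
  refine (Finset.sum_le_sum fun u _ => h1 u).trans ?_
  rw [Finset.sum_add_distrib, Finset.sum_ite_mem, Finset.univ_inter, Finset.sum_const,
    Finset.sum_const, Finset.card_univ, nsmul_eq_mul, nsmul_eq_mul, ← mul_assoc,
    mul_div_cancel₀ _ hN.ne', add_mul]

private theorem Wt_insert' {b : ℝ} (hb : 0 ≤ b) (hV : 0 < Fintype.card V) (S : Finset V) {c : ℝ}
    (hc : S.card + b ≤ c) : ∑ u : V, Wt b (insert u S) ≤ c * Wt b S :=
  (Wt_insert hb hV S).trans (mul_le_mul_of_nonneg_right hc (Wt_nonneg hb S))

private theorem Wt_single {b : ℝ} (hb : 0 ≤ b) (hV : 0 < Fintype.card V) (S : Finset V)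
    (P : V → Prop) (hu : ∀ w w', P w → P w' → w = w') (hn : ∀ w, P w → w ∉ S) :
    ∑ w : V, (if P w then Wt b (insert w S) else 0) ≤ b / Fintype.card V * Wt b S := by
  have hN : (0 : ℝ) < Fintype.card V := by exact_mod_cast hV
  have hq : 0 ≤ b / Fintype.card V := div_nonneg hb hN.le
  by_cases hP : ∃ w, P w
  · obtain ⟨w0, h0⟩ := hP
    rw [Finset.sum_eq_single w0]
    · rw [if_pos h0]
      unfold Wt
      rw [Finset.card_insert_of_notMem (hn w0 h0), pow_succ, mul_comm]
    · intro w _ hw
      rw [if_neg fun h => hw (hu w w0 h h0)]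
    · intro h
      exact absurd (Finset.mem_univ w0) h
  · push Not at hP
    rw [Finset.sum_eq_zero fun w _ => if_neg (hP w)]
    exact mul_nonneg hq (Wt_nonneg hb S)

theorem Wt_three {b : ℝ} (hb : 0 ≤ b) (hV : 0 < Fintype.card V) (S : Finset V)
    (R : V → V → V → V → Prop) (hu : ∀ x y z w w', R x y z w → R x y z w' → w = w')
    (hn : ∀ x y z w, R x y z w → w ∉ insert z (insert y (insert x S))) :
    ∑ x : V, ∑ y : V, ∑ z : V, ∑ w : V, (if R x y z w then
      Wt b (insert w (insert z (insert y (insert x S)))) else 0) ≤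
      b / Fintype.card V * (S.card + 2 + b) ^ 3 * Wt b S := by
  have hN : (0 : ℝ) < Fintype.card V := by exact_mod_cast hV
  have hq : 0 ≤ b / Fintype.card V := div_nonneg hb hN.le
  set q : ℝ := b / Fintype.card V with hqdef
  set c : ℝ := S.card + 2 + b with hc
  have hc0 : 0 ≤ c := by positivity
  have s1 : ∀ x : V, ((insert x S).card : ℝ) ≤ S.card + 1 := fun x => by
    exact_mod_cast Finset.card_insert_le x S
  have s2 : ∀ x y : V, ((insert y (insert x S)).card : ℝ) ≤ S.card + 2 := fun x y => by
    have h1 := Finset.card_insert_le y (insert x S)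
    have h2 := Finset.card_insert_le x S
    have h3 : (insert y (insert x S)).card ≤ S.card + 2 := by omega
    exact_mod_cast h3
  calc ∑ x : V, ∑ y : V, ∑ z : V, ∑ w : V, (if R x y z w then
        Wt b (insert w (insert z (insert y (insert x S)))) else 0)
      ≤ ∑ x : V, ∑ y : V, ∑ z : V, q * Wt b (insert z (insert y (insert x S))) :=
        Finset.sum_le_sum fun x _ => Finset.sum_le_sum fun y _ => Finset.sum_le_sum fun z _ =>
          Wt_single hb hV _ (R x y z) (hu x y z) (hn x y z)
    _ = ∑ x : V, ∑ y : V, q * ∑ z : V, Wt b (insert z (insert y (insert x S))) := by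
        simp only [Finset.mul_sum]
    _ ≤ ∑ x : V, ∑ y : V, q * (c * Wt b (insert y (insert x S))) :=
        Finset.sum_le_sum fun x _ => Finset.sum_le_sum fun y _ =>
          mul_le_mul_of_nonneg_left (Wt_insert' hb hV _ (by
            have := s2 x y
            linarith)) hq
    _ = ∑ x : V, q * (c * ∑ y : V, Wt b (insert y (insert x S))) := by
        simp only [Finset.mul_sum]
    _ ≤ ∑ x : V, q * (c * (c * Wt b (insert x S))) :=
        Finset.sum_le_sum fun x _ =>
          mul_le_mul_of_nonneg_left (mul_le_mul_of_nonneg_left (Wt_insert' hb hV _ (by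
            have := s1 x
            linarith)) hc0) hq
    _ = q * (c * (c * ∑ x : V, Wt b (insert x S))) := by
        simp only [Finset.mul_sum]
    _ ≤ q * (c * (c * (c * Wt b S))) :=
        mul_le_mul_of_nonneg_left (mul_le_mul_of_nonneg_left (mul_le_mul_of_nonneg_left
          (Wt_insert' hb hV _ (by linarith)) hc0) hc0) hq
    _ = q * c ^ 3 * Wt b S := by ring

theorem Wt_two {b : ℝ} (hb : 0 ≤ b) (hV : 0 < Fintype.card V) (S : Finset V)
    (R : V → V → V → Prop) (hu : ∀ z w y y', R z w y → R z w y' → y = y')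
    (hn : ∀ z w y, R z w y → y ∉ insert w (insert z S)) :
    ∑ z : V, ∑ w : V, ∑ y : V, (if R z w y then Wt b (insert y (insert w (insert z S))) else 0) ≤
      b / Fintype.card V * (S.card + 1 + b) ^ 2 * Wt b S := by
  have hN : (0 : ℝ) < Fintype.card V := by exact_mod_cast hV
  have hq : 0 ≤ b / Fintype.card V := div_nonneg hb hN.le
  set q : ℝ := b / Fintype.card V with hqdef
  set c : ℝ := S.card + 1 + b with hc
  have hc0 : 0 ≤ c := by positivity
  have s1 : ∀ x : V, ((insert x S).card : ℝ) ≤ S.card + 1 := fun x => by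
    exact_mod_cast Finset.card_insert_le x S
  calc ∑ z : V, ∑ w : V, ∑ y : V, (if R z w y then Wt b (insert y (insert w (insert z S))) else 0)
      ≤ ∑ z : V, ∑ w : V, q * Wt b (insert w (insert z S)) :=
        Finset.sum_le_sum fun z _ => Finset.sum_le_sum fun w _ =>
          Wt_single hb hV _ (R z w) (hu z w) (hn z w)
    _ = ∑ z : V, q * ∑ w : V, Wt b (insert w (insert z S)) := by
        simp only [Finset.mul_sum]
    _ ≤ ∑ z : V, q * (c * Wt b (insert z S)) :=
        Finset.sum_le_sum fun z _ =>
          mul_le_mul_of_nonneg_left (Wt_insert' hb hV _ (by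
            have := s1 z
            linarith)) hq
    _ = q * (c * ∑ z : V, Wt b (insert z S)) := by
        simp only [Finset.mul_sum]
    _ ≤ q * (c * (c * Wt b S)) :=
        mul_le_mul_of_nonneg_left (mul_le_mul_of_nonneg_left
          (Wt_insert' hb hV _ (by linarith)) hc0) hq
    _ = q * c ^ 2 * Wt b S := by ring

end Pool.Agent.helper7.RT
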