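import Pool.Agent.helper7.RT.Own
import Pool.Agent.helper7.RT.Cnt
import Pool.Agent.helper7.RT.Wt

/-!
# RT-PQuad: few bijections violate `QuadOK`

Let `N = |V|`, `b = 2 σ a`.
* `inB_prob`: `card_mem` with `A = {p | p.1 = a}` (`2 σ a` elements, by `card_block`-like counting or
  `card_block` itself for any `π`).
* `quad_prob`: if `QuadOK c π a` fails there is an 8-tuple with `Quad c x y z w`, `Quad c x' y' z' w'`,
  all eight vertices in block `a`, `w' ∉ {x, y, z, w}` (and `w' ∉ {x', y', z'}` by `Quad`).  So the number of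
  such `π` is at most the sum over these 8-tuples (`Set.ncard_iUnion_le_of_fintype`, the sum over
  `V × V × ...` or nested sums; write the summand as `if ... then ... else 0`) of the number of `π` with all
  eight in block `a`, which
  is at most `N! * Wt b {x, y, z, w, x', y', z', w'}` (`inB_prob`).
  Sum over `x' y' z' w'` first: `Wt_three` with `S = insert w (insert z (insert y (insert x ∅)))`,
  `R x' y' z' w' = Quad c x' y' z' w' ∧ w' ∉ S` (unique `w'` by `quad_unique`), `|S| ≤ 4`: at most
  `(b / N) * (b + 6) ^ 3 * Wt b S`; then `Wt_three` with `S = ∅`, `R = Quad c`: at most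
  `(b / N) * (b + 2) ^ 3 * Wt b ∅ = (b / N) * (b + 2) ^ 3`.
* `quad_unique`: `c z w = c x y = c z w'` with `w, w' ≠ z` and `w ≠ w'` contradicts `PC.ne`.
-/

set_option autoImplicit false

open Finset
open scoped Classical

namespace Pool.Agent.helper7.RT

variable {V C : Type} {q : ℕ} {σ : Fin q → ℕ}

theorem quad_unique {c : V → V → C} (hc : PC c) {x y z w w' : V} (h : Quad c x y z w)
    (h' : Quad c x y z w') : w = w' := by
  by_contra hne
  obtain ⟨-, -, -, -, -, h1, h2⟩ := h
  obtain ⟨-, -, -, -, -, h3, h4⟩ := h'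
  exact hc.ne z w w' h1 h3 hne (h2.symm.trans h4)

theorem inB_prob [Fintype V] (hV : Fintype.card V = Fintype.card (Pos σ)) (a : Fin q)
    (S : Finset V) :
    ({π : V ≃ Pos σ | ∀ x ∈ S, InB π a x}.ncard : ℝ) ≤
      (Fintype.card V).factorial * Wt (2 * σ a : ℝ) S := by
  have h := card_mem hV S (univ.filter fun p : Pos σ => p.1 = a)
  have hA : (univ.filter fun p : Pos σ => p.1 = a).card = 2 * σ a := by
    let π : V ≃ Pos σ := Fintype.equivOfCardEq hV
    rw [← card_block π a]
    refine (Finset.card_bij (fun x _ => π x) ?_ ?_ ?_).symm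
    · intro x hx
      rw [mem_filter] at hx ⊢
      exact ⟨mem_univ _, hx.2⟩
    · intro x _ y _ hxy
      exact π.injective hxy
    · intro r hr
      refine ⟨π.symm r, ?_, π.apply_symm_apply r⟩
      rw [mem_filter] at hr ⊢
      refine ⟨mem_univ _, ?_⟩
      unfold InB
      rw [π.apply_symm_apply]
      exact hr.2
  have hS : {π : V ≃ Pos σ | ∀ x ∈ S, InB π a x} =
      {π : V ≃ Pos σ | ∀ x ∈ S, π x ∈ univ.filter fun p : Pos σ => p.1 = a} := by
    ext π
    simp only [Set.mem_ofPred_eq, mem_filter, mem_univ, true_and, InB]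
  rw [hS]
  refine h.trans (le_of_eq ?_)
  rw [hA]
  unfold Wt
  push_cast
  rfl

/-- the eight vertices -/
noncomputable def PQuad_S (x y z w x' y' z' w' : V) : Finset V :=
  insert w' (insert z' (insert y' (insert x' (insert w (insert z (insert y (insert x (∅ : Finset V))))))))

theorem PQuad_cover [Fintype V] (c : V → V → C)
    (hV : Fintype.card V = Fintype.card (Pos σ)) (a : Fin q) :
    ({π : V ≃ Pos σ | ¬ QuadOK c π a}.ncard : ℝ) ≤
      ∑ x : V, ∑ y : V, ∑ z : V, ∑ w : V, ∑ x' : V, ∑ y' : V, ∑ z' : V, ∑ w' : V,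
        (if Quad c x y z w ∧ Quad c x' y' z' w' ∧ w' ∉ insert w (insert z (insert y (insert x (∅ : Finset V))))
          then ((Fintype.card V).factorial * Wt (2 * σ a : ℝ) (PQuad_S x y z w x' y' z' w')) else 0) := by
  let ι := V × V × V × V × V × V × V × V
  let T : ι → Set (V ≃ Pos σ) := fun t =>
    if Quad c t.1 t.2.1 t.2.2.1 t.2.2.2.1 ∧
      Quad c t.2.2.2.2.1 t.2.2.2.2.2.1 t.2.2.2.2.2.2.1 t.2.2.2.2.2.2.2 ∧
      t.2.2.2.2.2.2.2 ∉ insert t.2.2.2.1 (insert t.2.2.1 (insert t.2.1 (insert t.1 (∅ : Finset V))))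
    then {π | ∀ u ∈ PQuad_S t.1 t.2.1 t.2.2.1 t.2.2.2.1 t.2.2.2.2.1 t.2.2.2.2.2.1
      t.2.2.2.2.2.2.1 t.2.2.2.2.2.2.2, InB π a u} else ∅
  have hsub : {π : V ≃ Pos σ | ¬ QuadOK c π a} ⊆ ⋃ t, T t := by
    intro π hπ
    rw [Set.mem_ofPred_eq, QuadOK] at hπ
    push Not at hπ
    obtain ⟨x, y, z, w, x', y', z', w', h1, h2, i1, i2, i3, i4, i5, i6, i7, i8, n1, n2, n3, n4⟩ := hπ
    refine Set.mem_iUnion.2 ⟨(x, y, z, w, x', y', z', w'), ?_⟩
    have hc : Quad c x y z w ∧ Quad c x' y' z' w' ∧
        w' ∉ insert w (insert z (insert y (insert x (∅ : Finset V)))) := by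
      refine ⟨h1, h2, ?_⟩
      simp only [mem_insert, notMem_empty, or_false]
      tauto
    show π ∈ (if _ then _ else _)
    rw [if_pos hc]
    intro u hu
    simp only [PQuad_S, mem_insert, notMem_empty, or_false] at hu
    rcases hu with rfl | rfl | rfl | rfl | rfl | rfl | rfl | rfl <;> assumption
  have h1 : {π : V ≃ Pos σ | ¬ QuadOK c π a}.ncard ≤ ∑ t, (T t).ncard :=
    (Set.ncard_le_ncard hsub (Set.toFinite _)).trans (Set.ncard_iUnion_le_of_fintype T)
  have h2 : ({π : V ≃ Pos σ | ¬ QuadOK c π a}.ncard : ℝ) ≤ ∑ t, ((T t).ncard : ℝ) := by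
    exact_mod_cast h1
  refine h2.trans ?_
  rw [Fintype.sum_prod_type]
  refine Finset.sum_le_sum fun x _ => ?_
  rw [Fintype.sum_prod_type]
  refine Finset.sum_le_sum fun y _ => ?_
  rw [Fintype.sum_prod_type]
  refine Finset.sum_le_sum fun z _ => ?_
  rw [Fintype.sum_prod_type]
  refine Finset.sum_le_sum fun w _ => ?_
  rw [Fintype.sum_prod_type]
  refine Finset.sum_le_sum fun x' _ => ?_
  rw [Fintype.sum_prod_type]
  refine Finset.sum_le_sum fun y' _ => ?_
  rw [Fintype.sum_prod_type]
  refine Finset.sum_le_sum fun z' _ => ?_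
  refine Finset.sum_le_sum fun w' _ => ?_
  simp only [T]
  split_ifs with hc
  · exact inB_prob hV a _
  · simp

theorem quad_prob [Fintype V] {c : V → V → C} (hc : PC c)
    (hV : Fintype.card V = Fintype.card (Pos σ)) (hN : 0 < Fintype.card V) (a : Fin q) :
    ({π : V ≃ Pos σ | ¬ QuadOK c π a}.ncard : ℝ) ≤
      (Fintype.card V).factorial *
        (((2 * σ a : ℝ) / Fintype.card V) ^ 2 * (2 * σ a + 6) ^ 6) := by
  refine (PQuad_cover c hV a).trans ?_
  set b : ℝ := 2 * σ a with hb
  have hb0 : 0 ≤ b := by positivity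
  have hNr : (0 : ℝ) < Fintype.card V := by exact_mod_cast hN
  set F : ℝ := ((Fintype.card V).factorial : ℝ) with hF
  have hF0 : 0 ≤ F := by positivity
  have hbN : 0 ≤ b / Fintype.card V := by positivity
  -- the inner sums
  have hin : ∀ x y z w : V,
      ∑ x' : V, ∑ y' : V, ∑ z' : V, ∑ w' : V,
        (if Quad c x y z w ∧ Quad c x' y' z' w' ∧ w' ∉ insert w (insert z (insert y (insert x (∅ : Finset V))))
          then (F * Wt b (PQuad_S x y z w x' y' z' w')) else 0) ≤
      F * (b / Fintype.card V * (b + 6) ^ 3) *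
        (if Quad c x y z w then Wt b (insert w (insert z (insert y (insert x (∅ : Finset V))))) else 0) := by
    intro x y z w
    by_cases hq : Quad c x y z w
    · rw [if_pos hq]
      set S : Finset V := insert w (insert z (insert y (insert x (∅ : Finset V)))) with hS
      have hc4 : S.card ≤ 4 := by
        rw [hS]
        refine (card_insert_le _ _).trans ?_
        have h1 := card_insert_le z (insert y (insert x (∅ : Finset V)))
        have h2 := card_insert_le y (insert x (∅ : Finset V))
        have h3 := card_insert_le x (∅ : Finset V)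
        rw [card_empty] at h3
        omega
      have h3 := Wt_three hb0 hN S (fun x' y' z' w' => Quad c x' y' z' w' ∧ w' ∉ S)
        (fun x' y' z' w₁ w₂ h h' => quad_unique hc h.1 h'.1)
        (fun x' y' z' w' h => by
          obtain ⟨⟨-, -, n1, -, n2, n3, -⟩, n4⟩ := h
          simp only [mem_insert, not_or]
          exact ⟨fun e => n3 e.symm, fun e => n2 e.symm, fun e => n1 e.symm, n4⟩)
      have hW : 0 ≤ Wt b S := Wt_nonneg hb0 S
      have hpow : ((S.card : ℝ) + 2 + b) ^ 3 ≤ (b + 6) ^ 3 := by
        have : (S.card : ℝ) ≤ 4 := by exact_mod_cast hc4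
        refine pow_le_pow_left₀ (by positivity) (by linarith) 3
      calc _ = F * ∑ x' : V, ∑ y' : V, ∑ z' : V, ∑ w' : V,
            (if Quad c x' y' z' w' ∧ w' ∉ S then
              Wt b (insert w' (insert z' (insert y' (insert x' S)))) else 0) := by
            simp only [Finset.mul_sum, mul_ite, mul_zero]
            refine Finset.sum_congr rfl fun x' _ => Finset.sum_congr rfl fun y' _ =>
              Finset.sum_congr rfl fun z' _ => Finset.sum_congr rfl fun w' _ => ?_
            by_cases h : Quad c x' y' z' w' ∧ w' ∉ S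
            · rw [if_pos h, if_pos ⟨hq, h.1, h.2⟩]
              rfl
            · rw [if_neg h, if_neg (fun h' => h h'.2)]
        _ ≤ F * (b / Fintype.card V * (S.card + 2 + b) ^ 3 * Wt b S) := by
            refine mul_le_mul_of_nonneg_left ?_ hF0
            refine (le_of_eq ?_).trans h3
            refine Finset.sum_congr rfl fun x' _ => Finset.sum_congr rfl fun y' _ =>
              Finset.sum_congr rfl fun z' _ => Finset.sum_congr rfl fun w' _ => ?_
            by_cases h : Quad c x' y' z' w' ∧ w' ∉ S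
            · rw [if_pos h, if_pos h]
            · rw [if_neg h, if_neg h]
        _ ≤ F * (b / Fintype.card V * (b + 6) ^ 3 * Wt b S) := by
            refine mul_le_mul_of_nonneg_left ?_ hF0
            refine mul_le_mul_of_nonneg_right ?_ hW
            exact mul_le_mul_of_nonneg_left hpow hbN
        _ = _ := by ring
    · rw [if_neg hq, mul_zero]
      refine le_of_eq ?_
      refine Finset.sum_eq_zero fun x' _ => Finset.sum_eq_zero fun y' _ =>
        Finset.sum_eq_zero fun z' _ => Finset.sum_eq_zero fun w' _ => ?_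
      rw [if_neg (fun h => hq h.1)]
  have h3 := Wt_three hb0 hN (∅ : Finset V) (fun x y z w => Quad c x y z w)
    (fun x y z w₁ w₂ h h' => quad_unique hc h h')
    (fun x y z w h => by
      obtain ⟨-, -, n1, -, n2, n3, -⟩ := h
      simp only [mem_insert, not_or, notMem_empty, not_false_eq_true, and_true]
      exact ⟨fun e => n3 e.symm, fun e => n2 e.symm, fun e => n1 e.symm⟩)
  have hW0 : Wt b (∅ : Finset V) = 1 := by
    unfold Wt
    simp
  rw [hW0, card_empty] at h3
  calc _ ≤ ∑ x : V, ∑ y : V, ∑ z : V, ∑ w : V, F * (b / Fintype.card V * (b + 6) ^ 3) *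
        (if Quad c x y z w then Wt b (insert w (insert z (insert y (insert x (∅ : Finset V))))) else 0) := by
        refine Finset.sum_le_sum fun x _ => Finset.sum_le_sum fun y _ =>
          Finset.sum_le_sum fun z _ => Finset.sum_le_sum fun w _ => hin x y z w
    _ = F * (b / Fintype.card V * (b + 6) ^ 3) * ∑ x : V, ∑ y : V, ∑ z : V, ∑ w : V,
        (if Quad c x y z w then Wt b (insert w (insert z (insert y (insert x (∅ : Finset V))))) else 0) := by
        simp only [Finset.mul_sum]
    _ ≤ F * (b / Fintype.card V * (b + 6) ^ 3) *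
        (b / Fintype.card V * (b + 6) ^ 3) := by
        refine mul_le_mul_of_nonneg_left (h3.trans ?_) (by positivity)
        rw [mul_one]
        refine mul_le_mul_of_nonneg_left ?_ hbN
        push_cast
        refine pow_le_pow_left₀ (by positivity) (by linarith) 3
    _ = _ := by ring

end Pool.Agent.helper7.RT
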