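import Pool.Agent.helper7.RT.Main

/-!
# RT-Split: all proper colourings

PROOF.  Let `L = n - ⌈n ^ (24 / 25)⌉₊`, `2 * ⌈n ^ (24 / 25)⌉₊ ≤ n` (`numeric`), so `n - L ≤ L`.  For every colour
`k` choose a subset `A k` of the class `{e | ¬ e.IsDiag ∧ c e = k}` with `min (m_k) L` elements
(`Set.exists_subset_card_eq` or with finsets); the colouring `c' e = (c e, decide (e ∈ A (c e)))` is proper
(its first component is) and all its classes have at most `L` elements: `(k, true)` is `A k`, and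
`(k, false)` has `m_k - min (m_k) L ≤ n - L ≤ L` elements, because a class of a proper colouring of
`K_{2n}` has at most `n` edges (`class_le`: its edges are disjoint, they have `2 m_k` different end points).
`main_le` for `c'` gives `t`.  A tree contains at most one edge of each of the two classes, so at most two
edges of colour `k`, and if it contains two then it contains one of the class `(k, false)`; different trees
contain different edges of it, so there are at most `m_k - L` such trees (in natural numbers).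
The last part: if `m_k ≤ L` there is no such tree, so every tree has at most one edge of colour `k`;
the floor of `m_k / n` is `0` (`m_k ≤ L < n`, `0 < n`), and its ceiling is `1` for `m_k ≥ 1`; for `m_k = 0`
there is no edge of colour `k` at all.
-/

set_option autoImplicit false

open Finset Filter
open scoped Classical

namespace Pool.Agent.helper7.RT

theorem main_all : ∀ᶠ n : ℕ in atTop, ∀ (C : Type) (c : Sym2 (Fin (2 * n)) → C),
    (∀ x y z, x ≠ y → x ≠ z → y ≠ z → c s(x, y) ≠ c s(x, z)) →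
    ∃ t : Sym2 (Fin (2 * n)) → Fin n,
      (∀ i, (SimpleGraph.fromEdgeSet {e | t e = i}).IsTree) ∧
      ∀ k : C,
        (∀ i, {e | ¬ e.IsDiag ∧ t e = i ∧ c e = k}.ncard ≤ 2) ∧
        {i | 2 ≤ {e | ¬ e.IsDiag ∧ t e = i ∧ c e = k}.ncard}.ncard ≤
          {e | ¬ e.IsDiag ∧ c e = k}.ncard - (n - ⌈(n : ℝ) ^ (24 / 25 : ℝ)⌉₊) := by
  filter_upwards [main_le, numeric] with n hmain hnum
  intro C c hc
  obtain ⟨_, _, _, _, _, _, _, hD⟩ := hnum
  set D : ℕ := ⌈(n : ℝ) ^ (24 / 25 : ℝ)⌉₊ with hDdef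
  have hex : ∀ k : C, ∃ A : Set (Sym2 (Fin (2 * n))), A ⊆ {e | ¬ e.IsDiag ∧ c e = k} ∧
      A.ncard = min ({e | ¬ e.IsDiag ∧ c e = k}.ncard) (n - D) := fun k =>
    Set.exists_subset_card_eq (min_le_left _ _)
  choose A hAsub hAcard using hex
  have hdiff : ∀ k : C, ({e | ¬ e.IsDiag ∧ c e = k} \ A k).ncard =
      {e | ¬ e.IsDiag ∧ c e = k}.ncard - min ({e | ¬ e.IsDiag ∧ c e = k}.ncard) (n - D) := by
    intro k
    rw [Set.ncard_diff (hAsub k) (Set.toFinite _), hAcard k]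
  have hcls : ∀ kb : C × Bool,
      {e | ¬ e.IsDiag ∧ (c e, decide (e ∈ A (c e))) = kb}.ncard ≤ n - D := by
    rintro ⟨k, b⟩
    cases b with
    | true =>
      have hsub : {e | ¬ e.IsDiag ∧ (c e, decide (e ∈ A (c e))) = (k, true)} ⊆ A k := by
        rintro e ⟨_, he⟩
        rw [Prod.mk.injEq, decide_eq_true_eq] at he
        rw [← he.1]
        exact he.2
      refine (Set.ncard_le_ncard hsub (Set.toFinite _)).trans ?_
      rw [hAcard k]
      exact min_le_right _ _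
    | false =>
      have hsub : {e | ¬ e.IsDiag ∧ (c e, decide (e ∈ A (c e))) = (k, false)} ⊆
          {e | ¬ e.IsDiag ∧ c e = k} \ A k := by
        rintro e ⟨hd, he⟩
        rw [Prod.mk.injEq, decide_eq_false_iff_not] at he
        refine ⟨⟨hd, he.1⟩, ?_⟩
        rw [← he.1]
        exact he.2
      refine (Set.ncard_le_ncard hsub (Set.toFinite _)).trans ?_
      rw [hdiff k]
      have h1 := class_le n C c hc k
      omega
  obtain ⟨t, ht, hrain⟩ := hmain (C × Bool) (fun e => (c e, decide (e ∈ A (c e))))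
    (fun x y z h1 h2 h3 h => hc x y z h1 h2 h3 (congrArg Prod.fst h)) hcls
  refine ⟨t, ht, fun k => ⟨fun i => ?_, ?_⟩⟩
  · have hinj : Set.InjOn (fun e => decide (e ∈ A k)) {e | ¬ e.IsDiag ∧ t e = i ∧ c e = k} := by
      rintro e ⟨hd, hti, hck⟩ e' ⟨hd', hti', hck'⟩ h
      refine hrain e e' hd hd' ?_ (hti.trans hti'.symm)
      dsimp only at h ⊢
      rw [hck, hck', h]
    have h1 := Set.ncard_le_ncard_of_injOn (t := (Set.univ : Set Bool)) _
      (fun _ _ => Set.mem_univ _) hinj (Set.toFinite _)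
    rw [Set.ncard_univ, Nat.card_eq_fintype_card, Fintype.card_bool] at h1
    exact h1
  · have hsub : {i | 2 ≤ {e | ¬ e.IsDiag ∧ t e = i ∧ c e = k}.ncard} ⊆
        t '' ({e | ¬ e.IsDiag ∧ c e = k} \ A k) := by
      intro i hi
      by_contra hcon
      have hall : ∀ e, ¬ e.IsDiag → t e = i → c e = k → e ∈ A k := by
        intro e hd hti hck
        by_contra hA
        exact hcon ⟨e, ⟨⟨hd, hck⟩, hA⟩, hti⟩
      have h1 : {e | ¬ e.IsDiag ∧ t e = i ∧ c e = k}.ncard ≤ 1 := by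
        rw [Set.ncard_le_one (Set.toFinite _)]
        rintro e ⟨hd, hti, hck⟩ e' ⟨hd', hti', hck'⟩
        refine hrain e e' hd hd' ?_ (hti.trans hti'.symm)
        rw [hck, hck', decide_eq_true (hall e hd hti hck), decide_eq_true (hall e' hd' hti' hck')]
      have h2 : 2 ≤ {e | ¬ e.IsDiag ∧ t e = i ∧ c e = k}.ncard := hi
      omega
    refine (Set.ncard_le_ncard hsub (Set.toFinite _)).trans ?_
    refine (Set.ncard_image_le (Set.toFinite _)).trans ?_
    rw [hdiff k]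
    omega

theorem balanced : ∀ᶠ n : ℕ in atTop, ∀ (C : Type) (c : Sym2 (Fin (2 * n)) → C)
    (t : Sym2 (Fin (2 * n)) → Fin n) (k : C),
    {e | ¬ e.IsDiag ∧ c e = k}.ncard ≤ n - ⌈(n : ℝ) ^ (24 / 25 : ℝ)⌉₊ →
    {i | 2 ≤ {e | ¬ e.IsDiag ∧ t e = i ∧ c e = k}.ncard}.ncard ≤
          {e | ¬ e.IsDiag ∧ c e = k}.ncard - (n - ⌈(n : ℝ) ^ (24 / 25 : ℝ)⌉₊) →
    ∀ i, ⌊({e | ¬ e.IsDiag ∧ c e = k}.ncard : ℚ) / n⌋ ≤
        ({e | ¬ e.IsDiag ∧ t e = i ∧ c e = k}.ncard : ℤ) ∧
      ({e | ¬ e.IsDiag ∧ t e = i ∧ c e = k}.ncard : ℤ) ≤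
        ⌈({e | ¬ e.IsDiag ∧ c e = k}.ncard : ℚ) / n⌉ := by
  filter_upwards [numeric] with n hnum
  intro C c t k hm htwo i
  obtain ⟨s, hs, hsn, _, _, _, _, hD⟩ := hnum
  set D : ℕ := ⌈(n : ℝ) ^ (24 / 25 : ℝ)⌉₊ with hDdef
  have hn : 0 < n := by omega
  have hD1 : 0 < D := by
    rw [hDdef, Nat.ceil_pos]
    exact Real.rpow_pos_of_pos (by exact_mod_cast hn) _
  set m : ℕ := {e | ¬ e.IsDiag ∧ c e = k}.ncard with hmdef
  have hmn : m < n := by omega
  have hone : {e | ¬ e.IsDiag ∧ t e = i ∧ c e = k}.ncard ≤ 1 := by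
    have h0 : {i | 2 ≤ {e | ¬ e.IsDiag ∧ t e = i ∧ c e = k}.ncard}.ncard = 0 := by omega
    rw [Set.ncard_eq_zero (Set.toFinite _)] at h0
    by_contra hcon
    have h1 : i ∈ {i | 2 ≤ {e | ¬ e.IsDiag ∧ t e = i ∧ c e = k}.ncard} := by
      show 2 ≤ _
      omega
    rw [h0] at h1
    exact h1
  have hnQ : (0 : ℚ) < n := by exact_mod_cast hn
  have hfloor : ⌊(m : ℚ) / n⌋ = 0 := by
    rw [Int.floor_eq_zero_iff, Set.mem_Ico]
    refine ⟨by positivity, ?_⟩
    rw [div_lt_one hnQ]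
    exact_mod_cast hmn
  refine ⟨?_, ?_⟩
  · rw [hfloor]
    positivity
  · by_cases h0 : m = 0
    · have h1 : {e | ¬ e.IsDiag ∧ t e = i ∧ c e = k}.ncard = 0 := by
        rw [hmdef, Set.ncard_eq_zero (Set.toFinite _)] at h0
        rw [Set.ncard_eq_zero (Set.toFinite _), Set.eq_empty_iff_forall_notMem]
        rintro e ⟨hd, _, hck⟩
        have h2 : e ∈ {e | ¬ e.IsDiag ∧ c e = k} := ⟨hd, hck⟩
        rw [h0] at h2
        exact h2
      rw [h1, h0]
      simp
    · have h1 : (0 : ℚ) < (m : ℚ) / n := div_pos (by exact_mod_cast Nat.pos_of_ne_zero h0) hnQ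
      have h2 : 0 < ⌈(m : ℚ) / n⌉ := Int.ceil_pos.2 h1
      have h3 : (({e | ¬ e.IsDiag ∧ t e = i ∧ c e = k}.ncard : ℕ) : ℤ) ≤ 1 := by
        exact_mod_cast hone
      omega

end Pool.Agent.helper7.RT
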