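import Pool.Agent.helper7.RT.PLoad

/-!
# RT-Tail: the probability that a colour has a large load

PROOF.  Let `N = |V|`, `s = σ a`, `j = ⌊δ s / 4⌋₊`, so `δ s / 8 ≤ j ≤ δ s / 4` (`28 ≤ δ s`), `L = s - 7`
(`7 ≤ δ s / 4 ≤ s / 4`).  If `s < load + 8` then `L ≤ load`, so `load_markov` gives
`#bad * L.descFactorial j ≤ (M * s * N) ^ j * (N - 2 j)!`, and `(L - j : ℝ) ^ j ≤ L.descFactorial j`
(`Nat.pow_sub_le_descFactorial`), so
`#bad * (L - j) ^ j ≤ (M * s * N) ^ j * (N - 2 j)!`, and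
`N! = N.descFactorial (2 j) * (N - 2 j)! ≥ (N - 2 j) ^ (2 j) * (N - 2 j)!`.
Therefore `#bad ≤ N! * ρ ^ j` with `ρ = M s N / ((N - 2 j) ^ 2 * (L - j))`.  Here
`M s N ≤ (1 - δ) * s * N ^ 2`, `L - j ≥ s - δ s / 4 - δ s / 4 = (1 - δ / 2) s`,
`N - 2 j ≥ (1 - δ / 8) N` (`2 j ≤ δ s / 2 ≤ δ N / 8` by `4 s ≤ N`), so
`ρ ≤ (1 - δ) / ((1 - δ / 8) ^ 2 * (1 - δ / 2)) ≤ 1 - δ / 4`, because
`(1 - δ / 8) ^ 2 ≥ 1 - δ / 4`, `(1 - δ / 4) * (1 - δ / 2) ≥ 1 - 3 * δ / 4` and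
`(1 - δ / 4) * (1 - 3 * δ / 4) ≥ 1 - δ` (all for `0 ≤ δ ≤ 1`).  Finally `1 - δ / 4 ≤ exp (- δ / 4)`
(`Real.add_one_le_exp`), so `ρ ^ j ≤ exp (- δ * j / 4) ≤ exp (- δ ^ 2 * s / 32)`.
-/

set_option autoImplicit false

open Finset
open scoped Classical

namespace Pool.Agent.helper7.RT

variable {V C : Type} {q : ℕ} {σ : Fin q → ℕ}

private theorem tail_ratio {M s N a b δ : ℝ} (h1 : δ ≤ 1) (hM : M ≤ (1 - δ) * N)
    (hspos : 0 < s) (hNpos : 0 < N) (hapos : 0 < a)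
    (hage : (1 - δ / 2) * s ≤ a) (hbge : (1 - δ / 8) * N ≤ b) :
    M * (s * N) ≤ Real.exp (-(δ / 4)) * (a * b ^ 2) := by
  have e1 : M * (s * N) ≤ (1 - δ) * (s * N ^ 2) := by
    have := mul_le_mul_of_nonneg_right hM (mul_nonneg hspos.le hNpos.le)
    nlinarith
  have e2 : (1 - δ / 4) * N ^ 2 ≤ b ^ 2 := by
    have h8 : 0 ≤ (1 - δ / 8) * N := by
      apply mul_nonneg _ hNpos.le; linarith
    have h9 : ((1 - δ / 8) * N) ^ 2 ≤ b ^ 2 := pow_le_pow_left₀ h8 hbge 2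
    have h10 : (1 - δ / 4) * N ^ 2 ≤ ((1 - δ / 8) * N) ^ 2 := by
      have : 0 ≤ (δ * N) ^ 2 := sq_nonneg _
      nlinarith
    exact h10.trans h9
  have e3 : (1 - δ / 2) * s * ((1 - δ / 4) * N ^ 2) ≤ a * b ^ 2 := by
    apply mul_le_mul hage e2 _ hapos.le
    apply mul_nonneg _ (sq_nonneg _); linarith
  have e4 : (1 - δ) * (s * N ^ 2) ≤
      (1 - δ / 4) * ((1 - δ / 2) * s * ((1 - δ / 4) * N ^ 2)) := by
    have h11 : (1 - δ) ≤ (1 - δ / 4) * ((1 - δ / 2) * (1 - δ / 4)) := by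
      have : 0 ≤ δ ^ 2 := sq_nonneg _
      have : 0 ≤ δ ^ 2 * (1 - δ) := mul_nonneg (sq_nonneg _) (by linarith)
      nlinarith
    have := mul_le_mul_of_nonneg_right h11 (mul_nonneg hspos.le (sq_nonneg N))
    calc (1 - δ) * (s * N ^ 2) ≤ (1 - δ / 4) * ((1 - δ / 2) * (1 - δ / 4)) *
          (s * N ^ 2) := this
      _ = _ := by ring
  have e5 : 1 - δ / 4 ≤ Real.exp (-(δ / 4)) := by
    have := Real.add_one_le_exp (-(δ / 4))
    linarith
  calc M * (s * N) ≤ (1 - δ) * (s * N ^ 2) := e1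
    _ ≤ (1 - δ / 4) * ((1 - δ / 2) * s * ((1 - δ / 4) * N ^ 2)) := e4
    _ ≤ (1 - δ / 4) * (a * b ^ 2) := mul_le_mul_of_nonneg_left e3 (by linarith)
    _ ≤ Real.exp (-(δ / 4)) * (a * b ^ 2) :=
      mul_le_mul_of_nonneg_right e5 (mul_nonneg hapos.le (sq_nonneg _))

/-- the numerical part -/
theorem tail_num (N s j M : ℕ) (δ B : ℝ) (h0 : 0 < δ) (h1 : δ ≤ 1)
    (hM : (M : ℝ) ≤ (1 - δ) * N) (hs : 28 ≤ δ * s) (hN : 4 * s ≤ N) (hj : j = ⌊δ * s / 4⌋₊)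
    (hB : B * ((s - 7).descFactorial j : ℝ) ≤
      ((M : ℝ) * (s * N)) ^ j * ((N - 2 * j).factorial : ℝ)) (hB0 : 0 ≤ B) :
    B ≤ N.factorial * Real.exp (-(δ ^ 2 * s / 32)) := by
  have hs0 : (28 : ℝ) ≤ s := by nlinarith [Nat.cast_nonneg (α := ℝ) s]
  have hsN : 28 ≤ s := by exact_mod_cast hs0
  have hjle : (j : ℝ) ≤ δ * s / 4 := by
    rw [hj]; exact Nat.floor_le (by positivity)
  have hjge : δ * s / 8 ≤ (j : ℝ) := by
    have h := Nat.lt_floor_add_one (δ * s / 4)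
    rw [← hj] at h
    linarith
  have hjs : (j : ℝ) ≤ s / 4 := by
    have : δ * s ≤ s := by nlinarith
    linarith
  have hNr : (4 : ℝ) * s ≤ N := by exact_mod_cast hN
  have hjs' : 4 * j ≤ s := by
    have : (4 : ℝ) * j ≤ s := by linarith
    exact_mod_cast this
  have hLj : j ≤ s - 7 := by omega
  have h2j : 2 * j ≤ N := by omega
  -- the two bases
  set a : ℝ := ((s - 7 - j : ℕ) : ℝ) with ha
  have haeq : a = (s : ℝ) - 7 - j := by
    rw [ha, Nat.cast_sub hLj, Nat.cast_sub (by omega)]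
    norm_num
  set b : ℝ := ((N - 2 * j : ℕ) : ℝ) with hb
  have hbeq : b = (N : ℝ) - 2 * j := by
    rw [hb, Nat.cast_sub h2j]
    push_cast
    ring
  have hage : (1 - δ / 2) * s ≤ a := by
    rw [haeq]; nlinarith
  have hbge : (1 - δ / 8) * N ≤ b := by
    rw [hbeq]; nlinarith
  have hNpos : (0 : ℝ) < N := by linarith
  have hspos : (0 : ℝ) < s := by linarith
  have hapos : 0 < a := lt_of_lt_of_le (by nlinarith) hage
  have hbpos : 0 < b := lt_of_lt_of_le (by nlinarith) hbge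
  -- descending factorials
  have hd1 : a ^ j ≤ ((s - 7).descFactorial j : ℝ) := by
    have h := Nat.pow_sub_le_descFactorial (s - 7) j
    have h' : (s - 7 - j) ^ j ≤ (s - 7).descFactorial j :=
      le_trans (Nat.pow_le_pow_left (by omega) j) h
    rw [ha]
    exact_mod_cast h'
  have hd2 : b ^ (2 * j) * ((N - 2 * j).factorial : ℝ) ≤ (N.factorial : ℝ) := by
    have h := Nat.pow_sub_le_descFactorial N (2 * j)
    have h' : (N - 2 * j) ^ (2 * j) ≤ N.descFactorial (2 * j) :=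
      le_trans (Nat.pow_le_pow_left (by omega) _) h
    have h2 := Nat.factorial_mul_descFactorial h2j
    have h3 : (N - 2 * j) ^ (2 * j) * (N - 2 * j).factorial ≤ N.factorial := by
      rw [← h2, mul_comm]
      exact Nat.mul_le_mul_left _ h'
    rw [hb]
    exact_mod_cast h3
  -- the ratio
  have hM0 : (0 : ℝ) ≤ M := Nat.cast_nonneg M
  have hratio : (M : ℝ) * (s * N) ≤ Real.exp (-(δ / 4)) * (a * b ^ 2) := by
    exact tail_ratio h1 hM hspos hNpos hapos hage hbge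
  have hpow : ((M : ℝ) * (s * N)) ^ j ≤ Real.exp (-(δ * j / 4)) * (a ^ j * b ^ (2 * j)) := by
    have h := pow_le_pow_left₀ (mul_nonneg hM0 (mul_nonneg hspos.le hNpos.le)) hratio j
    refine h.trans (le_of_eq ?_)
    rw [mul_pow, mul_pow, ← Real.exp_nat_mul, ← pow_mul]
    congr 2
    ring
  have hmain : B * (a ^ j * b ^ (2 * j)) ≤
      (N.factorial * Real.exp (-(δ * j / 4))) * (a ^ j * b ^ (2 * j)) := by
    have hbj : 0 ≤ b ^ (2 * j) := pow_nonneg hbpos.le _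
    have hf0 : (0 : ℝ) ≤ ((N - 2 * j).factorial : ℝ) := Nat.cast_nonneg _
    calc B * (a ^ j * b ^ (2 * j)) = (B * a ^ j) * b ^ (2 * j) := by ring
      _ ≤ (B * ((s - 7).descFactorial j : ℝ)) * b ^ (2 * j) :=
        mul_le_mul_of_nonneg_right (mul_le_mul_of_nonneg_left hd1 hB0) hbj
      _ ≤ (((M : ℝ) * (s * N)) ^ j * ((N - 2 * j).factorial : ℝ)) * b ^ (2 * j) :=
        mul_le_mul_of_nonneg_right hB hbj
      _ = ((M : ℝ) * (s * N)) ^ j * (b ^ (2 * j) * ((N - 2 * j).factorial : ℝ)) := by ring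
      _ ≤ ((M : ℝ) * (s * N)) ^ j * (N.factorial : ℝ) :=
        mul_le_mul_of_nonneg_left hd2
          (pow_nonneg (mul_nonneg hM0 (mul_nonneg hspos.le hNpos.le)) _)
      _ ≤ (Real.exp (-(δ * j / 4)) * (a ^ j * b ^ (2 * j))) * (N.factorial : ℝ) :=
        mul_le_mul_of_nonneg_right hpow (Nat.cast_nonneg _)
      _ = _ := by ring
  have hab : 0 < a ^ j * b ^ (2 * j) := mul_pos (pow_pos hapos _) (pow_pos hbpos _)
  refine (le_of_mul_le_mul_right hmain hab).trans ?_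
  apply mul_le_mul_of_nonneg_left _ (Nat.cast_nonneg _)
  apply Real.exp_le_exp.2
  have h12 := mul_le_mul_of_nonneg_left hjge h0.le
  have h13 : δ ^ 2 * (s : ℝ) / 32 = δ * (δ * s / 8) / 4 := by ring
  rw [h13]
  linarith

theorem load_tail [Fintype V] {c : V → V → C} (hc : PC c)
    (hV : Fintype.card V = Fintype.card (Pos σ)) (k : C) (a : Fin q) (M : ℕ)
    (hM : {e : V × V | e.1 ≠ e.2 ∧ c e.1 e.2 = k}.ncard ≤ M) (δ : ℝ) (h0 : 0 < δ)
    (h1 : δ ≤ 1) (hMδ : (M : ℝ) ≤ (1 - δ) * Fintype.card V) (hs : 28 ≤ δ * σ a)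
    (hN : 4 * σ a ≤ Fintype.card V) :
    ({π : V ≃ Pos σ | ¬ load c π k a + 8 ≤ σ a}.ncard : ℝ) ≤
      (Fintype.card V).factorial * Real.exp (-(δ ^ 2 * σ a / 32)) := by
  set N := Fintype.card V with hNdef
  set s := σ a with hsdef
  have hs0 : (28 : ℝ) ≤ s := by nlinarith [Nat.cast_nonneg (α := ℝ) s]
  have hsN : 28 ≤ s := by exact_mod_cast hs0
  have hjle : ((⌊δ * s / 4⌋₊ : ℕ) : ℝ) ≤ δ * s / 4 := Nat.floor_le (by positivity)
  have hjs : 4 * ⌊δ * s / 4⌋₊ ≤ s := by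
    have h : δ * s ≤ s := by nlinarith
    have : (4 : ℝ) * ((⌊δ * s / 4⌋₊ : ℕ) : ℝ) ≤ s := by linarith
    exact_mod_cast this
  have hset : {π : V ≃ Pos σ | ¬ load c π k a + 8 ≤ s} =
      {π : V ≃ Pos σ | s - 7 ≤ load c π k a} := by
    ext π
    simp only [Set.mem_ofPred_eq]
    omega
  rw [hset]
  have hmk := load_markov hc hV k a ⌊δ * s / 4⌋₊ M (s - 7) hM (by omega)
  refine tail_num N s ⌊δ * s / 4⌋₊ M δ _ h0 h1 hMδ hs hN rfl ?_ (Nat.cast_nonneg _)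
  exact_mod_cast hmk

end Pool.Agent.helper7.RT
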